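import Pool.Agent.Helper82.TI2.Glue2
import Pool.Agent.Helper82.TI2.Dims2

/-!
# Project TI, second part: exactness as a condition on dimensions

Let K_i = {z ∈ FS (i+1) : Og z ∈ FS (i+1)}. The map (p, q) ↦ p + Og q on FS (i+1) × FS (i+1) has
range Bg (i+1) and kernel isomorphic to K_i; Bg i ≤ K_i and VG D G τ i says K_i ≤ Bg i.
-/

open Finset

namespace Pool.Agent.Helper82.TI2

open Pool.Agent.Helper82.TI

variable {K V ι n A : Type} [Field K] [LinearOrder K] [IsStrictOrderedRing K] [DecidableEq V]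
  [Fintype V] [Fintype ι] [Fintype n] [Fintype A] [DecidableEq A]

private theorem finrank_FS {D : Dat K V ι n} (hD : OkA D) {i : ℕ} {τ : Finset V}
    (h : i + τ.card ≤ D.d + 1) :
    Module.finrank K (D.FS A i τ) = Fintype.card A * D.Hn i τ := by
  classical
  let e : D.FS A i τ ≃ₗ[K] (A → D.Fs i τ) :=
    { toFun := fun z a => ⟨z.1 a, (Submodule.mem_pi.1 z.2) a (Set.mem_univ a)⟩
      map_add' := fun z z' => rfl
      map_smul' := fun r z => rfl
      invFun := fun y => ⟨fun a => (y a).1, Submodule.mem_pi.2 (fun a _ => (y a).2)⟩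
      left_inv := fun z => rfl
      right_inv := fun y => rfl }
  rw [e.finrank_eq, Module.finrank_pi_fintype, Finset.sum_const, Finset.card_univ, smul_eq_mul,
    finrank_FsA hD h]

theorem mem_Bg {D : Dat K V ι n} {G : V → Matrix A A K} {τ : Finset V} {i : ℕ}
    {z : A → ι → K} : z ∈ Bg D G τ i ↔
      ∃ p ∈ D.FS A i τ, ∃ q ∈ D.FS A i τ, z = p + Og D G q := by
  unfold Bg
  rw [Submodule.mem_sup]
  constructor
  · rintro ⟨p, hp, y, hy, rfl⟩
    obtain ⟨q, hq, rfl⟩ := Submodule.mem_map.1 hy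
    exact ⟨p, hp, q, hq, rfl⟩
  · rintro ⟨p, hp, q, hq, rfl⟩
    exact ⟨p, hp, _, Submodule.mem_map_of_mem hq, rfl⟩

theorem Bg_zero (D : Dat K V ι n) (G : V → Matrix A A K) (τ : Finset V) : Bg D G τ 0 = ⊥ := by
  rw [eq_bot_iff]
  intro z hz
  obtain ⟨p, hp, q, hq, rfl⟩ := mem_Bg.1 hz
  rw [FS_zero D hp, FS_zero D hq, map_zero, add_zero]
  exact Submodule.zero_mem _

/-- The kernel space. -/
private def Kg (D : Dat K V ι n) (G : V → Matrix A A K) (τ : Finset V) (i : ℕ) :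
    Submodule K (A → ι → K) := D.FS A (i + 1) τ ⊓ (D.FS A (i + 1) τ).comap (Og D G)

private theorem Bg_le_Kg {D : Dat K V ι n} {G : V → Matrix A A K}
    (hO : ∀ z : A → ι → K, Og D G (Og D G z) = D.c2 • z) (τ : Finset V) (i : ℕ) :
    Bg D G τ i ≤ Kg D G τ i := by
  intro z hz
  obtain ⟨p, hp, q, hq, rfl⟩ := mem_Bg.1 hz
  refine ⟨Submodule.add_mem _ (FS_mono D (Nat.le_succ i) τ hp) (FS_Og D G hq), ?_⟩
  rw [SetLike.mem_coe, Submodule.mem_comap, map_add, hO]
  exact Submodule.add_mem _ (FS_Og D G hp)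
    (Submodule.smul_mem _ _ (FS_mono D (Nat.le_succ i) τ hq))

private theorem VG_iff {D : Dat K V ι n} {G : V → Matrix A A K} (τ : Finset V) (i : ℕ) :
    VG D G τ i ↔ Kg D G τ i ≤ Bg D G τ i := by
  constructor
  · intro h z hz
    exact mem_Bg.2 (h z hz.1 (Submodule.mem_comap.1 hz.2))
  · intro h z h1 h2
    exact mem_Bg.1 (h ⟨h1, Submodule.mem_comap.2 h2⟩)

private theorem finrank_Kg {D : Dat K V ι n} (hD : OkA D) (G : V → Matrix A A K) {i : ℕ}
    {τ : Finset V} (h : i + τ.card ≤ D.d) :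
    Module.finrank K (Bg D G τ (i + 1)) + Module.finrank K (Kg D G τ i) =
      2 * (Fintype.card A * D.Hn (i + 1) τ) := by
  classical
  have hM : Module.finrank K (D.FS A (i + 1) τ) = Fintype.card A * D.Hn (i + 1) τ :=
    finrank_FS hD (by omega)
  let M : Submodule K (A → ι → K) := D.FS A (i + 1) τ
  let T : (M × M) →ₗ[K] (A → ι → K) :=
    LinearMap.coprod M.subtype ((Og D G).comp M.subtype)
  have hT : ∀ x : M × M, T x = x.1.1 + Og D G x.2.1 := fun _ => rfl
  have hr : LinearMap.range T = Bg D G τ (i + 1) := by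
    ext z
    rw [mem_Bg, LinearMap.mem_range]
    constructor
    · rintro ⟨x, rfl⟩
      exact ⟨x.1.1, x.1.2, x.2.1, x.2.2, hT x⟩
    · rintro ⟨p, hp, q, hq, rfl⟩
      exact ⟨(⟨p, hp⟩, ⟨q, hq⟩), hT _⟩
  let φ : LinearMap.ker T →ₗ[K] (A → ι → K) :=
    (M.subtype.comp (LinearMap.snd K M M)).comp (LinearMap.ker T).subtype
  have hφ : ∀ x : LinearMap.ker T, φ x = x.1.2.1 := fun _ => rfl
  have hinj : Function.Injective φ := by
    rw [injective_iff_map_eq_zero]
    intro x hx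
    rw [hφ] at hx
    have h1 : T x.1 = 0 := LinearMap.mem_ker.1 x.2
    rw [hT, hx, map_zero, add_zero] at h1
    apply Subtype.ext
    exact Prod.ext (Subtype.ext h1) (Subtype.ext hx)
  have hrφ : LinearMap.range φ = Kg D G τ i := by
    ext z
    rw [LinearMap.mem_range]
    constructor
    · rintro ⟨x, rfl⟩
      rw [hφ]
      refine ⟨x.1.2.2, ?_⟩
      have h1 : T x.1 = 0 := LinearMap.mem_ker.1 x.2
      rw [hT] at h1
      rw [SetLike.mem_coe, Submodule.mem_comap, eq_neg_of_add_eq_zero_right h1]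
      exact Submodule.neg_mem _ x.1.1.2
    · rintro ⟨h1, h2⟩
      have h2' : Og D G z ∈ D.FS A (i + 1) τ := h2
      have h3 : T (⟨-Og D G z, Submodule.neg_mem _ h2'⟩, ⟨z, h1⟩) = 0 := by
        rw [hT]
        exact neg_add_cancel _
      exact ⟨⟨_, LinearMap.mem_ker.2 h3⟩, rfl⟩
  have h1 := LinearMap.finrank_range_add_finrank_ker T
  have h2 := LinearMap.finrank_range_of_inj hinj
  rw [hrφ] at h2
  rw [hr, ← h2, Module.finrank_prod] at h1
  have h3 : Module.finrank K M = Fintype.card A * D.Hn (i + 1) τ := hM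
  rw [h1, h3]
  ring

theorem finrank_Bg {D : Dat K V ι n} (hD : OkA D) {G : V → Matrix A A K}
    (hO : ∀ z : A → ι → K, Og D G (Og D G z) = D.c2 • z) {i : ℕ} {τ : Finset V}
    (h : i + τ.card ≤ D.d) (hV : VG D G τ i) :
    Module.finrank K (Bg D G τ (i + 1)) + Module.finrank K (Bg D G τ i) =
      2 * (Fintype.card A * D.Hn (i + 1) τ) := by
  have h1 : Bg D G τ i = Kg D G τ i := le_antisymm (Bg_le_Kg hO τ i) ((VG_iff τ i).1 hV)
  rw [h1]
  exact finrank_Kg hD G h

theorem VG_of_finrank {D : Dat K V ι n} (hD : OkA D) {G : V → Matrix A A K}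
    (hO : ∀ z : A → ι → K, Og D G (Og D G z) = D.c2 • z) {i : ℕ} {τ : Finset V}
    (h : i + τ.card ≤ D.d)
    (hle : 2 * (Fintype.card A * D.Hn (i + 1) τ) ≤
      Module.finrank K (Bg D G τ (i + 1)) + Module.finrank K (Bg D G τ i)) : VG D G τ i := by
  have h1 := finrank_Kg hD G h
  have h2 : Module.finrank K (Kg D G τ i) ≤ Module.finrank K (Bg D G τ i) := by omega
  have h3 := Submodule.eq_of_le_of_finrank_le (Bg_le_Kg hO τ i) h2
  exact (VG_iff τ i).2 h3.symm.le

end Pool.Agent.Helper82.TI2
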