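import Pool.Agent.Helper82.TI2.Defs

/-!
# Project TI, second part: orthogonality (as in TI/Basic.lean)
-/

open Finset

namespace Pool.Agent.Helper82.TI2

open Pool.Agent.Helper82.TI

variable {K V ι n A : Type} [Field K] [LinearOrder K] [IsStrictOrderedRing K] [DecidableEq V]
  [Fintype V] [Fintype ι] [Fintype n] [Fintype A] [DecidableEq A]

omit [LinearOrder K] [IsStrictOrderedRing K] [DecidableEq V] [Fintype V] [Fintype ι]
  [Fintype n] in
private theorem mono_cons (D : Dat K V ι n) (v : V) (μ : Multiset V) (f : ι) :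
    D.mono (v ::ₘ μ) f = D.X v f * D.mono μ f := by
  simp only [Dat.mono, Multiset.map_cons, Multiset.prod_cons]

omit [LinearOrder K] [IsStrictOrderedRing K] [DecidableEq V] [Fintype V] [Fintype ι]
  [Fintype n] in
private theorem mono_add (D : Dat K V ι n) (μ μ' : Multiset V) (f : ι) :
    D.mono (μ + μ') f = D.mono μ f * D.mono μ' f := by
  simp only [Dat.mono, Multiset.map_add, Multiset.prod_add]

omit [LinearOrder K] [IsStrictOrderedRing K] [DecidableEq V] [Fintype V] [Fintype ι]
  [Fintype n] in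
private theorem Xp_eq (D : Dat K V ι n) (τ : Finset V) (f : ι) :
    D.Xp τ f = D.mono τ.val f := rfl

/-- Induction over the generators. -/
private theorem Fs_ind (D : Dat K V ι n) {i : ℕ} {τ : Finset V} (P : (ι → K) → Prop)
    (h0 : P (fun _ => 0)) (hadd : ∀ g g', P g → P g' → P (fun f => g f + g' f))
    (hsmul : ∀ (r : K) g, P g → P (fun f => r * g f))
    (hgen : ∀ μ : Multiset V, Multiset.card μ < i →
      P (fun f => if τ ⊆ D.fac f then D.mono μ f else 0)) {g : ι → K} (hg : g ∈ D.Fs i τ) :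
    P g := by
  refine Submodule.span_induction (p := fun g _ => P g) ?_ h0 (fun g g' _ _ h h' => hadd g g' h h')
    (fun r g _ h => hsmul r g h) hg
  rintro g ⟨μ, hμ, rfl⟩
  exact hgen μ hμ

theorem Fs_pairA {D : Dat K V ι n} (hD : OkA D) {i j : ℕ} {τ : Finset V}
    (h : i + j + τ.card ≤ D.d + 1) {g g' : ι → K} (hg : g ∈ D.Fs i τ) (hg' : g' ∈ D.Fs j τ) :
    ∑ f, D.w f * D.Xp τ f * (g f * g' f) = 0 := by
  refine Fs_ind D (fun g => ∑ f, D.w f * D.Xp τ f * (g f * g' f) = 0) ?_ ?_ ?_ ?_ hg
  · simp only [zero_mul, mul_zero, Finset.sum_const_zero]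
  · intro g1 g2 h1 h2
    simp only [add_mul, mul_add, Finset.sum_add_distrib, h1, h2, add_zero]
  · intro r g1 h1
    have : ∀ f, D.w f * D.Xp τ f * (r * g1 f * g' f) =
        r * (D.w f * D.Xp τ f * (g1 f * g' f)) := fun f => by ring
    simp only [this, ← Finset.mul_sum, h1, mul_zero]
  · intro μ hμ
    refine Fs_ind D (fun g' => ∑ f, D.w f * D.Xp τ f *
      ((if τ ⊆ D.fac f then D.mono μ f else 0) * g' f) = 0) ?_ ?_ ?_ ?_ hg'
    · simp only [mul_zero, Finset.sum_const_zero]
    · intro g1 g2 h1 h2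
      simp only [mul_add, Finset.sum_add_distrib, h1, h2, add_zero]
    · intro r g1 h1
      have : ∀ f, D.w f * D.Xp τ f * ((if τ ⊆ D.fac f then D.mono μ f else 0) * (r * g1 f)) =
          r * (D.w f * D.Xp τ f * ((if τ ⊆ D.fac f then D.mono μ f else 0) * g1 f)) :=
        fun f => by ring
      simp only [this, ← Finset.mul_sum, h1, mul_zero]
    · intro μ' hμ'
      have key : ∀ f, D.w f * D.Xp τ f * ((if τ ⊆ D.fac f then D.mono μ f else 0) *
          (if τ ⊆ D.fac f then D.mono μ' f else 0)) = D.w f * D.mono (τ.val + μ + μ') f := by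
        intro f
        rw [mono_add, mono_add, ← Xp_eq]
        by_cases hf : τ ⊆ D.fac f
        · rw [if_pos hf, if_pos hf]
          ring
        · have hz : D.Xp τ f = 0 := by
            obtain ⟨v, hv, hvf⟩ := Finset.not_subset.mp hf
            refine Finset.prod_eq_zero hv ?_
            by_contra hne
            exact hvf ((hD.X_ne v f).mp hne)
          rw [if_neg hf, if_neg hf, hz]
          ring
      simp only [key]
      refine hD.loc _ ?_
      rw [Multiset.card_add, Multiset.card_add]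
      have : Multiset.card τ.val = τ.card := rfl
      omega

theorem W_zeroA {D : Dat K V ι n} (hD : OkA D) {i j : ℕ} {τ : Finset V}
    (h : i + j + τ.card ≤ D.d + 1) {z z' : A → ι → K} (hz : z ∈ D.FS A i τ)
    (hz' : z' ∈ D.FS A j τ) : D.W τ z z' = 0 := by
  rw [Dat.FS, Submodule.mem_pi] at hz hz'
  rw [Dat.W]
  simp only [Finset.mul_sum]
  rw [Finset.sum_comm]
  exact Finset.sum_eq_zero (fun a ha =>
    Fs_pairA hD h (hz a (Set.mem_univ a)) (hz' a (Set.mem_univ a)))


end Pool.Agent.Helper82.TI2
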