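import Pool.Agent.Helper82.TI.Cliff

/-!
# Project TI, second part: Clifford matrices of both signs

PROOF of exists_cl2: apply exists_cl to the index type n ⊕ (m × Fin 3) and put γ i = g (inl i),
β b = g (inr (b,0)) * g (inr (b,1)) * g (inr (b,2)) (matrix products). For three anticommuting symmetric
matrices g0, g1, g2 of square one: (g0 g1 g2)ᵀ = g2 g1 g0 = - g0 g1 g2, (g0 g1 g2)² = -1, and a product
of three anticommutes with every other generator (three swaps) and with the product of three other
generators (nine swaps). Pass between the entrywise form of Cl and matrix products by Matrix.ext and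
Matrix.mul_apply.
-/

open Finset

namespace Pool.Agent.Helper82.TI2

open Pool.Agent.Helper82.TI

/-- Clifford matrices: the `γ i` are symmetric with square one, the `β b` are antisymmetric with
square minus one, all of them anticommute. -/
structure Cl2 {K n m A : Type} [Field K] [Fintype A] [DecidableEq A] [DecidableEq n]
    [DecidableEq m] (γ : n → Matrix A A K) (β : m → Matrix A A K) : Prop where
  gsymm : ∀ i, (γ i).transpose = γ i
  bsymm : ∀ b, (β b).transpose = - β b
  gg : ∀ i j, γ i * γ j + γ j * γ i = if i = j then (2 : K) • (1 : Matrix A A K) else 0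
  bb : ∀ b c, β b * β c + β c * β b = if b = c then (-2 : K) • (1 : Matrix A A K) else 0
  gb : ∀ i b, γ i * β b + β b * γ i = 0

private theorem anti_mul3 {R : Type} [Ring R] {w x y z : R} (hx : w * x = -(x * w))
    (hy : w * y = -(y * w)) (hz : w * z = -(z * w)) : w * (x * y * z) = -(x * y * z * w) := by
  calc w * (x * y * z) = (w * x) * (y * z) := by simp only [mul_assoc]
    _ = -(x * ((w * y) * z)) := by rw [hx]; simp only [mul_assoc, neg_mul]
    _ = x * (y * (w * z)) := by rw [hy]; simp only [mul_assoc, neg_mul, mul_neg, neg_neg]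
    _ = -(x * y * z * w) := by rw [hz]; simp only [mul_assoc, mul_neg]

private theorem sq_mul3 {R : Type} [Ring R] {x y z : R} (hx : x * x = 1) (hy : y * y = 1)
    (hz : z * z = 1) (hyx : y * x = -(x * y)) (hzx : z * x = -(x * z)) (hzy : z * y = -(y * z)) :
    (x * y * z) * (x * y * z) = -1 := by
  calc (x * y * z) * (x * y * z) = x * (y * ((z * x) * (y * z))) := by simp only [mul_assoc]
    _ = -(x * (y * (x * ((z * y) * z)))) := by
        rw [hzx]; simp only [mul_assoc, neg_mul, mul_neg]
    _ = x * ((y * x) * (y * (z * z))) := by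
        rw [hzy]; simp only [mul_assoc, neg_mul, mul_neg, neg_neg]
    _ = -(x * (x * (y * (y * (z * z))))) := by
        rw [hyx]; simp only [mul_assoc, neg_mul, mul_neg]
    _ = -1 := by rw [hz, mul_one, hy, mul_one, hx]

private theorem rev_mul3 {R : Type} [Ring R] {x y z : R}
    (hyx : y * x = -(x * y)) (hzx : z * x = -(x * z)) (hzy : z * y = -(y * z)) :
    z * (y * x) = -(x * y * z) := by
  calc z * (y * x) = -((z * x) * y) := by rw [hyx]; simp only [mul_assoc, mul_neg]
    _ = x * (z * y) := by rw [hzx]; simp only [mul_assoc, neg_mul, neg_neg]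
    _ = -(x * y * z) := by rw [hzy]; simp only [mul_assoc, mul_neg]

theorem exists_cl2 (K n m : Type) [Field K] [Fintype n] [DecidableEq n] [Fintype m]
    [DecidableEq m] :
    ∃ (A : Type) (_ : Fintype A) (_ : DecidableEq A) (_ : Nonempty A) (γ : n → Matrix A A K)
      (β : m → Matrix A A K), Cl2 γ β := by
  obtain ⟨A, hA1, hA2, hA3, G, hG⟩ := exists_cl K (n ⊕ (m × Fin 3))
  have hT : ∀ j, (G j).transpose = G j := by
    intro j
    ext a b
    rw [Matrix.transpose_apply]
    exact hG.symm j b a
  have hS : ∀ j, G j * G j = 1 := by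
    intro j
    ext a b
    rw [Matrix.mul_apply, Matrix.one_apply]
    exact hG.sq j a b
  have hN : ∀ i j, i ≠ j → G i * G j = -(G j * G i) := by
    intro i j hij
    ext a b
    rw [Matrix.neg_apply, Matrix.mul_apply, Matrix.mul_apply]
    exact hG.anti i j hij a b
  have hx : ∀ (b : m) (p q : Fin 3), p ≠ q →
      G (Sum.inr (b, p)) * G (Sum.inr (b, q)) = -(G (Sum.inr (b, q)) * G (Sum.inr (b, p))) := by
    intro b p q hpq
    refine hN _ _ (fun h => hpq ?_)
    have h1 := Sum.inr.inj h
    exact congrArg Prod.snd h1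
  have hw : ∀ (w : Matrix A A K) (b : m),
      (∀ p : Fin 3, w * G (Sum.inr (b, p)) = -(G (Sum.inr (b, p)) * w)) →
      w * (G (Sum.inr (b, 0)) * G (Sum.inr (b, 1)) * G (Sum.inr (b, 2))) =
        -(G (Sum.inr (b, 0)) * G (Sum.inr (b, 1)) * G (Sum.inr (b, 2)) * w) :=
    fun w b h => anti_mul3 (h 0) (h 1) (h 2)
  refine ⟨A, hA1, hA2, hA3, fun i => G (Sum.inl i),
    fun b => G (Sum.inr (b, 0)) * G (Sum.inr (b, 1)) * G (Sum.inr (b, 2)), ?_, ?_, ?_, ?_, ?_⟩
  · intro i
    exact hT _
  · intro b
    show (G (Sum.inr (b, 0)) * G (Sum.inr (b, 1)) * G (Sum.inr (b, 2))).transpose = _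
    rw [Matrix.transpose_mul, Matrix.transpose_mul, hT, hT, hT]
    exact rev_mul3 (hx b 1 0 (by decide)) (hx b 2 0 (by decide)) (hx b 2 1 (by decide))
  · intro i j
    show G (Sum.inl i) * G (Sum.inl j) + G (Sum.inl j) * G (Sum.inl i) = _
    by_cases hij : i = j
    · subst hij
      rw [if_pos rfl, hS, two_smul]
    · rw [if_neg hij, hN (Sum.inl i) (Sum.inl j) (fun h => hij (Sum.inl.inj h)), neg_add_cancel]
  · intro b c
    show (G (Sum.inr (b, 0)) * G (Sum.inr (b, 1)) * G (Sum.inr (b, 2))) *
        (G (Sum.inr (c, 0)) * G (Sum.inr (c, 1)) * G (Sum.inr (c, 2))) +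
        (G (Sum.inr (c, 0)) * G (Sum.inr (c, 1)) * G (Sum.inr (c, 2))) *
        (G (Sum.inr (b, 0)) * G (Sum.inr (b, 1)) * G (Sum.inr (b, 2))) = _
    by_cases hbc : b = c
    · subst hbc
      rw [if_pos rfl, sq_mul3 (hS _) (hS _) (hS _) (hx b 1 0 (by decide)) (hx b 2 0 (by decide))
        (hx b 2 1 (by decide)), neg_smul, two_smul, neg_add]
    · rw [if_neg hbc]
      have h1 : ∀ p : Fin 3,
          (G (Sum.inr (b, 0)) * G (Sum.inr (b, 1)) * G (Sum.inr (b, 2))) * G (Sum.inr (c, p)) =
            -(G (Sum.inr (c, p)) *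
              (G (Sum.inr (b, 0)) * G (Sum.inr (b, 1)) * G (Sum.inr (b, 2)))) := by
        intro p
        have h2 := hw (G (Sum.inr (c, p))) b (fun q => by
          refine hN _ _ (fun h => hbc ?_)
          have h3 := Sum.inr.inj h
          exact (congrArg Prod.fst h3).symm)
        rw [h2, neg_neg]
      rw [hw _ c h1, neg_add_cancel]
  · intro i b
    show G (Sum.inl i) * (G (Sum.inr (b, 0)) * G (Sum.inr (b, 1)) * G (Sum.inr (b, 2))) +
        (G (Sum.inr (b, 0)) * G (Sum.inr (b, 1)) * G (Sum.inr (b, 2))) * G (Sum.inl i) = 0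
    rw [hw (G (Sum.inl i)) b (fun p => hN _ _ (fun h => by cases h)), neg_add_cancel]

/-- Changing the sign of the `β b`. -/
theorem Cl2.neg {K n m A : Type} [Field K] [Fintype A] [DecidableEq A] [DecidableEq n]
    [DecidableEq m] {γ : n → Matrix A A K} {β : m → Matrix A A K} (h : Cl2 γ β) :
    Cl2 γ (fun b => - β b) := by
  refine ⟨h.gsymm, ?_, h.gg, ?_, ?_⟩
  · intro b
    show (- β b).transpose = - - β b
    rw [Matrix.transpose_neg, h.bsymm]
  · intro b c
    show (- β b) * (- β c) + (- β c) * (- β b) = _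
    rw [neg_mul_neg, neg_mul_neg]
    exact h.bb b c
  · intro i b
    show γ i * (- β b) + (- β b) * γ i = 0
    rw [mul_neg, neg_mul, ← neg_add, h.gb i b, neg_zero]

/-- The matrices of a subfamily. -/
theorem Cl2.cl {K n m n' A : Type} [Field K] [Fintype A] [DecidableEq A] [DecidableEq n]
    [DecidableEq m] [Fintype n'] {γ : n → Matrix A A K} {β : m → Matrix A A K} (h : Cl2 γ β)
    (h2 : (2 : K) ≠ 0) {e : n' → n} (he : Function.Injective e) : Cl (fun i => γ (e i)) := by
  refine ⟨?_, ?_, ?_⟩
  · intro j a b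
    exact congrFun (congrFun (h.gsymm (e j)) b) a
  · intro j a b
    have h1 := congrFun (congrFun (h.gg (e j) (e j)) a) b
    rw [if_pos rfl, Matrix.add_apply, Matrix.smul_apply, Matrix.one_apply, smul_eq_mul,
      ← two_mul] at h1
    have h3 := mul_left_cancel₀ h2 h1
    rw [Matrix.mul_apply] at h3
    exact h3
  · intro i j hij a b
    have h1 := congrFun (congrFun (h.gg (e i) (e j)) a) b
    rw [if_neg (fun h3 => hij (he h3)), Matrix.add_apply, Matrix.mul_apply, Matrix.mul_apply,
      Matrix.zero_apply] at h1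
    exact eq_neg_of_add_eq_zero_left h1

end Pool.Agent.Helper82.TI2
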