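import Pool.Agent.Helper82.TI2.Defs

/-!
# Project TI, second part: the alternating sum (as in TI/Count.lean)
-/

open Finset

namespace Pool.Agent.Helper82.TI2

open Pool.Agent.Helper82.TI

variable {K V ι n A : Type} [Field K] [LinearOrder K] [IsStrictOrderedRing K] [DecidableEq V]
  [Fintype V] [Fintype ι] [Fintype n] [Fintype A] [DecidableEq A]

/-- The identity for sequences of integers. -/
private theorem alt_sum (l : ℕ) (u b : ℕ → ℤ) (N : ℤ) (hu0 : u 0 = 0)
    (hs : ∀ i j : ℕ, i + j = 2 * l + 1 → u i + u j = N) (h0 : b 0 = 0)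
    (hb : ∀ j < l, b (j + 1) + b j = 2 * u (j + 1)) :
    (-1) ^ l * ∑ j ∈ range (2 * l + 1), (-1) ^ j * (u (j + 1) - u j) = N - 2 * b l := by
  have hP : ∀ m ≤ l, ∑ j ∈ range m, (-1) ^ j * (u (j + 1) - u j) = -(-1) ^ m * (b m - u m) := by
    intro m
    induction m with
    | zero =>
      intro _
      simp [h0, hu0]
    | succ m ih =>
      intro hm
      rw [sum_range_succ, ih (by omega)]
      have h1 := hb m (by omega)
      have h2 : b (m + 1) = 2 * u (m + 1) - b m := by linarith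
      rw [h2]
      ring
  have hS : ∑ j ∈ range (2 * l + 1), (-1) ^ j * (u (j + 1) - u j) =
      2 * ∑ j ∈ range l, (-1) ^ j * (u (j + 1) - u j) + (-1) ^ l * (u (l + 1) - u l) := by
    have h1 : 2 * l + 1 = (l + 1) + l := by ring
    rw [h1, sum_range_add, sum_range_succ]
    have h2 : ∑ x ∈ range l, (-1) ^ (l + 1 + x) * (u (l + 1 + x + 1) - u (l + 1 + x)) =
        ∑ j ∈ range l, (-1) ^ j * (u (j + 1) - u j) := by
      rw [← sum_range_reflect]
      refine sum_congr rfl fun i hi => ?_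
      have hi' := mem_range.1 hi
      have h3 := hs (l + 1 + (l - 1 - i)) (i + 1) (by omega)
      have h4 := hs (l + 1 + (l - 1 - i) + 1) i (by omega)
      have h5 : ((-1 : ℤ)) ^ (l + 1 + (l - 1 - i)) = (-1) ^ i := by
        have h6 : l + 1 + (l - 1 - i) + i = 2 * l := by omega
        have h7 : ((-1 : ℤ)) ^ (l + 1 + (l - 1 - i)) * (-1) ^ i = 1 := by
          rw [← pow_add, h6, pow_mul]
          norm_num
        have h8 : ((-1 : ℤ)) ^ i * (-1) ^ i = 1 := by
          rw [← mul_pow]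
          norm_num
        calc ((-1 : ℤ)) ^ (l + 1 + (l - 1 - i))
            = (-1) ^ (l + 1 + (l - 1 - i)) * ((-1) ^ i * (-1) ^ i) := by rw [h8, mul_one]
          _ = ((-1) ^ (l + 1 + (l - 1 - i)) * (-1) ^ i) * (-1) ^ i := by ring
          _ = (-1) ^ i := by rw [h7, one_mul]
      rw [h5]
      have h9 : u (l + 1 + (l - 1 - i) + 1) - u (l + 1 + (l - 1 - i)) = u (i + 1) - u i := by
        linarith
      rw [h9]
    rw [h2]
    ring
  have h1 := hs (l + 1) l (by ring)
  have h2 : ((-1 : ℤ)) ^ l * (-1) ^ l = 1 := by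
    rw [← mul_pow]
    norm_num
  rw [hS, hP l le_rfl]
  have h3 : u (l + 1) = N - u l := by linarith
  rw [h3]
  calc (-1) ^ l * (2 * (-(-1) ^ l * (b l - u l)) + (-1) ^ l * (N - u l - u l))
      = ((-1) ^ l * (-1) ^ l) * (N - 2 * b l) := by ring
    _ = N - 2 * b l := by rw [h2, one_mul]

theorem sgn_eqA {D : Dat K V ι n} (hD : OkA D) {l : ℕ} {τ : Finset V} (h : 2 * l + τ.card = D.d)
    (hs : ∀ i j : ℕ, i + j + τ.card = D.d + 1 → D.Hn i τ + D.Hn j τ = D.Nn τ)
    (b : ℕ → ℤ) (h0 : b 0 = 0) (hb : ∀ j < l, b (j + 1) + b j = 2 * D.Hn (j + 1) τ) :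
    (-1) ^ l * ∑ f ∈ univ.filter (fun f => τ ⊆ D.fac f), (-1 : ℤ) ^ (D.R f \ τ).card =
      D.Nn τ - 2 * b l := by
  classical
  have hmap : ∀ f ∈ univ.filter (fun f => τ ⊆ D.fac f), (D.R f \ τ).card ∈ range (2 * l + 1) := by
    intro f hf
    have hf' : τ ⊆ D.fac f := (mem_filter.1 hf).2
    rw [mem_range]
    have h1 : (D.R f \ τ).card ≤ (D.fac f \ τ).card :=
      card_le_card (sdiff_subset_sdiff (hD.R_sub f) (Subset.refl _))
    have h2 := card_sdiff_add_card_eq_card hf'
    have h3 := hD.card f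
    omega
  have hcard : ∀ j, ((((univ.filter (fun f => τ ⊆ D.fac f)).filter
      (fun f => (D.R f \ τ).card = j)).card : ℕ) : ℤ) = D.Hn (j + 1) τ - D.Hn j τ := by
    intro j
    have h1 : D.Hn (j + 1) τ = D.Hn j τ + ((univ.filter (fun f => τ ⊆ D.fac f)).filter
        (fun f => (D.R f \ τ).card = j)).card := by
      unfold Dat.Hn
      rw [← card_union_of_disjoint]
      · congr 1
        ext f
        simp only [mem_filter, mem_union, mem_univ, true_and]
        constructor
        · rintro ⟨h2, h3⟩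
          rcases Nat.lt_succ_iff_lt_or_eq.1 h3 with h4 | h4
          · exact Or.inl ⟨h2, h4⟩
          · exact Or.inr ⟨h2, h4⟩
        · rintro (⟨h2, h3⟩ | ⟨h2, h3⟩)
          · exact ⟨h2, by omega⟩
          · exact ⟨h2, by omega⟩
      · rw [disjoint_left]
        intro f hf hf'
        have h2 := (mem_filter.1 hf).2.2
        have h3 := (mem_filter.1 hf').2
        omega
    rw [h1]
    push_cast
    ring
  have hsum : ∑ f ∈ univ.filter (fun f => τ ⊆ D.fac f), (-1 : ℤ) ^ (D.R f \ τ).card =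
      ∑ j ∈ range (2 * l + 1), (-1) ^ j * ((D.Hn (j + 1) τ : ℤ) - D.Hn j τ) := by
    rw [← sum_fiberwise_of_maps_to hmap]
    refine sum_congr rfl fun j _ => ?_
    rw [← hcard j]
    have h1 : ∀ f ∈ (univ.filter (fun f => τ ⊆ D.fac f)).filter
        (fun f => (D.R f \ τ).card = j), (-1 : ℤ) ^ (D.R f \ τ).card = (-1) ^ j := by
      intro f hf
      rw [(mem_filter.1 hf).2]
    rw [sum_congr rfl h1, sum_const, nsmul_eq_mul, mul_comm]
  rw [hsum]
  refine alt_sum l (fun j => (D.Hn j τ : ℤ)) b (D.Nn τ) ?_ ?_ h0 hb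
  · simp [Dat.Hn]
  · intro i j hij
    have h1 := hs i j (by omega)
    exact_mod_cast h1

end Pool.Agent.Helper82.TI2
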