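import Pool.Agent.Helper82.TI.Cech

/-!
# Project TI, second part: general operators, no signs
-/

open Finset

namespace Pool.Agent.Helper82.TI2

open Pool.Agent.Helper82.TI

variable {K V ι n A : Type} [Field K] [LinearOrder K] [IsStrictOrderedRing K] [DecidableEq V]
  [Fintype V] [Fintype ι] [Fintype n] [Fintype A] [DecidableEq A]

/-- The algebraic properties of the data (no signs, no Euclidean vectors). -/
structure OkA (D : Dat K V ι n) : Prop where
  card : ∀ f, (D.fac f).card = D.d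
  X_ne : ∀ v f, D.X v f ≠ 0 ↔ v ∈ D.fac f
  w_ne : ∀ f, D.w f ≠ 0
  loc : ∀ μ : Multiset V, Multiset.card μ < D.d → ∑ f, D.w f * D.mono μ f = 0
  rk_inj : Function.Injective D.rk
  R_sub : ∀ f, D.R f ⊆ D.fac f
  R_le : ∀ f g, D.R f ⊆ D.fac g → D.rk f ≤ D.rk g
  C_le : ∀ f g, D.fac f \ D.R f ⊆ D.fac g → D.rk g ≤ D.rk f

/-- The operator given by a matrix for every vertex. -/
def Og (D : Dat K V ι n) (G : V → Matrix A A K) : (A → ι → K) →ₗ[K] (A → ι → K) where
  toFun z := fun a f => ∑ v, D.X v f * ∑ b, G v a b * z b f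
  map_add' := by
    intro z z'
    funext a f
    simp only [Pi.add_apply, mul_add, Finset.sum_add_distrib]
  map_smul' := by
    intro r z
    funext a f
    simp only [Pi.smul_apply, smul_eq_mul, RingHom.id_apply, Finset.mul_sum]
    refine Finset.sum_congr rfl (fun j _ => Finset.sum_congr rfl (fun b _ => ?_))
    ring

/-- Exactness at the face `τ` in degree `i`. -/
def VG (D : Dat K V ι n) (G : V → Matrix A A K) (τ : Finset V) (i : ℕ) : Prop :=
  ∀ z ∈ D.FS A (i + 1) τ, Og D G z ∈ D.FS A (i + 1) τ →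
    ∃ p ∈ D.FS A i τ, ∃ q ∈ D.FS A i τ, z = p + Og D G q

/-- The space of the `p + Og q`. -/
def Bg (D : Dat K V ι n) (G : V → Matrix A A K) (τ : Finset V) (i : ℕ) :
    Submodule K (A → ι → K) := D.FS A i τ ⊔ (D.FS A i τ).map (Og D G)

end Pool.Agent.Helper82.TI2
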