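import Mathlib

/-!
# Project TI, second part: polynomial functions and lower semicontinuity of ranks

PROOFS. IsP: closure properties by adding, multiplying the polynomials (det: Matrix.det_apply, or
RingHom.map_det for MvPolynomial.eval). EXISTS_NONZERO: the product of the polynomials is nonzero
(each one is nonzero because it has a nonzero value; MvPolynomial over a field is a domain), and a
nonzero polynomial over an infinite field has a nonzero value (MvPolynomial.funext).
OPEN_RANK: let r be the dimension of the span at s0. Choose θ_1, ..., θ_r with u θ_i s0 linearly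
independent (a basis of the span extracted from the spanning set: exists_linearIndependent or
Submodule.exists_fun_fin_finrank_span_eq / Module.Basis.ofSpan). Their matrix (r rows, columns the
pairs (a, f)) has independent rows, so there are r columns with nonzero minor at s0. The minor as a
function of s is polynomial (hu): this is g. If g(s) ≠ 0 then u θ_i s are independent, so the span at s
has dimension at least r. (An independent family of r vectors in B → K, B finite: there are r
coordinates on which it is still independent, e.g. by Matrix.rank of the transpose = rank and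
exists_linearIndependent for the columns.)
-/

open Finset

namespace Pool.Agent.Helper82.TI2

variable {K σ : Type} [Field K]

/-- A polynomial function. -/
def IsP (f : (σ → K) → K) : Prop := ∃ P : MvPolynomial σ K, ∀ s, f s = MvPolynomial.eval s P

theorem IsP.const (c : K) : IsP (fun _ : σ → K => c) :=
  ⟨MvPolynomial.C c, fun _ => (MvPolynomial.eval_C c).symm⟩

theorem IsP.coord (j : σ) : IsP (fun s : σ → K => s j) :=
  ⟨MvPolynomial.X j, fun _ => (MvPolynomial.eval_X j).symm⟩

theorem IsP.add {f g : (σ → K) → K} (hf : IsP f) (hg : IsP g) : IsP (fun s => f s + g s) := by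
  obtain ⟨P, hP⟩ := hf
  obtain ⟨Q, hQ⟩ := hg
  exact ⟨P + Q, fun s => by rw [map_add, ← hP, ← hQ]⟩

theorem IsP.mul {f g : (σ → K) → K} (hf : IsP f) (hg : IsP g) : IsP (fun s => f s * g s) := by
  obtain ⟨P, hP⟩ := hf
  obtain ⟨Q, hQ⟩ := hg
  exact ⟨P * Q, fun s => by rw [map_mul, ← hP, ← hQ]⟩

theorem IsP.neg {f : (σ → K) → K} (hf : IsP f) : IsP (fun s => - f s) := by
  obtain ⟨P, hP⟩ := hf
  exact ⟨-P, fun s => by rw [map_neg, ← hP]⟩

theorem IsP.sum {α : Type} (t : Finset α) {f : α → (σ → K) → K} (hf : ∀ a ∈ t, IsP (f a)) :
    IsP (fun s => ∑ a ∈ t, f a s) := by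
  classical
  induction t using Finset.induction_on with
  | empty =>
    simp only [Finset.sum_empty]
    exact IsP.const 0
  | insert a t ha ih =>
    simp only [Finset.sum_insert ha]
    exact (hf a (Finset.mem_insert_self a t)).add
      (ih fun b hb => hf b (Finset.mem_insert_of_mem hb))

theorem IsP.prod {α : Type} (t : Finset α) {f : α → (σ → K) → K} (hf : ∀ a ∈ t, IsP (f a)) :
    IsP (fun s => ∏ a ∈ t, f a s) := by
  classical
  induction t using Finset.induction_on with
  | empty =>
    simp only [Finset.prod_empty]
    exact IsP.const 1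
  | insert a t ha ih =>
    simp only [Finset.prod_insert ha]
    exact (hf a (Finset.mem_insert_self a t)).mul
      (ih fun b hb => hf b (Finset.mem_insert_of_mem hb))

theorem IsP.mprod {α : Type} (μ : Multiset α) {f : α → (σ → K) → K} (hf : ∀ a, IsP (f a)) :
    IsP (fun s => (μ.map (fun a => f a s)).prod) := by
  induction μ using Multiset.induction_on with
  | empty =>
    simp only [Multiset.map_zero, Multiset.prod_zero]
    exact IsP.const 1
  | cons a μ ih =>
    simp only [Multiset.map_cons, Multiset.prod_cons]
    exact (hf a).mul ih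

theorem IsP.det {m : ℕ} {M : (σ → K) → Matrix (Fin m) (Fin m) K}
    (hM : ∀ i j, IsP (fun s => M s i j)) : IsP (fun s => (M s).det) := by
  choose P hP using hM
  refine ⟨(Matrix.of P).det, fun s => ?_⟩
  have h : M s = (MvPolynomial.eval s).mapMatrix (Matrix.of P) := by
    ext i j
    exact hP i j s
  rw [RingHom.map_det, ← h]

/-- Finitely many polynomial functions, each of which is somewhere nonzero, are simultaneously
nonzero at some point. -/
theorem exists_nonzero [Infinite K] [Finite σ] {α : Type} [Finite α]
    (f : α → (σ → K) → K) (hf : ∀ a, IsP (f a)) (h : ∀ a, ∃ s, f a s ≠ 0) :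
    ∃ s : σ → K, ∀ a, f a s ≠ 0 := by
  classical
  have _ := Fintype.ofFinite α
  choose P hP using hf
  have h1 : ∀ a, P a ≠ 0 := by
    intro a h2
    obtain ⟨s, hs⟩ := h a
    exact hs (by rw [hP, h2, map_zero])
  have h2 : ∏ a, P a ≠ 0 := Finset.prod_ne_zero_iff.2 fun a _ => h1 a
  have h3 : ∃ s, MvPolynomial.eval s (∏ a, P a) ≠ 0 := by
    by_contra h4
    push Not at h4
    exact h2 (MvPolynomial.funext fun s => by rw [h4 s, map_zero])
  obtain ⟨s, hs⟩ := h3
  refine ⟨s, fun a h4 => hs ?_⟩
  rw [map_prod]
  exact Finset.prod_eq_zero (Finset.mem_univ a) (by rw [← hP, h4])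

/-- Restriction to chosen coordinates. -/
private def coordMap {A ι κ : Type} (c : κ → A × ι) : (A → ι → K) →ₗ[K] (κ → K) where
  toFun g := fun j => g (c j).1 (c j).2
  map_add' _ _ := rfl
  map_smul' _ _ := rfl

/-- Lower semicontinuity of the dimension of a span. -/
theorem open_rank {Θ A ι : Type} [Fintype A] [Fintype ι] (u : Θ → (σ → K) → A → ι → K)
    (hu : ∀ θ a f, IsP (fun s => u θ s a f)) (s0 : σ → K) :
    ∃ g : (σ → K) → K, IsP g ∧ g s0 ≠ 0 ∧ ∀ s, g s ≠ 0 →
      Module.finrank K (Submodule.span K (Set.range (fun θ => u θ s0))) ≤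
        Module.finrank K (Submodule.span K (Set.range (fun θ => u θ s))) := by
  classical
  obtain ⟨v, hv, -, hvi⟩ :=
    Submodule.exists_fun_fin_finrank_span_eq K (Set.range (fun θ => u θ s0))
  generalize Module.finrank K (Submodule.span K (Set.range (fun θ => u θ s0))) = r at v hv hvi ⊢
  choose θ hθ using hv
  -- the matrix of all coordinates has independent rows
  have hker : LinearMap.ker (coordMap (K := K) (id : A × ι → A × ι)) = ⊥ := by
    rw [LinearMap.ker_eq_bot]
    intro x y hxy
    funext a i
    exact congrFun hxy (a, i)
  let M : Matrix (Fin r) (A × ι) K := fun i => coordMap (K := K) id (v i)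
  have hrow : LinearIndependent K M.row := hvi.map' _ hker
  have hrk : Module.finrank K (Submodule.span K (Set.range M.col)) = r := by
    rw [← Matrix.rank_eq_finrank_span_cols, hrow.rank_matrix, Fintype.card_fin]
  obtain ⟨f, hf, -, hfi⟩ := Submodule.exists_fun_fin_finrank_span_eq K (Set.range M.col)
  choose c hc using hf
  let e : Fin r ≃ Fin (Module.finrank K (Submodule.span K (Set.range M.col))) :=
    finCongr hrk.symm
  let N : (σ → K) → Matrix (Fin r) (Fin r) K :=
    fun s => Matrix.of fun i j => u (θ i) s (c (e j)).1 (c (e j)).2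
  refine ⟨fun s => (N s).det, IsP.det fun i j => hu _ _ _, ?_, ?_⟩
  · have h1 : LinearIndependent K (N s0).col := by
      have h2 : (N s0).col = f ∘ e := by
        funext j
        rw [Function.comp_apply, ← hc]
        funext i
        have h3 := congrFun (congrFun (hθ i) (c (e j)).1) (c (e j)).2
        exact h3
      rw [h2]
      exact hfi.comp e e.injective
    have h2 := (Matrix.isUnit_iff_isUnit_det _).1 (Matrix.linearIndependent_cols_iff_isUnit.1 h1)
    exact h2.ne_zero
  · intro s hs
    have h1 : LinearIndependent K (N s).row :=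
      Matrix.linearIndependent_rows_iff_isUnit.2
        ((Matrix.isUnit_iff_isUnit_det _).2 (isUnit_iff_ne_zero.2 hs))
    have h2 : LinearIndependent K (fun i => u (θ i) s) := by
      refine LinearIndependent.of_comp (coordMap (K := K) fun j => c (e j)) ?_
      exact h1
    have h3 := finrank_span_eq_card h2
    rw [Fintype.card_fin] at h3
    rw [← h3]
    refine Submodule.finrank_mono (Submodule.span_mono ?_)
    rintro _ ⟨i, rfl⟩
    exact ⟨θ i, rfl⟩

end Pool.Agent.Helper82.TI2
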