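import Pool.Agent.Helper82.TI.Fan.Part
import Pool.Agent.Helper82.TI2.Poly

/-!
# Project TI, second part: coordinates by determinants, orientations

`Mx p f` is the square matrix of the vectors p v, v ∈ f, for a set f with d elements (in the order of
a fixed enumeration of f).

PROOFS. DET_NE_IFF: det ≠ 0 iff the rows are linearly independent (Matrix.det_ne_zero_iff_... or
Matrix.linearIndependent_rows_iff_isUnit); a ↔ its values on the enumeration. CO_LC2, CO_UNIQUE2: as
co_lc, co_unique of Fan/Germ.lean (independent, d vectors in dimension d: a basis). CRAMER: c =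
∑_u (co p f c u) p u, the matrix with row v replaced by c has determinant co p f c v * det
(Matrix.det_updateRow_sum or multilinearity); the family (if u = v then c else p u) restricted to f
gives exactly this matrix. MX_ISP: IsP.det. EXISTS_OR: ε f = sign of det (Mx p0 f) for facets, as an
element of K (nonzero by lin for p0), 1 otherwise. Let f, v, w, g = insert w (f.erase v) be as in the
statement. The bijection f → g replacing v by w and the two enumerations give a permutation π of Fin d
with: for ALL p: Mx p g = (Mx p f with the row of v replaced by p w), rows permuted by π, so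
det (Mx p g) = sign π * det (Mx p f, row v replaced by p w) = sign π * a v * det (Mx p f) if
p w = lc p a, a supported on f (also if det (Mx p f) = 0). For p = p0: ridge (the facet g is the one of
ridge, since g ≠ f contains f.erase v) and co_unique give a0 v < 0 for p0 w = lc p0 a0, so
ε g * det (Mx p0 g) > 0, ε f * det (Mx p0 f) > 0 and ε g * det (Mx p0 g) = ε g * ε f⁻¹ * sign π * a0 v *
(ε f * det (Mx p0 f)) force ε g * ε f * sign π = -1 (ε = ±1). Then the formula for every p.
-/

open Finset

namespace Pool.Agent.Helper82.TI2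

open Pool.Agent.Helper82.TI Pool.Agent.Helper82.TI.Fan

variable {K V : Type} [Field K] [LinearOrder K] [IsStrictOrderedRing K] [Fintype V]
  [DecidableEq V] {d : ℕ} {G : SimpleGraph V}

/-- The matrix of the vectors of `f`. -/
noncomputable def Mx (p : V → Fin d → K) (f : Finset V) : Matrix (Fin d) (Fin d) K :=
  if h : f.card = d then Matrix.of (fun i j => p ((f.equivFinOfCardEq h).symm i) j) else 1

omit [LinearOrder K] [IsStrictOrderedRing K] [Fintype V] [DecidableEq V] in
private theorem Mx_row {f : Finset V} (hf : f.card = d) (p : V → Fin d → K) (i : Fin d) :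
    Mx p f i = p ((f.equivFinOfCardEq hf).symm i) := by
  unfold Mx
  rw [dif_pos hf]
  rfl

omit [LinearOrder K] [IsStrictOrderedRing K] [DecidableEq V] in
private theorem sum_row {f : Finset V} (hf : f.card = d) (p : V → Fin d → K) {a : V → K}
    (ha : ∀ v, v ∉ f → a v = 0) :
    ∑ i, a ((f.equivFinOfCardEq hf).symm i) • Mx p f i = lc p a := by
  funext j
  rw [Finset.sum_apply]
  simp only [Pi.smul_apply, smul_eq_mul, Mx_row hf, lc]
  rw [Equiv.sum_comp (f.equivFinOfCardEq hf).symm (fun x : f => a x * p x j),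
    Finset.sum_coe_sort f (fun v => a v * p v j)]
  exact Finset.sum_subset (Finset.subset_univ f) (fun v _ hv => by rw [ha v hv, zero_mul])

omit [LinearOrder K] [IsStrictOrderedRing K] [DecidableEq V] in
private theorem vecMul_row {f : Finset V} (hf : f.card = d) (p : V → Fin d → K) {a : V → K}
    (ha : ∀ v, v ∉ f → a v = 0) :
    Matrix.vecMul (fun i => a ((f.equivFinOfCardEq hf).symm i)) (Mx p f) = lc p a := by
  rw [← sum_row hf p ha]
  funext j
  simp [Matrix.vecMul, dotProduct]

/-- The function on `V` with given values on the enumeration of `f`. -/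
private noncomputable def ext0 {f : Finset V} (hf : f.card = d) (w : Fin d → K) : V → K :=
  fun v => if h : v ∈ f then w (f.equivFinOfCardEq hf ⟨v, h⟩) else 0

omit [LinearOrder K] [IsStrictOrderedRing K] [Fintype V] in
private theorem ext0_supp {f : Finset V} (hf : f.card = d) (w : Fin d → K) :
    ∀ v, v ∉ f → ext0 hf w v = 0 := fun v hv => by
  unfold ext0
  rw [dif_neg hv]

omit [LinearOrder K] [IsStrictOrderedRing K] [Fintype V] in
private theorem ext0_row {f : Finset V} (hf : f.card = d) (w : Fin d → K) (i : Fin d) :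
    ext0 hf w ((f.equivFinOfCardEq hf).symm i) = w i := by
  unfold ext0
  rw [dif_pos ((f.equivFinOfCardEq hf).symm i).2]
  exact congrArg w ((f.equivFinOfCardEq hf).apply_symm_apply i)

theorem det_ne_iff {f : Finset V} (hf : f.card = d) (p : V → Fin d → K) :
    (Mx p f).det ≠ 0 ↔ ∀ a : V → K, (∀ v, v ∉ f → a v = 0) → lc p a = 0 → a = 0 := by
  constructor
  · intro h a ha hl
    by_contra h1
    apply h
    rw [← Matrix.exists_vecMul_eq_zero_iff]
    refine ⟨fun i => a ((f.equivFinOfCardEq hf).symm i), fun h2 => h1 ?_, ?_⟩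
    · funext v
      by_cases hv : v ∈ f
      · have h3 := congrFun h2 (f.equivFinOfCardEq hf ⟨v, hv⟩)
        simpa using h3
      · exact ha v hv
    · rw [vecMul_row hf p ha, hl]
  · intro h h1
    rw [← Matrix.exists_vecMul_eq_zero_iff] at h1
    obtain ⟨w, hw, h2⟩ := h1
    apply hw
    have h3 := h (ext0 hf w) (ext0_supp hf w) (by
      rw [← vecMul_row hf p (ext0_supp hf w)]
      simp only [ext0_row]
      exact h2)
    funext i
    rw [← ext0_row hf w i, h3]
    rfl

theorem co_lc2 {f : Finset V} (hf : f.card = d) {p : V → Fin d → K} (h : (Mx p f).det ≠ 0)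
    (c : Fin d → K) : lc p (co p f c) = c := by
  have hex : ∃ a : V → K, (∀ v, v ∉ f → a v = 0) ∧ lc p a = c := by
    refine ⟨ext0 hf (Matrix.vecMul c (Mx p f)⁻¹), ext0_supp hf _, ?_⟩
    rw [← vecMul_row hf p (ext0_supp hf _)]
    simp only [ext0_row]
    rw [Matrix.vecMul_vecMul, Matrix.nonsing_inv_mul _ (isUnit_iff_ne_zero.2 h),
      Matrix.vecMul_one]
  unfold co
  rw [dif_pos hex]
  exact hex.choose_spec.2

theorem co_unique2 {f : Finset V} (hf : f.card = d) {p : V → Fin d → K} (h : (Mx p f).det ≠ 0)
    {a : V → K} (ha : ∀ v, v ∉ f → a v = 0) : co p f (lc p a) = a := by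
  have h1 := (det_ne_iff hf p).1 h (co p f (lc p a) - a) (fun v hv => by
    rw [Pi.sub_apply, co_supp p f _ hv, ha v hv, sub_zero]) (by
    have h2 : co p f (lc p a) - a = co p f (lc p a) + (-1 : K) • a := by
      rw [neg_one_smul, sub_eq_add_neg]
    rw [h2, lc_add, lc_smul, co_lc2 hf h, neg_one_smul, add_neg_cancel])
  exact sub_eq_zero.1 h1

omit [LinearOrder K] [IsStrictOrderedRing K] in
private theorem det_upd {f : Finset V} (hf : f.card = d) (p : V → Fin d → K) {a : V → K}
    (ha : ∀ u, u ∉ f → a u = 0) {v : V} (hv : v ∈ f) :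
    ((Mx p f).updateRow (f.equivFinOfCardEq hf ⟨v, hv⟩) (lc p a)).det
      = a v * (Mx p f).det := by
  rw [← sum_row hf p ha, Matrix.det_updateRow_sum, smul_eq_mul, Equiv.symm_apply_apply]

theorem cramer {f : Finset V} (hf : f.card = d) {p : V → Fin d → K} (h : (Mx p f).det ≠ 0)
    (c : Fin d → K) {v : V} (hv : v ∈ f) :
    co p f c v * (Mx p f).det = (Mx (fun u => if u = v then c else p u) f).det := by
  rw [← det_upd hf p (fun u hu => co_supp p f c hu) hv, co_lc2 hf h]
  congr 1
  funext i
  rw [Mx_row hf]
  by_cases hi : i = f.equivFinOfCardEq hf ⟨v, hv⟩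
  · rw [hi, Matrix.updateRow_self, Equiv.symm_apply_apply, if_pos rfl]
  · rw [Matrix.updateRow_ne hi, Mx_row hf, if_neg]
    intro h1
    apply hi
    rw [← Equiv.symm_apply_eq]
    exact Subtype.ext h1

theorem Mx_isP {σ : Type} {p : (σ → K) → V → Fin d → K} (hp : ∀ v j, IsP (fun s => p s v j))
    (f : Finset V) : IsP (fun s => (Mx (p s) f).det) := by
  refine IsP.det fun i j => ?_
  by_cases hf : f.card = d
  · simp only [Mx_row hf]
    exact hp _ _
  · simp only [Mx, dif_neg hf]
    exact IsP.const _

omit [LinearOrder K] [IsStrictOrderedRing K] in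
private theorem exists_perm {f : Finset V} (hf : f.card = d) {v w : V} (hv : v ∈ f) (hw : w ∉ f)
    (hg : (insert w (f.erase v)).card = d) :
    ∃ s : K, (s = 1 ∨ s = -1) ∧ ∀ (p : V → Fin d → K) (a : V → K), (∀ u, u ∉ f → a u = 0) →
      lc p a = p w → (Mx p (insert w (f.erase v))).det = s * (a v * (Mx p f).det) := by
  have hvw : v ≠ w := fun h => hw (h ▸ hv)
  let φ : f → (insert w (f.erase v) : Finset V) := fun u =>
    if h : (u : V) = v then ⟨w, Finset.mem_insert_self _ _⟩
    else ⟨u, Finset.mem_insert_of_mem (Finset.mem_erase.2 ⟨h, u.2⟩)⟩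
  have hφ1 : ∀ u : f, (u : V) = v → ((φ u : _) : V) = w := fun u hu => by
    simp only [φ]
    rw [dif_pos hu]
  have hφ2 : ∀ u : f, (u : V) ≠ v → ((φ u : _) : V) = u := fun u hu => by
    simp only [φ]
    rw [dif_neg hu]
  have hinj : Function.Injective φ := by
    intro x y hxy
    have h1 : ((φ x : _) : V) = φ y := congrArg Subtype.val hxy
    apply Subtype.ext
    by_cases hx : (x : V) = v
    · by_cases hy : (y : V) = v
      · rw [hx, hy]
      · rw [hφ1 x hx, hφ2 y hy] at h1
        exact absurd (h1 ▸ y.2) hw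
    · by_cases hy : (y : V) = v
      · rw [hφ2 x hx, hφ1 y hy] at h1
        exact absurd (h1 ▸ x.2) hw
      · rwa [hφ2 x hx, hφ2 y hy] at h1
  have hbij : Function.Bijective φ := by
    rw [Fintype.bijective_iff_injective_and_card]
    refine ⟨hinj, ?_⟩
    rw [Fintype.card_coe, Fintype.card_coe, hf, hg]
  let π : Equiv.Perm (Fin d) :=
    (f.equivFinOfCardEq hf).symm.trans ((Equiv.ofBijective φ hbij).trans
      ((insert w (f.erase v)).equivFinOfCardEq hg))
  have hπ : ∀ i, ((insert w (f.erase v)).equivFinOfCardEq hg).symm (π i) =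
      φ ((f.equivFinOfCardEq hf).symm i) := fun i => by
    simp only [π, Equiv.trans_apply, Equiv.symm_apply_apply, Equiv.ofBijective_apply]
  refine ⟨((Equiv.Perm.sign π : ℤ) : K), ?_, fun p a ha hl => ?_⟩
  · rcases Int.units_eq_one_or (Equiv.Perm.sign π) with h | h
    · left; rw [h]; simp
    · right; rw [h]; simp
  · have h1 : (Mx p (insert w (f.erase v))).submatrix π id =
        (Mx p f).updateRow (f.equivFinOfCardEq hf ⟨v, hv⟩) (lc p a) := by
      funext i
      change Mx p (insert w (f.erase v)) (π i) = _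
      rw [Mx_row hg, hπ]
      by_cases hi : i = f.equivFinOfCardEq hf ⟨v, hv⟩
      · rw [hi, Matrix.updateRow_self, hφ1 _ (by rw [Equiv.symm_apply_apply]), hl]
      · rw [Matrix.updateRow_ne hi, Mx_row hf, hφ2]
        intro h1
        apply hi
        rw [← Equiv.symm_apply_eq]
        exact Subtype.ext h1
    have h2 := congrArg Matrix.det h1
    rw [Matrix.det_permute, det_upd hf p ha hv] at h2
    rw [← h2, ← mul_assoc]
    rcases Int.units_eq_one_or (Equiv.Perm.sign π) with h | h
    · rw [h]; simp
    · rw [h]; simp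

theorem exists_or {p0 : V → Fin d → K} (hF : IsFan G p0) :
    ∃ ε : Finset V → K, (∀ f, G.IsNClique d f → ε f ≠ 0) ∧
      ∀ (p : V → Fin d → K) (f : Finset V) (v w : V), G.IsNClique d f → v ∈ f → w ∉ f →
        G.IsNClique d (insert w (f.erase v)) → ∀ a : V → K, (∀ u, u ∉ f → a u = 0) →
        lc p a = p w →
        ε (insert w (f.erase v)) * (Mx p (insert w (f.erase v))).det =
          - a v * (ε f * (Mx p f).det) := by
  refine ⟨fun f => if (Mx p0 f).det < 0 then -1 else 1, fun f _ => ?_, ?_⟩
  · beta_reduce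
    split_ifs
    · exact neg_ne_zero.2 one_ne_zero
    · exact one_ne_zero
  intro p f v w hf hv hw hg a ha hl
  obtain ⟨s, hs, hd⟩ := exists_perm (K := K) hf.card_eq hv hw hg.card_eq
  have hnf : (Mx p0 f).det ≠ 0 :=
    (det_ne_iff hf.card_eq p0).2 fun b hb h0 => lin hF hf.isClique hb h0
  -- the coefficient at `v` is negative for `p0`
  have hneg : co p0 f (p0 w) v < 0 := by
    obtain ⟨w', hw', -, h2, h3⟩ := ridge hF hf hv
    rcases h3 _ hg (Finset.subset_insert _ _) with h4 | h4
    · exact absurd (h4 ▸ Finset.mem_insert_self w (f.erase v)) hw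
    · have h5 : w ∈ insert w' (f.erase v) := h4 ▸ Finset.mem_insert_self w (f.erase v)
      rcases Finset.mem_insert.1 h5 with h6 | h6
      · rw [h6]; exact h2
      · exact absurd (Finset.mem_of_mem_erase h6) hw
  have h0 := hd p0 (co p0 f (p0 w)) (fun u hu => co_supp p0 f _ hu) (co_lc hF hf _)
  have hp := hd p a ha hl
  simp only
  rw [hp]
  rcases hs with rfl | rfl
  · rw [one_mul] at h0 ⊢
    rcases lt_or_gt_of_ne hnf with h1 | h1
    · have h2 : ¬ (Mx p0 (insert w (f.erase v))).det < 0 := by
        rw [h0, not_lt]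
        exact (mul_pos_of_neg_of_neg hneg h1).le
      rw [if_neg h2, if_pos h1]
      ring
    · have h2 : (Mx p0 (insert w (f.erase v))).det < 0 := by
        rw [h0]
        exact mul_neg_of_neg_of_pos hneg h1
      rw [if_pos h2, if_neg (not_lt.2 h1.le)]
      ring
  · rw [neg_one_mul] at h0 ⊢
    rcases lt_or_gt_of_ne hnf with h1 | h1
    · have h2 : (Mx p0 (insert w (f.erase v))).det < 0 := by
        rw [h0]
        exact neg_neg_of_pos (mul_pos_of_neg_of_neg hneg h1)
      rw [if_pos h2, if_pos h1]
      ring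
    · have h2 : ¬ (Mx p0 (insert w (f.erase v))).det < 0 := by
        rw [h0, not_lt]
        exact (neg_pos_of_neg (mul_neg_of_neg_of_pos hneg h1)).le
      rw [if_neg h2, if_neg (not_lt.2 h1.le)]
      ring

end Pool.Agent.Helper82.TI2
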