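import Pool.Agent.Helper82.TI2.LinkG
import Pool.Agent.Helper82.TI2.BDim2
import Pool.Agent.Helper82.TI.Fan.Main

/-!
# Project TI, second part: the dimensions in the star of a vertex whose link is a fan

Let M = mkDat (LkG G j) (fun w => p w.1) c δ (rk ∘ up) x', which is Ok (mkOk, exists_wt,
link_shelling). PROOF of star_rank. If no facet of G contains τ then Hn (i+1) τ = 0: trivial. Otherwise
τ.erase j ⊆ nb G j; let τ' be the corresponding set of vertices of the link, #τ' = #τ - 1.
(1) all_VV for M (2 i + #τ' < D) and finrank_Bs (TI/BDim): finrank (M.Bs γ' τ' (i+1)) +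
finrank (M.Bs γ' τ' i) = 2 (card A * M.Hn (i+1) τ').
(2) M.Hn (i+1) τ' = E.Hn (i+1) τ: the facets of G containing τ are the up f, f ⊇ τ' (exists_up, up_inj),
and #(R (up f) \ τ) = #(Rs f \ τ') by Rs_up (j ∈ τ).
(3) finrank (Bg E Gm τ i') = finrank (M.Bs γ' τ' i') for i' = i, i + 1. Let Φ : (A → ι_M → K) →
(A → ι_E → K) be the extension by zero along f ↦ up f (injective linear). Φ maps M.FS i' τ' onto
E.FS i' τ: for a monomial μ in V of degree < i', E.mono μ on the facets up f ⊇ τ is 0 if μ has an element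
outside nb G j ∪ {j} (hX0), and otherwise it is M.mono of the multiset of the elements of μ different from
j (hXj: the factor at j is 1; degree still < i'); conversely M.mono μ' = E.mono (μ'.map val) there.
On functions Φ z: Og E Gm (Φ z) = Φ (M.Dop γ' z + κ z) (κ applied to the values; by hG, since at the facet
up f the matrix ∑_v X v f • Gm v is that of M.Dop plus κ). κ maps FS i' to itself. So
Bg E Gm τ i' = Φ (M.FS i' τ' + (M.Dop γ' + κ) M.FS i' τ') = Φ (M.Bs γ' τ' i'), Φ injective.
-/

open Finset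

namespace Pool.Agent.Helper82.TI2

open Pool.Agent.Helper82.TI Pool.Agent.Helper82.TI.Fan

variable {K V : Type} [Field K] [LinearOrder K] [IsStrictOrderedRing K] [Fintype V]
  [DecidableEq V] {D : ℕ} {G : SimpleGraph V}


/-! ### Extension by zero -/

section ext

variable {ι ι' : Type} [Fintype ι]

open scoped Classical in
/-- Extension by zero along the map `U`. -/
private noncomputable def phi (K : Type) [Field K] (U : ι → ι') : (ι → K) →ₗ[K] (ι' → K) where
  toFun z := fun g => ∑ f, if U f = g then z f else 0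
  map_add' := by
    intro z z'
    funext g
    simp only [Pi.add_apply]
    rw [← Finset.sum_add_distrib]
    refine Finset.sum_congr rfl (fun f _ => ?_)
    by_cases h : U f = g
    · simp only [if_pos h]
    · simp only [if_neg h, add_zero]
  map_smul' := by
    intro r z
    funext g
    simp only [Pi.smul_apply, smul_eq_mul, RingHom.id_apply]
    rw [Finset.mul_sum]
    refine Finset.sum_congr rfl (fun f _ => ?_)
    by_cases h : U f = g
    · simp only [if_pos h]
    · simp only [if_neg h, mul_zero]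

private theorem phi_U {K : Type} [Field K] {U : ι → ι'} (hU : Function.Injective U) (z : ι → K)
    (f : ι) : phi K U z (U f) = z f := by
  classical
  change (∑ f', if U f' = U f then z f' else 0) = z f
  rw [Finset.sum_eq_single f]
  · rw [if_pos rfl]
  · intro f' _ hf'
    rw [if_neg (fun h => hf' (hU h))]
  · intro h
    exact absurd (Finset.mem_univ f) h

private theorem phi_not {K : Type} [Field K] {U : ι → ι'} (z : ι → K) {g : ι'}
    (h : ∀ f, U f ≠ g) : phi K U z g = 0 := by
  classical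
  change (∑ f', if U f' = g then z f' else 0) = 0
  refine Finset.sum_eq_zero (fun f _ => ?_)
  rw [if_neg (h f)]

private theorem phi_inj {K : Type} [Field K] {U : ι → ι'} (hU : Function.Injective U) :
    Function.Injective (phi K U) := by
  intro z z' h
  funext f
  rw [← phi_U hU z f, ← phi_U hU z' f, h]

end ext

section gen

variable {V₁ V₂ ι₁ ι₂ n₁ n₂ A : Type} [DecidableEq V₁] [Fintype V₁] [DecidableEq V₂] [Fintype V₂]
  [Fintype ι₁] [Fintype n₁] [Fintype n₂] [Fintype A] [DecidableEq A]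

/-- The extension by zero for functions with values in the functions on `A`. -/
private noncomputable def Phi (K A : Type) [Field K] (U : ι₁ → ι₂) :
    (A → ι₁ → K) →ₗ[K] (A → ι₂ → K) := (phi K U).compLeft A

private theorem Phi_apply {K A : Type} [Field K] (U : ι₁ → ι₂) (z : A → ι₁ → K) (a : A) :
    Phi K A U z a = phi K U (z a) := rfl

private theorem Phi_inj {K A : Type} [Field K] {U : ι₁ → ι₂} (hU : Function.Injective U) :
    Function.Injective (Phi K A U) := by
  intro z z' h
  funext a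
  exact phi_inj hU (congrFun h a)

private theorem Phi_FS (M : Dat K V₁ ι₁ n₁) (E : Dat K V₂ ι₂ n₂) {U : ι₁ → ι₂}
    (hU : Function.Injective U) (va : V₁ → V₂) {τ' : Finset V₁} {τ : Finset V₂}
    (hsub : ∀ f, τ ⊆ E.fac (U f) ↔ τ' ⊆ M.fac f) (hno : ∀ g, τ ⊆ E.fac g → ∃ f, U f = g)
    (hX : ∀ v f, E.X (va v) (U f) = M.X v f) {i : ℕ} {z : A → ι₁ → K} (hz : z ∈ M.FS A i τ') :
    Phi K A U z ∈ E.FS A i τ := by
  rw [Dat.FS, Submodule.mem_pi] at hz ⊢
  intro a ha
  rw [Phi_apply]
  have key : (M.Fs i τ').map (phi K U) ≤ E.Fs i τ := by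
    rw [Dat.Fs, Submodule.map_span_le]
    rintro g ⟨μ, hμ, rfl⟩
    have he : phi K U (fun f => if τ' ⊆ M.fac f then M.mono μ f else 0) =
        fun f => if τ ⊆ E.fac f then E.mono (μ.map va) f else 0 := by
      funext g
      by_cases hg : ∃ f, U f = g
      · obtain ⟨f, rfl⟩ := hg
        rw [phi_U hU]
        by_cases h : τ' ⊆ M.fac f
        · rw [if_pos h, if_pos ((hsub f).2 h), Dat.mono, Dat.mono, Multiset.map_map]
          congr 1
          refine Multiset.map_congr rfl (fun v _ => ?_)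
          exact (hX v f).symm
        · rw [if_neg h, if_neg (fun h2 => h ((hsub f).1 h2))]
      · rw [phi_not _ (fun f hf => hg ⟨f, hf⟩), if_neg (fun h2 => hg (hno g h2))]
    rw [he]
    refine Submodule.subset_span ⟨μ.map va, ?_, rfl⟩
    rw [Multiset.card_map]
    exact hμ
  exact key (Submodule.mem_map_of_mem (hz a ha))

end gen

theorem star_rank {rk : Finset V → ℕ} (hr : IsShelling G (D + 1) rk) (j : V)
    {p : V → Fin D → K} (hF : IsFan (LkG G j) (fun w => p w.1)) {c : Fin D → K}
    (hc : Gen (LkG G j) (fun w => p w.1) c) {n' : Type} [Fintype n']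
    (x' : {w : V // w ∈ nb G j} → n' → K)
    (hx : ∀ u v, (u = v ∨ (LkG G j).Adj u v) → ∑ b, x' u b * x' v b = ∑ b, p u.1 b * p v.1 b)
    (hd : ∀ v, ∃ u : n' → K, ∀ v', ∑ b, u b * x' v' b = if v' = v then 1 else 0)
    {A : Type} [Fintype A] [DecidableEq A] [Nonempty A] {γ' : n' → Matrix A A K} (hγ : Cl γ')
    (κ : Matrix A A K) (Gm : V → Matrix A A K) {m : Type} [Fintype m]
    (E : Dat K V {f : Finset V // G.IsNClique (D + 1) f} m) (hEd : E.d = D + 1)
    (hfac : ∀ f, E.fac f = f.1) (hR : ∀ f, E.R f = Rs G (D + 1) rk f.1)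
    (hX0 : ∀ v f, v ∉ f.1 → E.X v f = 0)
    (hXj : ∀ f : {f : Finset V // G.IsNClique (D + 1) f}, j ∈ f.1 → E.X j f = 1)
    (hX : ∀ (f : Finset {w : V // w ∈ nb G j}) (hf : (LkG G j).IsNClique D f)
      (w : {w : V // w ∈ nb G j}),
      E.X w.1 ⟨up G j f, up_clique.2 hf⟩ = co (fun w : {w : V // w ∈ nb G j} => p w.1) f c w)
    (hG : ∀ (f : Finset {w : V // w ∈ nb G j}) (hf : (LkG G j).IsNClique D f),
      ∑ v, E.X v ⟨up G j f, up_clique.2 hf⟩ • Gm v =
        (∑ b, (∑ w, co (fun w : {w : V // w ∈ nb G j} => p w.1) f c w * x' w b) • γ' b) + κ)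
    {τ : Finset V} (hτ : j ∈ τ) {i : ℕ} (hi : 2 * i + τ.card = D) :
    2 * (Fintype.card A * E.Hn (i + 1) τ) ≤
      Module.finrank K (Bg E Gm τ (i + 1)) + Module.finrank K (Bg E Gm τ i) := by
  classical
  by_cases hne : ∃ g : Finset V, G.IsNClique (D + 1) g ∧ τ ⊆ g
  swap
  · have h0 : E.Hn (i + 1) τ = 0 := by
      rw [Dat.Hn, Finset.card_eq_zero, Finset.filter_eq_empty_iff]
      rintro g - ⟨h1, -⟩
      rw [hfac] at h1
      exact hne ⟨g.1, g.2, h1⟩
    rw [h0, Nat.mul_zero, Nat.mul_zero]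
    exact Nat.zero_le _
  obtain ⟨g₀, hg₀, hτg₀⟩ := hne
  obtain ⟨δ, h0, h1⟩ := exists_wt hF
  have hshell := link_shelling hr j
  let M := mkDat (LkG G j) (fun w : {w : V // w ∈ nb G j} => p w.1) c δ
    (fun f => rk (up G j f)) x'
  have hM : M.Ok := mkOk hF hshell hc h0 h1 x' hx hd
  have hMd : M.d = D := rfl
  let τ' : Finset {w : V // w ∈ nb G j} := univ.filter (fun w => w.1 ∈ τ)
  have hτ' : ∀ w : {w : V // w ∈ nb G j}, w ∈ τ' ↔ w.1 ∈ τ := by
    intro w
    simp only [τ', Finset.mem_filter, Finset.mem_univ, true_and]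
  have hjn : ∀ w : {w : V // w ∈ nb G j}, w.1 ≠ j := by
    intro w h
    have h4 := mem_nb.1 w.2
    rw [h] at h4
    exact G.loopless.irrefl j h4
  have hmup : ∀ (f : Finset {w : V // w ∈ nb G j}) (v : V), v ∈ up G j f ↔
      v = j ∨ ∃ w ∈ f, w.1 = v := by
    intro f v
    rw [up, Finset.mem_insert, Finset.mem_map]
    rfl
  have hnb : ∀ v ∈ τ, v ≠ j → v ∈ nb G j := by
    intro v hv hvj
    rw [mem_nb]
    exact hg₀.isClique (Finset.mem_coe.2 (hτg₀ hτ)) (Finset.mem_coe.2 (hτg₀ hv)) (Ne.symm hvj)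
  have hup : up G j τ' = τ := by
    ext v
    rw [hmup]
    constructor
    · rintro (rfl | ⟨w, hw, rfl⟩)
      · exact hτ
      · exact (hτ' w).1 hw
    · intro hv
      by_cases hvj : v = j
      · exact Or.inl hvj
      · exact Or.inr ⟨⟨v, hnb v hv hvj⟩, (hτ' _).2 hv, rfl⟩
  have hcard : τ'.card + 1 = τ.card := by
    rw [← hup, up, Finset.card_insert_of_notMem, Finset.card_map]
    rw [Finset.mem_map]
    rintro ⟨w, -, hw⟩
    exact hjn w hw
  have hsub : ∀ f : Finset {w : V // w ∈ nb G j}, τ ⊆ up G j f ↔ τ' ⊆ f := by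
    intro f
    constructor
    · intro h w hw
      rcases (hmup f w.1).1 (h ((hτ' w).1 hw)) with h2 | ⟨w', hw', h2⟩
      · exact absurd h2 (hjn w)
      · rw [← Subtype.ext h2]
        exact hw'
    · intro h v hv
      rw [hmup]
      by_cases hvj : v = j
      · exact Or.inl hvj
      · exact Or.inr ⟨⟨v, hnb v hv hvj⟩, h ((hτ' _).2 hv), rfl⟩
  let U : {f : Finset {w : V // w ∈ nb G j} // (LkG G j).IsNClique D f} →
      {f : Finset V // G.IsNClique (D + 1) f} := fun f => ⟨up G j f.1, up_clique.2 f.2⟩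
  have hUinj : Function.Injective U := by
    intro f f' h
    exact Subtype.ext (up_inj (congrArg Subtype.val h))
  have hUsurj : ∀ g, τ ⊆ E.fac g → ∃ f, U f = g := by
    intro g hg
    rw [hfac] at hg
    obtain ⟨f, hf, hfg⟩ := exists_up g.2 (hg hτ)
    exact ⟨⟨f, hf⟩, Subtype.ext hfg⟩
  have hsubU : ∀ f, τ ⊆ E.fac (U f) ↔ τ' ⊆ M.fac f := by
    intro f
    rw [hfac]
    exact hsub f.1
  -- the number of facets
  have hHn : E.Hn (i + 1) τ ≤ M.Hn (i + 1) τ' := by
    rw [Dat.Hn, Dat.Hn]
    refine Finset.card_le_card_of_surjOn U ?_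
    intro g hg
    rw [Finset.mem_coe, Finset.mem_filter] at hg
    obtain ⟨-, hg1, hg2⟩ := hg
    obtain ⟨f, rfl⟩ := hUsurj g hg1
    refine ⟨f, ?_, rfl⟩
    rw [Finset.mem_coe, Finset.mem_filter]
    refine ⟨Finset.mem_univ _, (hsubU f).1 hg1, ?_⟩
    have h2 := Rs_up (rk := rk) j f.2
    have h3 : (M.R f \ τ').map (Function.Embedding.subtype _) = E.R (U f) \ τ := by
      rw [hR]
      change (Rs (LkG G j) D (fun f => rk (up G j f)) f.1 \ τ').map (Function.Embedding.subtype _) =
        Rs G (D + 1) rk (up G j f.1) \ τ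
      ext v
      have h4 := Finset.ext_iff.1 h2 v
      rw [Finset.mem_map, Finset.mem_erase] at h4
      rw [Finset.mem_map, Finset.mem_sdiff]
      constructor
      · rintro ⟨w, hw, rfl⟩
        rw [Finset.mem_sdiff] at hw
        exact ⟨(h4.1 ⟨w, hw.1, rfl⟩).2, fun h5 => hw.2 ((hτ' w).2 h5)⟩
      · rintro ⟨h5, h6⟩
        have hvj : v ≠ j := fun h => h6 (h ▸ hτ)
        obtain ⟨w, hw, hwv⟩ := h4.2 ⟨hvj, h5⟩
        refine ⟨w, ?_, hwv⟩
        rw [Finset.mem_sdiff]
        refine ⟨hw, fun h7 => h6 ?_⟩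
        rw [← hwv]
        exact (hτ' w).1 h7
    rw [← h3, Finset.card_map] at hg2
    exact hg2
  -- the spaces
  have hXU : ∀ (w : {w : V // w ∈ nb G j}) f, E.X w.1 (U f) = M.X w f := by
    intro w f
    exact hX f.1 f.2 w
  have hFS : ∀ (i' : ℕ) (z : A → {f : Finset {w : V // w ∈ nb G j} // (LkG G j).IsNClique D f} → K),
      z ∈ M.FS A i' τ' → Phi K A U z ∈ E.FS A i' τ := by
    intro i' z hz
    exact Phi_FS M E hUinj (fun w => w.1) hsubU hUsurj hXU hz
  have hOg : ∀ z : A → {f : Finset {w : V // w ∈ nb G j} // (LkG G j).IsNClique D f} → K,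
      Og E Gm (Phi K A U z) =
        Phi K A U (M.Dop γ' z) + Phi K A U (fun a f => ∑ b, κ a b * z b f) := by
    intro z
    funext a g
    change (∑ v, E.X v g * ∑ b, Gm v a b * phi K U (z b) g) =
      phi K U (M.Dop γ' z a) g + phi K U (fun f => ∑ b, κ a b * z b f) g
    by_cases hg : ∃ f, U f = g
    · obtain ⟨f, rfl⟩ := hg
      simp only [phi_U hUinj]
      change (∑ v, E.X v (U f) * ∑ b, Gm v a b * z b f) =
        (∑ k, M.xf f k * ∑ b, γ' k a b * z b f) + ∑ b, κ a b * z b f
      have h5 : ∀ b, ∑ v, E.X v (U f) * Gm v a b = (∑ k, M.xf f k * γ' k a b) + κ a b := by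
        intro b
        have h6 := congrFun (congrFun (hG f.1 f.2) a) b
        simp only [Matrix.add_apply, Matrix.sum_apply, Matrix.smul_apply, smul_eq_mul] at h6
        exact h6
      calc (∑ v, E.X v (U f) * ∑ b, Gm v a b * z b f)
          = ∑ b, (∑ v, E.X v (U f) * Gm v a b) * z b f := by
            simp only [Finset.mul_sum, Finset.sum_mul]
            rw [Finset.sum_comm]
            refine Finset.sum_congr rfl (fun b _ => Finset.sum_congr rfl (fun v _ => ?_))
            ring
        _ = ∑ b, ((∑ k, M.xf f k * γ' k a b) + κ a b) * z b f := by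
            refine Finset.sum_congr rfl (fun b _ => ?_)
            rw [h5]
        _ = (∑ k, M.xf f k * ∑ b, γ' k a b * z b f) + ∑ b, κ a b * z b f := by
            simp only [add_mul, Finset.sum_add_distrib, Finset.mul_sum, Finset.sum_mul]
            congr 1
            rw [Finset.sum_comm]
            refine Finset.sum_congr rfl (fun k _ => Finset.sum_congr rfl (fun b _ => ?_))
            ring
    · have hg' : ∀ f, U f ≠ g := fun f hf => hg ⟨f, hf⟩
      simp only [phi_not _ hg', mul_zero, Finset.sum_const_zero, add_zero]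
  have hBs : ∀ i' : ℕ, (M.Bs γ' τ' i').map (Phi K A U) ≤ Bg E Gm τ i' := by
    intro i'
    rw [Dat.Bs, Submodule.map_sup]
    refine sup_le ?_ ?_
    · rintro _ ⟨z, hz, rfl⟩
      exact Submodule.mem_sup_left (hFS i' z hz)
    · rintro _ ⟨_, ⟨z, hz, rfl⟩, rfl⟩
      have hκ : (fun a f => ∑ b, κ a b * z b f) ∈ M.FS A i' τ' := by
        rw [SetLike.mem_coe, Dat.FS, Submodule.mem_pi] at hz
        rw [Dat.FS, Submodule.mem_pi]
        intro a _
        have h7 : (fun f => ∑ b, κ a b * z b f) = ∑ b, κ a b • z b := by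
          funext f
          simp only [Finset.sum_apply, Pi.smul_apply, smul_eq_mul]
        rw [h7]
        exact Submodule.sum_mem _ (fun b _ => Submodule.smul_mem _ _ (hz b (Set.mem_univ b)))
      have h8 : Phi K A U (M.Dop γ' z) =
          Og E Gm (Phi K A U z) - Phi K A U (fun a f => ∑ b, κ a b * z b f) := by
        rw [hOg]
        abel
      rw [h8]
      refine Submodule.sub_mem _ ?_ ?_
      · exact Submodule.mem_sup_right (Submodule.mem_map_of_mem (hFS i' z hz))
      · exact Submodule.mem_sup_left (hFS i' _ hκ)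
  have hfin : ∀ i' : ℕ, Module.finrank K (M.Bs γ' τ' i') ≤ Module.finrank K (Bg E Gm τ i') := by
    intro i'
    have e := (Submodule.equivMapOfInjective (Phi K A U) (Phi_inj hUinj) (M.Bs γ' τ' i'))
    rw [e.finrank_eq]
    exact Submodule.finrank_mono (hBs i')
  have hVV : M.VV γ' τ' i := by
    refine all_VV hM hγ M.d τ' (by omega) i ?_
    rw [hMd]
    omega
  have hmain := finrank_Bs hM hγ (j := i) (τ := τ') (by rw [hMd]; omega) hVV
  calc 2 * (Fintype.card A * E.Hn (i + 1) τ) ≤ 2 * (Fintype.card A * M.Hn (i + 1) τ') :=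
        Nat.mul_le_mul_left 2 (Nat.mul_le_mul_left _ hHn)
    _ = Module.finrank K (M.Bs γ' τ' (i + 1)) + Module.finrank K (M.Bs γ' τ' i) := hmain.symm
    _ ≤ _ := Nat.add_le_add (hfin (i + 1)) (hfin i)

end Pool.Agent.Helper82.TI2
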