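import Pool.Agent.Helper82.TI2.Cliff2
import Pool.Agent.Helper82.TI2.Defs

/-!
# Project TI, second part: the family of data

For every vertex j there are vectors q j v in K^d and x j v in a Euclidean space with the same inner
products for v = u or v adjacent to u. The superposition with parameter s is pS s v = ∑_j s_j q j v, and
the vector (s_j x j v)_j, pS s v (positive), (s_j q j v)_j (negative) of a pseudo-Euclidean space has the
same inner products as pS s v.

PROOFS. GS_REL: expand; GS s u * GS s v + GS s v * GS s u with Cl2 gives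
2 (∑_j s_j² ⟨x j u, x j v⟩ + ⟨pS s u, pS s v⟩ - ∑_j s_j² ⟨q j u, q j v⟩) • 1 and the first and the last
sum cancel by hx. OG_OG: at a facet f, with M = ∑_v X v f • GS s v (matrix), Og (Og z) = M² z, and
2 M² = ∑_{u,v} X u f X v f (GS u GS v + GS v GS u); only u, v ∈ fac f contribute (hX0), these are equal or
adjacent (hcl), so 2 M² = 2 ∑_{u,v} X_u X_v ⟨pS u, pS v⟩ • 1 = 2 (∑_b (∑_v X_v pS v b)²) • 1 =
2 (∑_b c b * c b) • 1 (hXc). TRANSPOSE: γ symmetric, β antisymmetric.
-/

open Finset

namespace Pool.Agent.Helper82.TI2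

open Pool.Agent.Helper82.TI

variable {K V : Type} [Field K] [LinearOrder K] [IsStrictOrderedRing K] [DecidableEq V]
  [Fintype V] {d : ℕ}

/-- Superposition. -/
def pS (q : V → V → Fin d → K) (s : V → K) (v : V) : Fin d → K := fun b => ∑ j, s j * q j v b

/-- The operators of the superposition. -/
def GS {n : V → Type} [∀ j, Fintype (n j)] {A : Type} (q : V → V → Fin d → K)
    (x : ∀ j, V → n j → K)
    (γ : ((Σ j, n j) ⊕ Fin d) → Matrix A A K) (β : V × Fin d → Matrix A A K) (s : V → K) (v : V) :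
    Matrix A A K :=
  (∑ j, ∑ a, (s j * x j v a) • γ (Sum.inl ⟨j, a⟩)) + (∑ b, pS q s v b • γ (Sum.inr b)) +
    ∑ j, ∑ b, (s j * q j v b) • β (j, b)

section Lin

variable {n : V → Type} [∀ j, Fintype (n j)] [∀ j, DecidableEq (n j)] {A : Type}
  [Fintype A] [DecidableEq A]

/-- All the generators. -/
private def gen (γ : ((Σ j, n j) ⊕ Fin d) → Matrix A A K) (β : V × Fin d → Matrix A A K) :
    (((Σ j, n j) ⊕ Fin d) ⊕ (V × Fin d)) → Matrix A A K := Sum.elim γ β

/-- The coefficients. -/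
private def cf (q : V → V → Fin d → K) (x : ∀ j, V → n j → K) (s : V → K) (v : V) :
    (((Σ j, n j) ⊕ Fin d) ⊕ (V × Fin d)) → K :=
  Sum.elim (Sum.elim (fun p => s p.1 * x p.1 v p.2) (fun b => pS q s v b))
    (fun p => s p.1 * q p.1 v p.2)

/-- The signs. -/
private def sg : (((Σ j, n j) ⊕ Fin d) ⊕ (V × Fin d)) → K :=
  Sum.elim (fun _ => 1) (fun _ => -1)

omit [LinearOrder K] [IsStrictOrderedRing K] [DecidableEq V] [∀ j, DecidableEq (n j)]
  [Fintype A] [DecidableEq A] in
private theorem GS_eq (q : V → V → Fin d → K) (x : ∀ j, V → n j → K)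
    (γ : ((Σ j, n j) ⊕ Fin d) → Matrix A A K) (β : V × Fin d → Matrix A A K) (s : V → K) (v : V) :
    GS q x γ β s v = ∑ i, cf q x s v i • gen γ β i := by
  rw [GS, Fintype.sum_sum_type, Fintype.sum_sum_type, Fintype.sum_sigma, Fintype.sum_prod_type]
  rfl

omit [LinearOrder K] [IsStrictOrderedRing K] [Fintype V] [∀ j, Fintype (n j)] in
private theorem gen_rel {γ : ((Σ j, n j) ⊕ Fin d) → Matrix A A K}
    {β : V × Fin d → Matrix A A K} (hc : Cl2 γ β) (i k : ((Σ j, n j) ⊕ Fin d) ⊕ (V × Fin d)) :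
    gen γ β i * gen γ β k + gen γ β k * gen γ β i =
      if i = k then (2 * sg i : K) • (1 : Matrix A A K) else 0 := by
  rcases i with i | i <;> rcases k with k | k
  · simp only [gen, sg, Sum.elim_inl, hc.gg, Sum.inl.injEq, mul_one]
  · simp only [gen, Sum.elim_inl, Sum.elim_inr, hc.gb, reduceCtorEq, if_false]
  · simp only [gen, Sum.elim_inl, Sum.elim_inr, reduceCtorEq, if_false]
    rw [add_comm]
    exact hc.gb k i
  · simp only [gen, sg, Sum.elim_inr, hc.bb, Sum.inr.injEq, mul_neg, mul_one]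

omit [LinearOrder K] [IsStrictOrderedRing K] in
private theorem GS_rel_aux {γ : ((Σ j, n j) ⊕ Fin d) → Matrix A A K}
    {β : V × Fin d → Matrix A A K} (hc : Cl2 γ β) (c c' : (((Σ j, n j) ⊕ Fin d) ⊕ (V × Fin d)) → K) :
    (∑ i, c i • gen γ β i) * (∑ i, c' i • gen γ β i) +
      (∑ i, c' i • gen γ β i) * (∑ i, c i • gen γ β i) =
      (2 * ∑ i, c i * c' i * sg i) • (1 : Matrix A A K) := by
  have h1 : (∑ i, c i • gen γ β i) * (∑ i, c' i • gen γ β i) =
      ∑ i, ∑ k, (c i * c' k) • (gen γ β i * gen γ β k) := by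
    rw [Finset.sum_mul]
    refine Finset.sum_congr rfl fun i _ => ?_
    rw [Finset.mul_sum]
    exact Finset.sum_congr rfl fun k _ => smul_mul_smul_comm _ _ _ _
  have h2 : (∑ i, c' i • gen γ β i) * (∑ i, c i • gen γ β i) =
      ∑ i, ∑ k, (c i * c' k) • (gen γ β k * gen γ β i) := by
    have h3 : ∀ k, c' k • gen γ β k * ∑ i, c i • gen γ β i =
        ∑ i, (c i * c' k) • (gen γ β k * gen γ β i) := by
      intro k
      rw [Finset.mul_sum]
      exact Finset.sum_congr rfl fun i _ => by rw [smul_mul_smul_comm, mul_comm (c' k)]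
    rw [Finset.sum_mul, Finset.sum_congr rfl fun k _ => h3 k, Finset.sum_comm]
  rw [h1, h2, ← Finset.sum_add_distrib, Finset.mul_sum, Finset.sum_smul]
  refine Finset.sum_congr rfl fun i _ => ?_
  rw [← Finset.sum_add_distrib]
  simp_rw [← smul_add, gen_rel hc]
  rw [Finset.sum_eq_single i]
  · rw [if_pos rfl, smul_smul]
    congr 1
    ring
  · intro k _ hki
    rw [if_neg (Ne.symm hki), smul_zero]
  · intro h
    exact absurd (Finset.mem_univ i) h

end Lin

theorem GS_rel {n : V → Type} [∀ j, Fintype (n j)] [∀ j, DecidableEq (n j)] {A : Type}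
    [Fintype A] [DecidableEq A] {q : V → V → Fin d → K}
    {x : ∀ j, V → n j → K} {γ : ((Σ j, n j) ⊕ Fin d) → Matrix A A K}
    {β : V × Fin d → Matrix A A K} (hc : Cl2 γ β) {u v : V}
    (hx : ∀ j, ∑ a, x j u a * x j v a = ∑ b, q j u b * q j v b) (s : V → K) :
    GS q x γ β s u * GS q x γ β s v + GS q x γ β s v * GS q x γ β s u =
      (2 * ∑ b, pS q s u b * pS q s v b) • (1 : Matrix A A K) := by
  rw [GS_eq, GS_eq, GS_rel_aux hc]
  congr 2
  rw [Fintype.sum_sum_type, Fintype.sum_sum_type, Fintype.sum_sigma, Fintype.sum_prod_type]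
  have h1 : ∑ j, ∑ a, cf q x s u (Sum.inl (Sum.inl ⟨j, a⟩)) * cf q x s v (Sum.inl (Sum.inl ⟨j, a⟩)) *
      (sg (Sum.inl (Sum.inl ⟨j, a⟩) : ((Σ j, n j) ⊕ Fin d) ⊕ (V × Fin d)) : K) =
      ∑ j, s j * s j * ∑ b, q j u b * q j v b := by
    refine Finset.sum_congr rfl fun j _ => ?_
    rw [← hx j, Finset.mul_sum]
    refine Finset.sum_congr rfl fun a _ => ?_
    simp only [cf, sg, Sum.elim_inl]
    ring
  have h2 : ∑ j, ∑ b, cf q x s u (Sum.inr (j, b)) * cf q x s v (Sum.inr (j, b)) *
      (sg (Sum.inr (j, b) : ((Σ j, n j) ⊕ Fin d) ⊕ (V × Fin d)) : K) =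
      - ∑ j, s j * s j * ∑ b, q j u b * q j v b := by
    rw [← Finset.sum_neg_distrib]
    refine Finset.sum_congr rfl fun j _ => ?_
    rw [Finset.mul_sum, ← Finset.sum_neg_distrib]
    refine Finset.sum_congr rfl fun a _ => ?_
    simp only [cf, sg, Sum.elim_inr]
    ring
  have h3 : ∑ b, cf q x s u (Sum.inl (Sum.inr b)) * cf q x s v (Sum.inl (Sum.inr b)) *
      (sg (Sum.inl (Sum.inr b) : ((Σ j, n j) ⊕ Fin d) ⊕ (V × Fin d)) : K) =
      ∑ b, pS q s u b * pS q s v b := by
    refine Finset.sum_congr rfl fun b _ => ?_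
    simp only [cf, sg, Sum.elim_inl, Sum.elim_inr]
    ring
  rw [h1, h2, h3]
  ring

theorem Og_Og_GS {ι m : Type} [Fintype ι] [Fintype m] {n : V → Type} [∀ j, Fintype (n j)]
    [∀ j, DecidableEq (n j)] {A : Type}
    [Fintype A] [DecidableEq A] {q : V → V → Fin d → K}
    {x : ∀ j, V → n j → K} {γ : ((Σ j, n j) ⊕ Fin d) → Matrix A A K}
    {β : V × Fin d → Matrix A A K} (hc : Cl2 γ β) (G : SimpleGraph V)
    (hx : ∀ u v, (u = v ∨ G.Adj u v) →
      ∀ j, ∑ a, x j u a * x j v a = ∑ b, q j u b * q j v b) (s : V → K)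
    (D : Dat K V ι m) (hX0 : ∀ v f, v ∉ D.fac f → D.X v f = 0)
    (hcl : ∀ f, G.IsClique (D.fac f : Set V)) (c : Fin d → K)
    (hXc : ∀ f b, ∑ v, D.X v f * pS q s v b = c b) (hc2 : D.c2 = ∑ b, c b * c b)
    (z : A → ι → K) :
    Og D (GS q x γ β s) (Og D (GS q x γ β s) z) = D.c2 • z := by
  funext a f
  obtain ⟨M, hM⟩ : ∃ M : Matrix A A K, M = ∑ v, D.X v f • GS q x γ β s v := ⟨_, rfl⟩
  have hO : ∀ (y : A → ι → K) (a : A), Og D (GS q x γ β s) y a f = ∑ b, M a b * y b f := by
    intro y a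
    have h1 : Og D (GS q x γ β s) y a f = ∑ v, D.X v f * ∑ b, GS q x γ β s v a b * y b f := rfl
    rw [h1, hM]
    simp_rw [Matrix.sum_apply, Matrix.smul_apply, smul_eq_mul, Finset.sum_mul, Finset.mul_sum]
    rw [Finset.sum_comm]
    exact Finset.sum_congr rfl fun b _ => Finset.sum_congr rfl fun v _ => by ring
  have hMM : M * M + M * M = (2 * D.c2) • (1 : Matrix A A K) := by
    have h1 : M * M = ∑ u, ∑ v, (D.X u f * D.X v f) • (GS q x γ β s u * GS q x γ β s v) := by
      rw [hM, Finset.sum_mul]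
      refine Finset.sum_congr rfl fun i _ => ?_
      rw [Finset.mul_sum]
      exact Finset.sum_congr rfl fun k _ => smul_mul_smul_comm _ _ _ _
    have h2 : M * M = ∑ u, ∑ v, (D.X u f * D.X v f) • (GS q x γ β s v * GS q x γ β s u) := by
      rw [h1, Finset.sum_comm]
      exact Finset.sum_congr rfl fun u _ => Finset.sum_congr rfl fun v _ => by
        rw [mul_comm (D.X v f)]
    have h3 : M * M + M * M = ∑ u, ∑ v, (D.X u f * D.X v f) •
        (GS q x γ β s u * GS q x γ β s v + GS q x γ β s v * GS q x γ β s u) := by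
      conv_lhs => arg 2; rw [h2]
      rw [h1, ← Finset.sum_add_distrib]
      refine Finset.sum_congr rfl fun u _ => ?_
      rw [← Finset.sum_add_distrib]
      exact Finset.sum_congr rfl fun v _ => (smul_add _ _ _).symm
    have h4 : ∀ u v, (D.X u f * D.X v f) •
        (GS q x γ β s u * GS q x γ β s v + GS q x γ β s v * GS q x γ β s u) =
        (2 * ∑ b, (D.X u f * pS q s u b) * (D.X v f * pS q s v b)) • (1 : Matrix A A K) := by
      intro u v
      have h5 : (2 * ∑ b, (D.X u f * pS q s u b) * (D.X v f * pS q s v b)) =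
          (D.X u f * D.X v f) * (2 * ∑ b, pS q s u b * pS q s v b) := by
        simp_rw [Finset.mul_sum]
        exact Finset.sum_congr rfl fun b _ => by ring
      rw [h5]
      by_cases hu : u ∈ D.fac f
      · by_cases hv : v ∈ D.fac f
        · have huv : u = v ∨ G.Adj u v := by
            by_cases h6 : u = v
            · exact Or.inl h6
            · exact Or.inr (hcl f (by exact_mod_cast hu) (by exact_mod_cast hv) h6)
          rw [GS_rel hc (hx u v huv), smul_smul]
        · rw [hX0 v f hv, mul_zero, zero_mul, zero_smul, zero_smul]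
      · rw [hX0 u f hu, zero_mul, zero_mul, zero_smul, zero_smul]
    rw [h3]
    simp_rw [h4, ← Finset.sum_smul]
    congr 1
    rw [hc2]
    simp_rw [← Finset.mul_sum]
    congr 1
    have h5 : ∀ u, ∑ v, ∑ b, (D.X u f * pS q s u b) * (D.X v f * pS q s v b) =
        ∑ b, (D.X u f * pS q s u b) * c b := by
      intro u
      rw [Finset.sum_comm]
      refine Finset.sum_congr rfl fun b _ => ?_
      rw [← Finset.mul_sum, hXc]
    simp_rw [h5]
    rw [Finset.sum_comm]
    refine Finset.sum_congr rfl fun b _ => ?_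
    rw [← Finset.sum_mul, hXc]
  have hM2 : ∀ a b, (M * M) a b = D.c2 * (1 : Matrix A A K) a b := by
    intro a b
    have h1 := congrFun (congrFun hMM a) b
    rw [Matrix.add_apply, Matrix.smul_apply, smul_eq_mul] at h1
    linarith
  rw [hO]
  simp_rw [hO]
  have h1 : ∑ b, M a b * ∑ b', M b b' * z b' f = ∑ b', (M * M) a b' * z b' f := by
    simp_rw [Matrix.mul_apply, Finset.sum_mul, Finset.mul_sum]
    rw [Finset.sum_comm]
    exact Finset.sum_congr rfl fun b _ => Finset.sum_congr rfl fun v _ => by ring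
  rw [h1]
  simp_rw [hM2]
  rw [Finset.sum_eq_single a]
  · rw [Matrix.one_apply_eq, mul_one]
    rfl
  · intro b _ hb
    rw [Matrix.one_apply_ne (Ne.symm hb), mul_zero, zero_mul]
  · intro h
    exact absurd (Finset.mem_univ a) h

theorem GS_transpose {n : V → Type} [∀ j, Fintype (n j)] [∀ j, DecidableEq (n j)] {A : Type}
    [Fintype A] [DecidableEq A] {q : V → V → Fin d → K}
    {x : ∀ j, V → n j → K} {γ : ((Σ j, n j) ⊕ Fin d) → Matrix A A K}
    {β : V × Fin d → Matrix A A K} (hc : Cl2 γ β) (s : V → K) (v : V) :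
    (GS q x γ β s v).transpose = GS q x γ (fun b => - β b) s v := by
  rw [GS, GS, Matrix.transpose_add, Matrix.transpose_add, Matrix.transpose_sum,
    Matrix.transpose_sum, Matrix.transpose_sum]
  congr 1
  · congr 1
    · refine Finset.sum_congr rfl fun j _ => ?_
      rw [Matrix.transpose_sum]
      exact Finset.sum_congr rfl fun a _ => by rw [Matrix.transpose_smul, hc.gsymm]
    · exact Finset.sum_congr rfl fun a _ => by rw [Matrix.transpose_smul, hc.gsymm]
  · refine Finset.sum_congr rfl fun j _ => ?_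
    rw [Matrix.transpose_sum]
    exact Finset.sum_congr rfl fun a _ => by rw [Matrix.transpose_smul, hc.bsymm]

end Pool.Agent.Helper82.TI2
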