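import Pool.Agent.Helper82.TI2.LinkC
import Pool.Agent.Helper82.TI2.Family

/-!
# Project TI, second part: the data of the star of a vertex inside the family

xj G j x' v is the vector of v in K^(Option n'): the unit vector of none for v = j, x' v for a neighbour
v of j, zero otherwise. PROOFS. XJ_INNER: cases u = j, u ∈ nb, otherwise; j ∉ nb G j; snoc dot products
split by Fin.sum_univ_castSucc; for u, v ∈ nb: hx' with (LkG G j).Adj = G.Adj. GS_STAR: at
s = Pi.single j 1 the sums over j collapse (Finset.sum_eq_single), pS q s = q j,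
∑_v X v • GS v = ∑_o (∑_v X v * xj v o) • γ(inl ⟨j, o⟩) + ∑_b (∑_v X v * q j v b) • (γ (inr b) + β (j, b));
the term o = none is X j • γ = γ(inl ⟨j, none⟩) (h1), the term some b is the sum over the neighbours (the
others contribute zero), and ∑_v X v * q j v b = c b (hc).
-/

open Finset

namespace Pool.Agent.Helper82.TI2

open Pool.Agent.Helper82.TI Pool.Agent.Helper82.TI.Fan

variable {K V : Type} [Field K] [LinearOrder K] [IsStrictOrderedRing K] [Fintype V]
  [DecidableEq V] {D : ℕ} {G : SimpleGraph V}

/-- The vectors of the star of `j`. -/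
noncomputable def xj (G : SimpleGraph V) (j : V) {n' : Type} (x' : {w : V // w ∈ nb G j} → n' → K)
    (v : V) : Option n' → K
  | none => if v = j then 1 else 0
  | some b => if h : v ∈ nb G j then x' ⟨v, h⟩ b else 0

omit [LinearOrder K] [IsStrictOrderedRing K] in
private theorem xj_none {j : V} {n' : Type} (x' : {w : V // w ∈ nb G j} → n' → K) (v : V) :
    xj G j x' v none = if v = j then 1 else 0 := rfl

omit [LinearOrder K] [IsStrictOrderedRing K] in
private theorem xj_some {j : V} {n' : Type} (x' : {w : V // w ∈ nb G j} → n' → K) (v : V)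
    (b : n') : xj G j x' v (some b) = if h : v ∈ nb G j then x' ⟨v, h⟩ b else 0 := rfl

private theorem not_mem_nb_self (j : V) : j ∉ nb G j := fun h => G.loopless.irrefl j (mem_nb.mp h)

omit [LinearOrder K] [IsStrictOrderedRing K] in
private theorem qj_last (j : V) (p : V → Fin D → K) (v : V) :
    qj G j p v (Fin.last D) = if v = j then 1 else 0 := by
  unfold qj
  by_cases h : v = j
  · rw [if_pos h, if_pos h, Fin.snoc_last]
  · rw [if_neg h, if_neg h]
    by_cases h2 : v ∈ nb G j
    · rw [if_pos h2, Fin.snoc_last]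
    · rw [if_neg h2]
      rfl

omit [LinearOrder K] [IsStrictOrderedRing K] in
private theorem qj_cast (j : V) (p : V → Fin D → K) (v : V) (b : Fin D) :
    qj G j p v b.castSucc = if v ∈ nb G j then p v b else 0 := by
  unfold qj
  by_cases h : v = j
  · rw [if_pos h, Fin.snoc_castSucc, if_neg]
    rw [h]
    exact not_mem_nb_self j
  · rw [if_neg h]
    by_cases h2 : v ∈ nb G j
    · rw [if_pos h2, if_pos h2, Fin.snoc_castSucc]
    · rw [if_neg h2, if_neg h2]
      rfl

theorem xj_inner {j : V} {n' : Type} [Fintype n'] {x' : {w : V // w ∈ nb G j} → n' → K}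
    {p : V → Fin D → K}
    (hx : ∀ u v, (u = v ∨ (LkG G j).Adj u v) → ∑ b, x' u b * x' v b = ∑ b, p u.1 b * p v.1 b)
    {u v : V} (huv : u = v ∨ G.Adj u v) :
    ∑ o, xj G j x' u o * xj G j x' v o = ∑ b, qj G j p u b * qj G j p v b := by
  rw [Fintype.sum_option, Fin.sum_univ_castSucc, add_comm]
  simp only [xj_none, xj_some, qj_last, qj_cast]
  congr 1
  by_cases hu : u ∈ nb G j
  · by_cases hv : v ∈ nb G j
    · simp only [hu, hv, dif_pos, if_true]
      refine hx ⟨u, hu⟩ ⟨v, hv⟩ ?_
      rcases huv with h | h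
      · left
        exact Subtype.ext h
      · right
        exact h
    · simp only [hv, dif_neg, not_false_eq_true, if_false, mul_zero, Finset.sum_const_zero]
  · simp only [hu, dif_neg, not_false_eq_true, if_false, zero_mul, Finset.sum_const_zero]

theorem GS_star {n' : V → Type} [∀ j, Fintype (n' j)]
    (x' : ∀ j, {w : V // w ∈ nb G j} → n' j → K) (q : V → V → Fin (D + 1) → K)
    {A : Type} [Fintype A] [DecidableEq A]
    (γ : ((Σ j, Option (n' j)) ⊕ Fin (D + 1)) → Matrix A A K) (β : V × Fin (D + 1) → Matrix A A K)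
    (j : V) (X : V → K) (h1 : X j = 1) (c : Fin (D + 1) → K)
    (hc : ∀ b, ∑ v, X v * q j v b = c b) :
    ∑ v, X v • GS q (fun j v => xj G j (x' j) v) γ β (Pi.single j 1) v =
      (∑ b, (∑ w : {w : V // w ∈ nb G j}, X w.1 * x' j w b) • γ (Sum.inl ⟨j, some b⟩)) +
        (γ (Sum.inl ⟨j, none⟩) + ∑ b, c b • (γ (Sum.inr b) + β (j, b))) := by
  have hs : ∀ i : V, (Pi.single j 1 : V → K) i = if i = j then 1 else 0 := fun i => by
    rw [Pi.single_apply]
  have hGS : ∀ v, GS q (fun j v => xj G j (x' j) v) γ β (Pi.single j 1) v =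
      (∑ a, xj G j (x' j) v a • γ (Sum.inl ⟨j, a⟩)) +
        ∑ b, q j v b • (γ (Sum.inr b) + β (j, b)) := by
    intro v
    unfold GS
    have e1 : (∑ i, ∑ a, ((Pi.single j 1 : V → K) i * xj G i (x' i) v a) • γ (Sum.inl ⟨i, a⟩)) =
        ∑ a, xj G j (x' j) v a • γ (Sum.inl ⟨j, a⟩) := by
      rw [Finset.sum_eq_single j]
      · refine Finset.sum_congr rfl fun a _ => ?_
        rw [hs, if_pos rfl, one_mul]
      · intro i _ hi
        refine Finset.sum_eq_zero fun a _ => ?_
        rw [hs, if_neg hi, zero_mul, zero_smul]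
      · intro h
        exact absurd (Finset.mem_univ j) h
    have e2 : ∀ b, pS q (Pi.single j 1) v b = q j v b := by
      intro b
      unfold pS
      rw [Finset.sum_eq_single j]
      · rw [hs, if_pos rfl, one_mul]
      · intro i _ hi
        rw [hs, if_neg hi, zero_mul]
      · intro h
        exact absurd (Finset.mem_univ j) h
    have e3 : (∑ i, ∑ b, ((Pi.single j 1 : V → K) i * q i v b) • β (i, b)) =
        ∑ b, q j v b • β (j, b) := by
      rw [Finset.sum_eq_single j]
      · refine Finset.sum_congr rfl fun a _ => ?_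
        rw [hs, if_pos rfl, one_mul]
      · intro i _ hi
        refine Finset.sum_eq_zero fun a _ => ?_
        rw [hs, if_neg hi, zero_mul, zero_smul]
      · intro h
        exact absurd (Finset.mem_univ j) h
    rw [e1, e3]
    simp only [e2, smul_add, Finset.sum_add_distrib, add_assoc]
  simp only [hGS, smul_add, Finset.sum_add_distrib]
  have f1 : (∑ v, X v • ∑ a, xj G j (x' j) v a • γ (Sum.inl ⟨j, a⟩)) =
      (∑ b, (∑ w : {w : V // w ∈ nb G j}, X w.1 * x' j w b) • γ (Sum.inl ⟨j, some b⟩)) +
        γ (Sum.inl ⟨j, none⟩) := by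
    have g1 : (∑ v, X v • ∑ a, xj G j (x' j) v a • γ (Sum.inl ⟨j, a⟩)) =
        ∑ a, (∑ v, X v * xj G j (x' j) v a) • γ (Sum.inl ⟨j, a⟩) := by
      simp only [Finset.smul_sum, Finset.sum_smul, smul_smul]
      rw [Finset.sum_comm]
    rw [g1, Fintype.sum_option, add_comm]
    congr 1
    · refine Finset.sum_congr rfl fun b _ => ?_
      congr 1
      have : ∀ v, X v * xj G j (x' j) v (some b) =
          if h : v ∈ nb G j then X v * x' j ⟨v, h⟩ b else 0 := by
        intro v
        rw [xj_some]
        by_cases h : v ∈ nb G j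
        · rw [dif_pos h, dif_pos h]
        · rw [dif_neg h, dif_neg h, mul_zero]
      rw [Finset.sum_congr rfl fun v _ => this v]
      rw [Finset.sum_dite, Finset.sum_const_zero, add_zero]
      refine Finset.sum_bij' (fun v _ => ⟨v.1, (Finset.mem_filter.mp v.2).2⟩)
        (fun w _ => ⟨w.1, Finset.mem_filter.mpr ⟨Finset.mem_univ _, w.2⟩⟩) ?_ ?_ ?_ ?_ ?_
      · intro v _
        exact Finset.mem_univ _
      · intro w _
        exact Finset.mem_attach _ _
      · intro v _
        rfl
      · intro w _
        rfl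
      · intro v _
        rfl
    · have : (∑ v, X v * xj G j (x' j) v none) = 1 := by
        rw [Finset.sum_eq_single j]
        · rw [xj_none, if_pos rfl, h1, one_mul]
        · intro i _ hi
          rw [xj_none, if_neg hi, mul_zero]
        · intro h
          exact absurd (Finset.mem_univ j) h
      rw [this, one_smul]
  have f2 : (∑ v, X v • ∑ b, q j v b • (γ (Sum.inr b) + β (j, b))) =
      ∑ b, c b • (γ (Sum.inr b) + β (j, b)) := by
    have g1 : (∑ v, X v • ∑ b, q j v b • (γ (Sum.inr b) + β (j, b))) =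
        ∑ b, (∑ v, X v * q j v b) • (γ (Sum.inr b) + β (j, b)) := by
      simp only [Finset.smul_sum, Finset.sum_smul, smul_smul]
      rw [Finset.sum_comm]
    rw [g1]
    refine Finset.sum_congr rfl fun b _ => ?_
    rw [hc]
  simp only [smul_add, Finset.sum_add_distrib] at f2
  rw [f1, f2, add_assoc]

end Pool.Agent.Helper82.TI2
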