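import Pool.Agent.Helper82.TI2.Span
import Pool.Agent.Helper82.TI2.Star
import Pool.Agent.Helper82.TI2.XOk
import Pool.Agent.Helper82.TI2.Det

/-!
# Project TI, second part: the family of data and its ranks
-/

open Finset

namespace Pool.Agent.Helper82.TI2

open Pool.Agent.Helper82.TI Pool.Agent.Helper82.TI.Fan

variable {K V : Type} [Field K] [LinearOrder K] [IsStrictOrderedRing K] [Fintype V]
  [DecidableEq V] {D : ℕ} {G : SimpleGraph V}

/-- The facets. -/
abbrev Fc (G : SimpleGraph V) (D : ℕ) : Type := {f : Finset V // G.IsNClique (D + 1) f}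

/-- The vector `(c, 1)`. -/
def ct (c : Fin D → K) : Fin (D + 1) → K := Fin.snoc (α := fun _ => K) c 1

/-- The generic point of the superposition. -/
def cS (c : V → Fin D → K) (s : V → K) : Fin (D + 1) → K := fun b => ∑ j, s j * ct (c j) b

/-- Data from coordinates and weights. -/
noncomputable def mk2 (G : SimpleGraph V) (D : ℕ) (X : V → Fc G D → K) (w : Fc G D → K)
    (rk : Finset V → ℕ) (c2 : K) : Dat K V (Fc G D) Empty where
  d := D + 1
  fac f := f.1
  X := X
  w := w
  R f := Rs G (D + 1) rk f.1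
  rk f := rk f.1
  x := fun _ e => e.elim
  c2 := c2

/-- The coordinates of the superposition. -/
noncomputable def XS (q : V → V → Fin (D + 1) → K) (c : V → Fin D → K) (s : V → K) (v : V)
    (f : Fc G D) : K := co (pS q s) f.1 (cS c s) v

/-- The coordinates in the star of `j`. -/
noncomputable def XE (q : V → V → Fin (D + 1) → K) (c : V → Fin D → K) (j : V) (s : V → K)
    (v : V) (f : Fc G D) : K := if j ∈ f.1 then XS q c s v f else 0

/-- The scaled coordinates in the star of `j`, polynomials in the parameter. -/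
noncomputable def XJ (q : V → V → Fin (D + 1) → K) (c : V → Fin D → K) (j : V) (s : V → K)
    (v : V) (f : Fc G D) : K :=
  if j ∈ f.1 ∧ v ∈ f.1 then
    (Mx (fun u => if u = v then cS c s else pS q s u) f.1).det *
      ∏ g ∈ (univ.filter (fun g : Fc G D => j ∈ g.1)).erase f, (Mx (pS q s) g.1).det
  else 0

theorem pS_single (q : V → V → Fin (D + 1) → K) (j : V) :
    pS q (Pi.single j 1) = q j := by
  funext v b
  rw [pS, Finset.sum_eq_single j]
  · rw [Pi.single_eq_same, one_mul]
  · intro i _ hi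
    rw [Pi.single_eq_of_ne hi, zero_mul]
  · intro h
    exact absurd (mem_univ j) h

theorem cS_single (c : V → Fin D → K) (j : V) : cS c (Pi.single j 1) = ct (c j) := by
  funext b
  rw [cS, Finset.sum_eq_single j]
  · rw [Pi.single_eq_same, one_mul]
  · intro i _ hi
    rw [Pi.single_eq_of_ne hi, zero_mul]
  · intro h
    exact absurd (mem_univ j) h

theorem XJ_eq (q : V → V → Fin (D + 1) → K) (c : V → Fin D → K) (j : V) (s : V → K)
    (h : ∀ g : Fc G D, j ∈ g.1 → (Mx (pS q s) g.1).det ≠ 0) (v : V) (f : Fc G D)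
    (hj : j ∈ f.1) :
    XJ q c j s v f = (∏ g ∈ univ.filter (fun g : Fc G D => j ∈ g.1), (Mx (pS q s) g.1).det) *
      XS q c s v f := by
  unfold XJ XS
  by_cases hv : v ∈ f.1
  · rw [if_pos ⟨hj, hv⟩, ← cramer f.2.card_eq (h f hj) (cS c s) hv,
      ← Finset.mul_prod_erase (univ.filter (fun g : Fc G D => j ∈ g.1))
        (fun g => (Mx (pS q s) g.1).det) (a := f) (mem_filter.2 ⟨mem_univ _, hj⟩)]
    ring
  · rw [if_neg (fun h => hv h.2), co_supp _ _ _ hv, mul_zero]

theorem cS_isP (c : V → Fin D → K) (b : Fin (D + 1)) : IsP (fun s : V → K => cS c s b) :=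
  IsP.sum univ (fun j _ => (IsP.coord j).mul (IsP.const _))

theorem pS_isP (q : V → V → Fin (D + 1) → K) (v : V) (b : Fin (D + 1)) :
    IsP (fun s : V → K => pS q s v b) :=
  IsP.sum univ (fun j _ => (IsP.coord j).mul (IsP.const _))

theorem det_isP (q : V → V → Fin (D + 1) → K) (f : Finset V) :
    IsP (fun s : V → K => (Mx (pS q s) f).det) :=
  Mx_isP (fun v b => pS_isP q v b) f

theorem detN_isP (q : V → V → Fin (D + 1) → K) (c : V → Fin D → K) (v : V) (f : Finset V) :
    IsP (fun s : V → K => (Mx (fun u => if u = v then cS c s else pS q s u) f).det) := by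
  refine Mx_isP (fun u b => ?_) f
  by_cases h : u = v
  · have e : (fun s : V → K => (if u = v then cS c s else pS q s u) b) =
        fun s => cS c s b := by
      funext s
      rw [if_pos h]
    rw [e]
    exact cS_isP c b
  · have e : (fun s : V → K => (if u = v then cS c s else pS q s u) b) =
        fun s => pS q s u b := by
      funext s
      rw [if_neg h]
    rw [e]
    exact pS_isP q u b

theorem XJ_isP (q : V → V → Fin (D + 1) → K) (c : V → Fin D → K) (j v : V) (f : Fc G D) :
    IsP (fun s : V → K => XJ q c j s v f) := by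
  unfold XJ
  by_cases h : j ∈ f.1 ∧ v ∈ f.1
  · have e : (fun s : V → K => if j ∈ f.1 ∧ v ∈ f.1 then
        (Mx (fun u => if u = v then cS c s else pS q s u) f.1).det *
        ∏ g ∈ (univ.filter (fun g : Fc G D => j ∈ g.1)).erase f, (Mx (pS q s) g.1).det
        else 0) = fun s => (Mx (fun u => if u = v then cS c s else pS q s u) f.1).det *
        ∏ g ∈ (univ.filter (fun g : Fc G D => j ∈ g.1)).erase f, (Mx (pS q s) g.1).det := by
      funext s
      rw [if_pos h]
    rw [e]
    exact (detN_isP q c v f.1).mul (IsP.prod _ (fun g _ => det_isP q g.1))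
  · have e : (fun s : V → K => if j ∈ f.1 ∧ v ∈ f.1 then
        (Mx (fun u => if u = v then cS c s else pS q s u) f.1).det *
        ∏ g ∈ (univ.filter (fun g : Fc G D => j ∈ g.1)).erase f, (Mx (pS q s) g.1).det
        else 0) = fun _ => 0 := by
      funext s
      rw [if_neg h]
    rw [e]
    exact IsP.const 0

variable {n : V → Type} [∀ j, Fintype (n j)] {A : Type} [Fintype A] [DecidableEq A]

theorem GS_isP (q : V → V → Fin (D + 1) → K) (x : ∀ j, V → n j → K)
    (γ : ((Σ j, n j) ⊕ Fin (D + 1)) → Matrix A A K) (β : V × Fin (D + 1) → Matrix A A K)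
    (v : V) (a b : A) : IsP (fun s : V → K => GS q x γ β s v a b) := by
  have e : (fun s : V → K => GS q x γ β s v a b) = fun s =>
      ((∑ j, ∑ i, (s j * x j v i) * γ (Sum.inl ⟨j, i⟩) a b) +
        (∑ i, pS q s v i * γ (Sum.inr i) a b)) + ∑ j, ∑ i, (s j * q j v i) * β (j, i) a b := by
    funext s
    unfold GS
    simp only [Matrix.add_apply, Matrix.sum_apply, Matrix.smul_apply, smul_eq_mul]
  rw [e]
  refine ((IsP.sum univ (fun j _ => IsP.sum univ (fun i _ => ?_))).add
    (IsP.sum univ (fun i _ => ?_))).add (IsP.sum univ (fun j _ => IsP.sum univ (fun i _ => ?_)))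
  · exact ((IsP.coord j).mul (IsP.const _)).mul (IsP.const _)
  · exact (pS_isP q v i).mul (IsP.const _)
  · exact ((IsP.coord j).mul (IsP.const _)).mul (IsP.const _)

theorem uG_isP (q : V → V → Fin (D + 1) → K) (c : V → Fin D → K) (x : ∀ j, V → n j → K)
    (γ : ((Σ j, n j) ⊕ Fin (D + 1)) → Matrix A A K) (β : V × Fin (D + 1) → Matrix A A K)
    (rk : Finset V → ℕ) (j : V) (τ : Finset V) (i : ℕ) (θ : Multiset V × A × Bool) (a : A)
    (f : Fc G D) :
    IsP (fun s : V → K => uG (mk2 G D (XJ q c j s) (fun _ => 0) rk 0) (GS q x γ β s) τ i θ a f) := by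
  have hgen : ∀ (a : A), IsP (fun s : V → K =>
      gen (mk2 G D (XJ q c j s) (fun _ => 0) rk 0) τ θ.1 θ.2.1 a f) := by
    intro a
    by_cases h : a = θ.2.1 ∧ τ ⊆ f.1
    · have e : (fun s : V → K =>
          gen (mk2 G D (XJ q c j s) (fun _ => 0) rk 0) τ θ.1 θ.2.1 a f) =
          fun s => (θ.1.map (fun v => XJ q c j s v f)).prod := by
        funext s
        exact if_pos h
      rw [e]
      exact IsP.mprod θ.1 (fun v => XJ_isP q c j v f)
    · have e : (fun s : V → K =>
          gen (mk2 G D (XJ q c j s) (fun _ => 0) rk 0) τ θ.1 θ.2.1 a f) = fun _ => 0 := by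
        funext s
        exact if_neg h
      rw [e]
      exact IsP.const 0
  by_cases h1 : Multiset.card θ.1 < i
  · by_cases h2 : θ.2.2 = true
    · have e : (fun s : V → K =>
          uG (mk2 G D (XJ q c j s) (fun _ => 0) rk 0) (GS q x γ β s) τ i θ a f) =
          fun s => ∑ v, XJ q c j s v f * ∑ b, GS q x γ β s v a b *
            gen (mk2 G D (XJ q c j s) (fun _ => 0) rk 0) τ θ.1 θ.2.1 b f := by
        funext s
        unfold uG
        rw [if_pos h1, if_pos h2]
        rfl
      rw [e]
      exact IsP.sum univ (fun v _ => (XJ_isP q c j v f).mul (IsP.sum univ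
        (fun b _ => (GS_isP q x γ β v a b).mul (hgen b))))
    · have e : (fun s : V → K =>
          uG (mk2 G D (XJ q c j s) (fun _ => 0) rk 0) (GS q x γ β s) τ i θ a f) =
          fun s => gen (mk2 G D (XJ q c j s) (fun _ => 0) rk 0) τ θ.1 θ.2.1 a f := by
        funext s
        unfold uG
        rw [if_pos h1, if_neg h2]
      rw [e]
      exact hgen a
  · have e : (fun s : V → K =>
        uG (mk2 G D (XJ q c j s) (fun _ => 0) rk 0) (GS q x γ β s) τ i θ a f) = fun _ => 0 := by
      funext s
      unfold uG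
      rw [if_neg h1]
      rfl
    rw [e]
    exact IsP.const 0

/-- The dimensions at the special point are at most the generic dimensions. -/
theorem rank_open (q : V → V → Fin (D + 1) → K) (c : V → Fin D → K) (x : ∀ j, V → n j → K)
    (γ : ((Σ j, n j) ⊕ Fin (D + 1)) → Matrix A A K) (β : V × Fin (D + 1) → Matrix A A K)
    (rk : Finset V → ℕ) (j : V) (τ : Finset V) (i : ℕ) :
    ∃ g : (V → K) → K, IsP g ∧ g (Pi.single j 1) ≠ 0 ∧ ∀ s, g s ≠ 0 →
      Module.finrank K (Bg (mk2 G D (XJ q c j (Pi.single j 1)) (fun _ => 0) rk 0)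
        (GS q x γ β (Pi.single j 1)) τ i) ≤
      Module.finrank K (Bg (mk2 G D (XJ q c j s) (fun _ => 0) rk 0) (GS q x γ β s) τ i) := by
  obtain ⟨g, h1, h2, h3⟩ := open_rank
    (fun (θ : Multiset V × A × Bool) (s : V → K) =>
      uG (mk2 G D (XJ q c j s) (fun _ => 0) rk 0) (GS q x γ β s) τ i θ)
    (fun θ a f => uG_isP q c x γ β rk j τ i θ a f) (Pi.single j 1)
  refine ⟨g, h1, h2, fun s hs => ?_⟩
  rw [Bg_span, Bg_span]
  exact h3 s hs

end Pool.Agent.Helper82.TI2
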