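import Pool.Agent.Helper82.TI2.BDim2
import Pool.Agent.Helper82.TI2.Count2

/-!
# Project TI, second part: the inequality from exactness, without signs

PROOF. G' v = transpose of G v. Let b 0 = 0, b (j+1) = 2 Hn (j+1) ∅ - b j (integers). By finrank_Bg,
Bg_zero: finrank (Bg G ∅ j) = card A * b j = finrank (Bg G' ∅ j) for j ≤ k. The two spaces
Bg G ∅ k and Bg G' ∅ k are ORTHOGONAL for W ∅: for all z, z': W (Og G z) z' = W z (Og G' z') (finite
sums, at each facet the transpose), so W (p + Og G q) (p' + Og G' q') = W p p' + W p (Og G' q') +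
W q (Og G' p') + W q (Og G' (Og G' q')), the last = c2 W q q'; all zero by W_zeroA
(k + (k+1) + 0 ≤ d + 1). W ∅ is nondegenerate (w f * Xp ∅ f = w f ≠ 0), so the sum of the dimensions
is at most the dimension card A * card ι of all functions: card A * 2 b k ≤ card A * card ι,
card A > 0. sgn_eqA with τ = ∅: (-1)^k ∑ (-1)^#(R f) = card ι - 2 b k ≥ 0 (Nn ∅ = card ι,
R f \ ∅ = R f).
-/

open Finset

namespace Pool.Agent.Helper82.TI2

open Pool.Agent.Helper82.TI

variable {K V ι n A : Type} [Field K] [LinearOrder K] [IsStrictOrderedRing K] [DecidableEq V]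
  [Fintype V] [Fintype ι] [Fintype n] [Fintype A] [DecidableEq A]

private theorem W_add_left (D : Dat K V ι n) (τ : Finset V) (x x' y : A → ι → K) :
    D.W τ (x + x') y = D.W τ x y + D.W τ x' y := by
  simp only [Dat.W, Pi.add_apply, add_mul, Finset.sum_add_distrib, mul_add]

private theorem W_add_right (D : Dat K V ι n) (τ : Finset V) (x y y' : A → ι → K) :
    D.W τ x (y + y') = D.W τ x y + D.W τ x y' := by
  simp only [Dat.W, Pi.add_apply, Finset.sum_add_distrib, mul_add]

private theorem W_smul_left (D : Dat K V ι n) (τ : Finset V) (r : K) (x y : A → ι → K) :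
    D.W τ (r • x) y = r * D.W τ x y := by
  simp only [Dat.W, Pi.smul_apply, smul_eq_mul, Finset.mul_sum]
  refine Finset.sum_congr rfl (fun f _ => Finset.sum_congr rfl (fun a _ => ?_))
  ring

private theorem W_smul_right (D : Dat K V ι n) (τ : Finset V) (r : K) (x y : A → ι → K) :
    D.W τ x (r • y) = r * D.W τ x y := by
  simp only [Dat.W, Pi.smul_apply, smul_eq_mul, Finset.mul_sum]
  refine Finset.sum_congr rfl (fun f _ => Finset.sum_congr rfl (fun a _ => ?_))
  ring

private theorem W_adj (D : Dat K V ι n) (G : V → Matrix A A K) (τ : Finset V)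
    (x y : A → ι → K) :
    D.W τ (Og D G x) y = D.W τ x (Og D (fun v => (G v).transpose) y) := by
  unfold Dat.W
  refine Finset.sum_congr rfl (fun f _ => ?_)
  congr 1
  have e1 : ∀ a, Og D G x a f = ∑ v, D.X v f * ∑ b, G v a b * x b f := fun _ => rfl
  have e2 : ∀ a, Og D (fun v => (G v).transpose) y a f =
      ∑ v, D.X v f * ∑ b, G v b a * y b f := fun _ => rfl
  simp only [e1, e2, Finset.sum_mul, Finset.mul_sum]
  calc ∑ a, ∑ v, ∑ b, D.X v f * (G v a b * x b f) * y a f
      = ∑ v, ∑ a, ∑ b, D.X v f * (G v a b * x b f) * y a f := Finset.sum_comm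
    _ = ∑ v, ∑ b, ∑ a, D.X v f * (G v a b * x b f) * y a f :=
        Finset.sum_congr rfl (fun v _ => Finset.sum_comm)
    _ = ∑ v, ∑ b, ∑ a, x b f * (D.X v f * (G v a b * y a f)) := by
        refine Finset.sum_congr rfl (fun v _ => Finset.sum_congr rfl (fun b _ =>
          Finset.sum_congr rfl (fun a _ => ?_)))
        ring
    _ = ∑ b, ∑ v, ∑ a, x b f * (D.X v f * (G v a b * y a f)) := Finset.sum_comm

private theorem Bg_orth {D : Dat K V ι n} (hD : OkA D) {G : V → Matrix A A K} {k : ℕ}
    (h : 2 * k = D.d)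
    (hO' : ∀ z : A → ι → K, Og D (fun v => (G v).transpose) (Og D (fun v => (G v).transpose) z) =
      D.c2 • z) {x y : A → ι → K} (hx : x ∈ Bg D G ∅ k)
    (hy : y ∈ Bg D (fun v => (G v).transpose) ∅ k) : D.W ∅ x y = 0 := by
  obtain ⟨p, hp, q, hq, rfl⟩ := mem_Bg.1 hx
  obtain ⟨p', hp', q', hq', rfl⟩ := mem_Bg.1 hy
  have hc : (∅ : Finset V).card = 0 := Finset.card_empty
  have h1 : D.W ∅ p p' = 0 := W_zeroA hD (by rw [hc]; omega) hp hp'
  have h2 : D.W ∅ p (Og D (fun v => (G v).transpose) q') = 0 :=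
    W_zeroA hD (by rw [hc]; omega) hp (FS_Og D (fun v => (G v).transpose) hq')
  have h3 : D.W ∅ (Og D G q) p' = 0 :=
    W_zeroA hD (by rw [hc]; omega) (FS_Og D G hq) hp'
  have h4 : D.W ∅ q q' = 0 := W_zeroA hD (by rw [hc]; omega) hq hq'
  have h5 : D.W ∅ (Og D G q) (Og D (fun v => (G v).transpose) q') = 0 := by
    rw [W_adj, hO', W_smul_right, h4, mul_zero]
  rw [W_add_left, W_add_right, W_add_right, h1, h2, h3, h5]
  ring

private theorem orth_finrank {D : Dat K V ι n} (hD : OkA D) (P Q : Submodule K (A → ι → K))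
    (hPQ : ∀ x ∈ P, ∀ y ∈ Q, D.W ∅ x y = 0) :
    Module.finrank K P + Module.finrank K Q ≤ Fintype.card A * Fintype.card ι := by
  classical
  let T : (A → ι → K) →ₗ[K] Module.Dual K (A → ι → K) :=
    LinearMap.mk₂ K (fun y x => D.W ∅ x y) (fun y y' x => W_add_right D ∅ x y y')
      (fun r y x => W_smul_right D ∅ r x y) (fun y x x' => W_add_left D ∅ x x' y)
      (fun r y x => W_smul_left D ∅ r x y)
  have hT : ∀ y x, T y x = D.W ∅ x y := fun _ _ => rfl
  have hinj : ∀ y, T y = 0 → y = 0 := by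
    intro y hy
    funext a f
    have h1 : T y (Pi.single a (Pi.single f 1)) = 0 := by rw [hy]; rfl
    rw [hT] at h1
    have h2 : D.W ∅ (Pi.single a (Pi.single f 1)) y = D.w f * y a f := by
      unfold Dat.W Dat.Xp
      rw [Finset.sum_eq_single f]
      · rw [Finset.prod_empty, mul_one, Finset.sum_eq_single a]
        · rw [Pi.single_eq_same, Pi.single_eq_same, one_mul]
        · intro b _ hb
          rw [Pi.single_eq_of_ne hb, Pi.zero_apply, zero_mul]
        · intro h
          exact absurd (Finset.mem_univ _) h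
      · intro g _ hg
        have h3 : ∑ b, (Pi.single a (Pi.single f 1) : A → ι → K) b g * y b g = 0 := by
          refine Finset.sum_eq_zero (fun b _ => ?_)
          by_cases hb : b = a
          · rw [hb, Pi.single_eq_same, Pi.single_eq_of_ne hg, zero_mul]
          · rw [Pi.single_eq_of_ne hb, Pi.zero_apply, zero_mul]
        rw [h3, mul_zero]
      · intro h
        exact absurd (Finset.mem_univ _) h
    rw [h2] at h1
    rcases mul_eq_zero.1 h1 with h3 | h3
    · exact absurd h3 (hD.w_ne f)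
    · exact h3
  have hmem : ∀ y : Q, (T.comp Q.subtype) y ∈ P.dualAnnihilator := by
    intro y
    rw [Submodule.mem_dualAnnihilator]
    intro x hx
    exact hPQ x hx y.1 y.2
  have hQ : Module.finrank K Q ≤ Module.finrank K P.dualAnnihilator := by
    let φ : Q →ₗ[K] P.dualAnnihilator :=
      (T.comp Q.subtype).codRestrict P.dualAnnihilator hmem
    apply LinearMap.finrank_le_finrank_of_injective (f := φ)
    rw [injective_iff_map_eq_zero]
    intro y hy
    have h0 : T y.1 = 0 := congrArg Subtype.val hy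
    exact Subtype.ext (hinj y.1 h0)
  have hsum := Subspace.finrank_add_finrank_dualAnnihilator_eq P
  have hS : Module.finrank K (A → ι → K) = Fintype.card A * Fintype.card ι := by
    rw [Module.finrank_pi_fintype, Finset.sum_const, Finset.card_univ, smul_eq_mul,
      Module.finrank_pi]
  omega

private def bs (u : ℕ → ℤ) : ℕ → ℤ
  | 0 => 0
  | j + 1 => 2 * u (j + 1) - bs u j

private theorem finrank_bs {D : Dat K V ι n} (hD : OkA D) {G : V → Matrix A A K} {k : ℕ}
    (h : 2 * k = D.d) (hO : ∀ z : A → ι → K, Og D G (Og D G z) = D.c2 • z)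
    (hV : ∀ j < k, VG D G ∅ j) : ∀ j ≤ k,
    (Module.finrank K (Bg D G ∅ j) : ℤ) =
      Fintype.card A * bs (fun i => (D.Hn i ∅ : ℤ)) j := by
  intro j
  induction j with
  | zero =>
    intro _
    rw [Bg_zero, finrank_bot]
    simp [bs]
  | succ j ih =>
    intro hj
    have h1 := ih (by omega)
    have hc : (∅ : Finset V).card = 0 := Finset.card_empty
    have h2 := finrank_Bg hD hO (i := j) (τ := ∅) (by rw [hc]; omega) (hV j (by omega))
    have h3 : (Module.finrank K (Bg D G ∅ (j + 1)) : ℤ) + Module.finrank K (Bg D G ∅ j) =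
        2 * (Fintype.card A * D.Hn (j + 1) ∅) := by exact_mod_cast h2
    have h4 : bs (fun i => (D.Hn i ∅ : ℤ)) (j + 1) =
        2 * (D.Hn (j + 1) ∅ : ℤ) - bs (fun i => (D.Hn i ∅ : ℤ)) j := rfl
    rw [h4]
    linarith

theorem fin2 [Nonempty A] {D : Dat K V ι n} (hD : OkA D) {G : V → Matrix A A K} {k : ℕ}
    (h : 2 * k = D.d)
    (hO : ∀ z : A → ι → K, Og D G (Og D G z) = D.c2 • z)
    (hO' : ∀ z : A → ι → K, Og D (fun v => (G v).transpose) (Og D (fun v => (G v).transpose) z) =
      D.c2 • z)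
    (hV : ∀ j < k, VG D G ∅ j) (hV' : ∀ j < k, VG D (fun v => (G v).transpose) ∅ j) :
    0 ≤ (-1 : ℤ) ^ k * ∑ f, (-1 : ℤ) ^ (D.R f).card := by
  classical
  have hc : (∅ : Finset V).card = 0 := Finset.card_empty
  have e1 := finrank_bs hD h hO hV k le_rfl
  have e2 := finrank_bs hD h hO' hV' k le_rfl
  have e3 := orth_finrank hD (Bg D G ∅ k) (Bg D (fun v => (G v).transpose) ∅ k)
    (fun x hx y hy => Bg_orth hD h hO' hx hy)
  have e4 : (Module.finrank K (Bg D G ∅ k) : ℤ) +
      Module.finrank K (Bg D (fun v => (G v).transpose) ∅ k) ≤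
      Fintype.card A * Fintype.card ι := by exact_mod_cast e3
  rw [e1, e2] at e4
  have hA : (0 : ℤ) < Fintype.card A := by exact_mod_cast Fintype.card_pos
  have e5 : 2 * bs (fun i => (D.Hn i ∅ : ℤ)) k ≤ Fintype.card ι := by
    have h1 : (Fintype.card A : ℤ) * (2 * bs (fun i => (D.Hn i ∅ : ℤ)) k) ≤
        Fintype.card A * Fintype.card ι := by linarith
    exact le_of_mul_le_mul_left h1 hA
  have e6 := sgn_eqA hD (l := k) (τ := ∅) (by rw [hc]; omega)
    (fun i j hij => Hn_symmA hD hij) (bs (fun i => (D.Hn i ∅ : ℤ))) rfl (by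
      intro j _
      have h4 : bs (fun i => (D.Hn i ∅ : ℤ)) (j + 1) =
        2 * (D.Hn (j + 1) ∅ : ℤ) - bs (fun i => (D.Hn i ∅ : ℤ)) j := rfl
      rw [h4]
      ring)
  have e7 : univ.filter (fun f => (∅ : Finset V) ⊆ D.fac f) = univ :=
    Finset.filter_true_of_mem (fun f _ => Finset.empty_subset _)
  have e8 : D.Nn ∅ = Fintype.card ι := by
    unfold Dat.Nn
    rw [e7, Finset.card_univ]
  rw [e7, e8] at e6
  simp only [Finset.sdiff_empty] at e6
  rw [e6]
  linarith

end Pool.Agent.Helper82.TI2
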