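import Pool.Agent.Helper82.TI2.Rex2

/-!
# Project TI, second part: local decompositions are global, general operators
-/

open Finset

namespace Pool.Agent.Helper82.TI2

open Pool.Agent.Helper82.TI

variable {K V ι n A : Type} [Field K] [LinearOrder K] [IsStrictOrderedRing K] [DecidableEq V]
  [Fintype V] [Fintype ι] [Fintype n] [Fintype A] [DecidableEq A]

theorem FS_Og (D : Dat K V ι n) (G : V → Matrix A A K) {i : ℕ} {τ : Finset V} {z : A → ι → K}
    (hz : z ∈ D.FS A i τ) : Og D G z ∈ D.FS A (i + 1) τ := by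
  rw [Dat.FS, Submodule.mem_pi] at hz ⊢
  intro a _
  have hin : ∀ v : V, (∑ b : A, G v a b • z b) ∈ D.Fs i τ := fun v =>
    Submodule.sum_mem _ (fun b _ => Submodule.smul_mem _ _ (hz b (Set.mem_univ b)))
  have hX : ∀ v : V, (fun f : ι => D.X v f * (∑ b : A, G v a b • z b) f) ∈
      D.Fs (i + 1) τ := fun v => Fs_X D (hin v) v
  have heq : Og D G z a = ∑ v : V, (fun f : ι => D.X v f * (∑ b : A, G v a b • z b) f) := by
    funext f
    change ∑ v, D.X v f * ∑ b, G v a b * z b f = _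
    rw [Finset.sum_apply]
    refine Finset.sum_congr rfl (fun v _ => ?_)
    simp only [Finset.sum_apply, Pi.smul_apply, smul_eq_mul]
  rw [heq]
  exact Submodule.sum_mem _ (fun v _ => hX v)

theorem rs_Og (D : Dat K V ι n) (G : V → Matrix A A K) (τ : Finset V) (z : A → ι → K) :
    D.rs τ (Og D G z) = Og D G (D.rs τ z) := by
  funext a f
  have e1 : D.rs τ (Og D G z) a f = if τ ⊆ D.fac f then Og D G z a f else 0 := rfl
  have e2 : ∀ b, D.rs τ z b f = if τ ⊆ D.fac f then z b f else 0 := fun _ => rfl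
  have e3 : Og D G (D.rs τ z) a f = ∑ v, D.X v f * ∑ b, G v a b * D.rs τ z b f := rfl
  have e4 : Og D G z a f = ∑ v, D.X v f * ∑ b, G v a b * z b f := rfl
  rw [e1, e3]
  by_cases h : τ ⊆ D.fac f
  · rw [if_pos h, e4]
    refine Finset.sum_congr rfl (fun j _ => ?_)
    congr 1
    refine Finset.sum_congr rfl (fun b _ => ?_)
    rw [e2, if_pos h]
  · rw [if_neg h]
    symm
    refine Finset.sum_eq_zero (fun v _ => ?_)
    have h0 : ∑ b, G v a b * D.rs τ z b f = 0 :=
      Finset.sum_eq_zero (fun b _ => by rw [e2, if_neg h, mul_zero])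
    rw [h0, mul_zero]

private theorem dl_Og (D : Dat K V ι n) (G : V → Matrix A A K) (τ : Finset V) {r : ℕ}
    (φ : (Fin r → Y τ) → A → ι → K) :
    D.dl τ (fun s => Og D G (φ s)) = fun s => Og D G (D.dl τ φ s) := by
  funext s
  unfold Dat.dl
  rw [map_sum]
  refine sum_congr rfl (fun j _ => ?_)
  rw [map_smul, rs_Og]

private theorem glue_aux {D : Dat K V ι n} (hD : OkA D) {G : V → Matrix A A K}
    (hO : ∀ z : A → ι → K, Og D G (Og D G z) = D.c2 • z) {τ : Finset V}
    (IH : ∀ ρ : Finset V, τ ⊂ ρ → ∀ j, 2 * j + ρ.card < D.d → VG D G ρ j) (i : ℕ) :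
    ∀ r : ℕ, 2 * i + (r + 1) + τ.card ≤ D.d → ∀ w : (Fin (r + 1) → Y τ) → A → ι → K,
      D.dl τ w = 0 →
      (∀ s, ∃ p ∈ D.FS A i (im τ s), ∃ q ∈ D.FS A i (im τ s), w s = p + Og D G q) →
      ∃ p q : (Fin (r + 1) → Y τ) → A → ι → K, (∀ s, p s ∈ D.FS A i (im τ s)) ∧
        (∀ s, q s ∈ D.FS A i (im τ s)) ∧ D.dl τ p = 0 ∧ D.dl τ q = 0 ∧
        ∀ s, w s = p s + Og D G (q s) := by
  induction i with
  | zero =>
    intro r _ w _ hw
    have hdl0 : D.dl τ (0 : (Fin (r + 1) → Y τ) → A → ι → K) = 0 := by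
      have h1 := dl_smul D τ (0 : K) (0 : (Fin (r + 1) → Y τ) → A → ι → K)
      rw [zero_smul, zero_smul] at h1
      exact h1
    refine ⟨0, 0, fun s => Submodule.zero_mem _, fun s => Submodule.zero_mem _, hdl0, hdl0,
      fun s => ?_⟩
    obtain ⟨p, hp, q, hq, h⟩ := hw s
    rw [h, FS_zero D hp, FS_zero D hq]
    rfl
  | succ i ih =>
    intro r hr w hw0 hw
    choose p' hp' q' hq' hpq using hw
    -- the equation for the coboundaries
    have hwe : w = p' + fun s => Og D G (q' s) := by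
      funext s
      exact hpq s
    have hE1 : D.dl τ p' + (fun s => Og D G (D.dl τ q' s)) = 0 := by
      rw [← dl_Og, ← dl_add, ← hwe]
      exact hw0
    have hE2 : ∀ s, Og D G (D.dl τ q' s) = - D.dl τ p' s := by
      intro s
      have h1 := congrFun hE1 s
      rw [Pi.add_apply, Pi.zero_apply] at h1
      exact (neg_eq_of_add_eq_zero_right h1).symm
    have hEw : ∀ s, ∃ p ∈ D.FS A i (im τ s), ∃ q ∈ D.FS A i (im τ s),
        D.dl τ q' s = p + Og D G q := by
      intro s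
      have hc := card_im τ s
      refine IH (im τ s) (ssub_im τ s) i (by omega) (D.dl τ q' s) (dl_mem D hq' s) ?_
      rw [hE2 s]
      exact Submodule.neg_mem _ (dl_mem D hp' s)
    obtain ⟨e1, e2, he1, he2, hd1, hd2, he⟩ := ih (r + 1) (by omega) (D.dl τ q') (dl_dl D τ q') hEw
    obtain ⟨f1, hf1, hg1⟩ := R_exactA hD (r := r + 1) (i := i) (by omega) he1 hd1
    obtain ⟨f2, hf2, hg2⟩ := R_exactA hD (r := r + 1) (i := i) (by omega) he2 hd2
    have hmono : ∀ ρ : Finset V, D.FS A i ρ ≤ D.FS A (i + 1) ρ :=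
      fun ρ => FS_mono D (Nat.le_succ i) ρ
    have hq0 : D.dl τ (q' + -(f1 + fun s => Og D G (f2 s))) = 0 := by
      rw [dl_add, dl_neg, dl_add, dl_Og, hg1, hg2]
      funext s
      rw [Pi.add_apply, Pi.neg_apply, Pi.add_apply, he s, Pi.zero_apply]
      exact add_neg_cancel _
    have hsum : ∀ s, w s = (p' + ((fun s => Og D G (f1 s)) + D.c2 • f2)) s +
        Og D G ((q' + -(f1 + fun s => Og D G (f2 s))) s) := by
      intro s
      rw [hpq s]
      simp only [Pi.add_apply, Pi.neg_apply, Pi.smul_apply]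
      rw [map_add, map_neg, map_add, hO]
      abel
    refine ⟨p' + ((fun s => Og D G (f1 s)) + D.c2 • f2),
      q' + -(f1 + fun s => Og D G (f2 s)), fun s => ?_, fun s => ?_, ?_, hq0, hsum⟩
    · refine Submodule.add_mem _ (hp' s) (Submodule.add_mem _ (FS_Og D G (hf1 s))
        (Submodule.smul_mem _ _ (hmono _ (hf2 s))))
    · exact Submodule.add_mem _ (hq' s) (Submodule.neg_mem _
        (Submodule.add_mem _ (hmono _ (hf1 s)) (FS_Og D G (hf2 s))))
    · have h1 : w = (p' + ((fun s => Og D G (f1 s)) + D.c2 • f2)) +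
          fun s => Og D G ((q' + -(f1 + fun s => Og D G (f2 s))) s) := by
        funext s
        exact hsum s
      rw [h1, dl_add, dl_Og, hq0] at hw0
      have h2 : (fun s => Og D G ((0 : (Fin (r + 1 + 1) → Y τ) → A → ι → K) s)) =
          (0 : (Fin (r + 1 + 1) → Y τ) → A → ι → K) := by
        funext s
        rw [Pi.zero_apply, map_zero]
      rw [h2, add_zero] at hw0
      exact hw0

omit [Fintype V] in
private theorem im_one (τ : Finset V) (s : Fin (0 + 1) → Y τ) : im τ s = insert (s 0).1 τ := by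
  ext v
  unfold im
  simp only [mem_union, mem_image, mem_univ, true_and, mem_insert]
  constructor
  · rintro (h | ⟨j, hj⟩)
    · exact Or.inr h
    · left
      rw [← hj, show j = 0 from Fin.eq_zero j]
  · rintro (h | h)
    · exact Or.inr ⟨0, h.symm⟩
    · exact Or.inl h

omit [Fintype V] in
private theorem im_nil (τ : Finset V) (s : Fin 0 → Y τ) : im τ s = τ := by
  unfold im
  rw [Finset.univ_eq_empty, image_empty, union_empty]

private theorem dl_nil (D : Dat K V ι n) (τ : Finset V) (φ : (Fin 0 → Y τ) → A → ι → K)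
    (e : Fin 0 → Y τ) (s : Fin (0 + 1) → Y τ) : D.dl τ φ s = D.rs (insert (s 0).1 τ) (φ e) := by
  unfold Dat.dl
  rw [im_one]
  have h : ∀ j : Fin (0 + 1), (-1 : K) ^ (j : ℕ) •
      D.rs (insert (s 0).1 τ) (φ (fun i => s (j.succAbove i))) =
      D.rs (insert (s 0).1 τ) (φ e) := by
    intro j
    have hj : j = 0 := Fin.eq_zero j
    have he : (fun i : Fin 0 => s (j.succAbove i)) = e := Subsingleton.elim _ _
    rw [he, hj]
    simp
  rw [sum_congr rfl (fun j _ => h j)]
  simp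

theorem gluec {D : Dat K V ι n} (hD : OkA D) {G : V → Matrix A A K}
    (hO : ∀ z : A → ι → K, Og D G (Og D G z) = D.c2 • z) {τ : Finset V}
    (IH : ∀ ρ : Finset V, τ ⊂ ρ → ∀ j, 2 * j + ρ.card < D.d → VG D G ρ j) {i : ℕ}
    (h : 2 * i + τ.card < D.d) {z : A → ι → K}
    (hz : z ∈ D.FS A (i + 1) τ)
    (hloc : ∀ v ∉ τ, ∃ p ∈ D.FS A i (insert v τ), ∃ q ∈ D.FS A i (insert v τ),
      D.rs (insert v τ) z = p + Og D G q) :
    ∃ p ∈ D.FS A i τ, ∃ q ∈ D.FS A i τ, z = p + Og D G q := by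
  have hw0 : D.dl τ (fun s : Fin (0 + 1) → Y τ => D.rs (im τ s) z) = 0 := by
    funext s
    unfold Dat.dl
    rw [Fin.sum_univ_two, rs_rs D (im_sub τ s 0), rs_rs D (im_sub τ s 1)]
    simp
  obtain ⟨p, q, hp, hq, hp0, hq0, hpq⟩ := glue_aux hD hO IH i 0 (by omega)
    (fun s : Fin (0 + 1) → Y τ => D.rs (im τ s) z) hw0 (fun s => by
      show ∃ p ∈ D.FS A i (im τ s), ∃ q ∈ D.FS A i (im τ s), D.rs (im τ s) z = p + Og D G q
      rw [im_one]
      exact hloc _ (s 0).2)
  obtain ⟨p1, hp1, hpe⟩ := R_exactA hD (r := 0) (i := i) (by omega) hp hp0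
  obtain ⟨q1, hq1, hqe⟩ := R_exactA hD (r := 0) (i := i) (by omega) hq hq0
  have hP := hp1 Fin.elim0
  have hQ := hq1 Fin.elim0
  rw [im_nil] at hP hQ
  refine ⟨p1 Fin.elim0, hP, q1 Fin.elim0, hQ, ?_⟩
  funext a f
  by_cases hf : τ ⊆ D.fac f
  · obtain ⟨v, hv, hvτ⟩ := exists_mem_notMem_of_card_lt_card
      (show τ.card < (D.fac f).card by rw [hD.card f]; omega)
    have h1 := hpq (fun _ => ⟨v, hvτ⟩)
    rw [← hpe, ← hqe, dl_nil D τ p1 Fin.elim0, dl_nil D τ q1 Fin.elim0, ← rs_Og] at h1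
    dsimp only at h1
    rw [im_one] at h1
    have h2 := congrFun (congrFun h1 a) f
    have hin : insert v τ ⊆ D.fac f := insert_subset hv hf
    have h3 : ∀ y : A → ι → K, D.rs (insert v τ) y a f = y a f := fun y => if_pos hin
    rw [Pi.add_apply, Pi.add_apply] at h2
    rw [h3, h3, h3] at h2
    rw [Pi.add_apply, Pi.add_apply]
    exact h2
  · rw [Pi.add_apply, Pi.add_apply, FS_supp D hz hf a, FS_supp D hP hf a,
      FS_supp D (FS_Og D G hQ) hf a, add_zero]

theorem VG_all {D : Dat K V ι n} (hD : OkA D) {G : V → Matrix A A K}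
    (hO : ∀ z : A → ι → K, Og D G (Og D G z) = D.c2 • z)
    (hcrit : ∀ (τ : Finset V) (i : ℕ), 2 * i + τ.card + 1 = D.d → VG D G τ i) :
    ∀ m : ℕ, ∀ τ : Finset V, D.d ≤ τ.card + m → ∀ i, 2 * i + τ.card < D.d → VG D G τ i := by
  intro m
  induction m with
  | zero => intro τ h i hi; omega
  | succ m ih =>
    intro τ hτ i hi
    by_cases hc : 2 * i + τ.card + 1 = D.d
    · exact hcrit τ i hc
    intro z hz hz'
    have IH : ∀ ρ : Finset V, τ ⊂ ρ → ∀ j, 2 * j + ρ.card < D.d → VG D G ρ j := by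
      intro ρ hρ j hj
      have := card_lt_card hρ
      exact ih ρ (by omega) j hj
    apply gluec hD hO IH hi hz
    intro v hv
    have hcd : (insert v τ).card = τ.card + 1 := card_insert_of_notMem hv
    have h1 : D.rs (insert v τ) z ∈ D.FS A (i + 1) (insert v τ) :=
      FS_rs D (subset_insert v τ) hz
    have h2 : Og D G (D.rs (insert v τ) z) ∈ D.FS A (i + 1) (insert v τ) := by
      rw [← rs_Og]
      exact FS_rs D (subset_insert v τ) hz'
    exact IH _ (ssubset_insert hv) i (by omega) _ h1 h2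

end Pool.Agent.Helper82.TI2
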