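import Pool.Agent.Helper82.TI2.LinkG
import Pool.Agent.Helper82.TI2.Det

/-!
# Project TI, second part: coordinates in the star of a vertex

q j = (0, ..., 0, 1), q w = (p w, 0) for the neighbours w of j.
PROOFS. If lc q a = 0 with a supported on up f: the last coordinate is a j = 0, the others give
lc p (a restricted to f) = 0, so a = 0 (lin for hF). So det ≠ 0 (det_ne_iff). The function a with
a j = 1, a w = co p f c w for w ∈ f, 0 elsewhere is supported on up f and lc q a = (c, 1) (co_lc), so
co q (up f) (c, 1) = a (co_unique2).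
-/

open Finset

namespace Pool.Agent.Helper82.TI2

open Pool.Agent.Helper82.TI Pool.Agent.Helper82.TI.Fan

variable {K V : Type} [Field K] [LinearOrder K] [IsStrictOrderedRing K] [Fintype V]
  [DecidableEq V] {D : ℕ} {G : SimpleGraph V}

/-- Vectors for the star of `j` from vectors for its link. -/
noncomputable def qj (G : SimpleGraph V) (j : V) (p : V → Fin D → K) (v : V) : Fin (D + 1) → K :=
  if v = j then Fin.snoc (fun _ => (0 : K)) 1
  else if v ∈ nb G j then Fin.snoc (α := fun _ => K) (p v) 0 else 0

omit [LinearOrder K] [IsStrictOrderedRing K] in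
private theorem ne_of_nb {j w : V} (h : w ∈ nb G j) : w ≠ j := by
  rintro rfl
  exact G.irrefl (mem_nb.1 h)

omit [LinearOrder K] [IsStrictOrderedRing K] in
private theorem lc_qj (j : V) (p : V → Fin D → K) (a : V → K) :
    lc (qj G j p) a = Fin.snoc (α := fun _ => K)
      (lc (fun w : {w : V // w ∈ nb G j} => p w.1) (fun w => a w.1)) (a j) := by
  funext i
  refine Fin.lastCases ?_ (fun i => ?_) i
  · rw [Fin.snoc_last]
    unfold lc
    rw [Finset.sum_eq_single j]
    · unfold qj
      rw [if_pos rfl, Fin.snoc_last, mul_one]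
    · intro v _ hv
      unfold qj
      rw [if_neg hv]
      split_ifs
      · rw [Fin.snoc_last, mul_zero]
      · simp
    · intro h
      exact absurd (Finset.mem_univ _) h
  · rw [Fin.snoc_castSucc]
    unfold lc
    have h1 : ∀ v, a v * qj G j p v (Fin.castSucc i) = if v ∈ nb G j then a v * p v i else 0 := by
      intro v
      unfold qj
      by_cases hv : v = j
      · rw [if_pos hv, Fin.snoc_castSucc, mul_zero, if_neg]
        intro h
        exact ne_of_nb h hv
      · rw [if_neg hv]
        by_cases hn : v ∈ nb G j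
        · rw [if_pos hn, if_pos hn, Fin.snoc_castSucc]
        · rw [if_neg hn, if_neg hn]
          simp
    simp only [h1]
    rw [← Finset.sum_filter]
    rw [Finset.sum_subtype (Finset.univ.filter fun v => v ∈ nb G j) (p := fun w => w ∈ nb G j)
      (by simp) (fun v => a v * p v i)]

private theorem mem_up {j : V} {f : Finset {w : V // w ∈ nb G j}} {v : V} :
    v ∈ up G j f ↔ v = j ∨ ∃ h : v ∈ nb G j, (⟨v, h⟩ : {w : V // w ∈ nb G j}) ∈ f := by
  unfold up
  rw [Finset.mem_insert, Finset.mem_map]
  constructor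
  · rintro (h | ⟨w, hw, rfl⟩)
    · exact Or.inl h
    · exact Or.inr ⟨w.2, hw⟩
  · rintro (h | ⟨h, hv⟩)
    · exact Or.inl h
    · exact Or.inr ⟨_, hv, rfl⟩

theorem det_qj {j : V} {p : V → Fin D → K} (hF : IsFan (LkG G j) (fun w => p w.1))
    {g : Finset V} (hg : G.IsNClique (D + 1) g) (hj : j ∈ g) : (Mx (qj G j p) g).det ≠ 0 := by
  obtain ⟨f, hf, rfl⟩ := exists_up hg hj
  rw [det_ne_iff hg.card_eq]
  intro a ha h0
  rw [lc_qj] at h0
  have h1 : a j = 0 := by
    have := congrFun h0 (Fin.last D)
    rwa [Fin.snoc_last] at this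
  have h2 : lc (fun w : {w : V // w ∈ nb G j} => p w.1) (fun w => a w.1) = 0 := by
    funext i
    have := congrFun h0 (Fin.castSucc i)
    rwa [Fin.snoc_castSucc] at this
  have h3 := lin hF hf.isClique (a := fun w => a w.1) (fun w hw => ha w.1 (by
    intro h
    rcases mem_up.1 h with h | ⟨h, h'⟩
    · exact ne_of_nb w.2 h
    · exact hw h')) h2
  funext v
  by_cases hv : v ∈ up G j f
  · rcases mem_up.1 hv with rfl | ⟨h, h'⟩
    · exact h1
    · exact congrFun h3 ⟨v, h⟩
  · exact ha v hv

open scoped Classical in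
private theorem co_qj_eq {j : V} {p : V → Fin D → K} (hF : IsFan (LkG G j) (fun w => p w.1))
    {f : Finset {w : V // w ∈ nb G j}} (hf : (LkG G j).IsNClique D f) (c : Fin D → K) :
    co (qj G j p) (up G j f) (Fin.snoc (α := fun _ => K) c 1) =
      fun v => if v = j then 1 else if h : v ∈ nb G j then
        co (fun w : {w : V // w ∈ nb G j} => p w.1) f c ⟨v, h⟩ else 0 := by
  have hsupp : ∀ w, w ∉ f → co (fun w : {w : V // w ∈ nb G j} => p w.1) f c w = 0 := by
    intro w hw
    unfold co
    split_ifs with h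
    · exact h.choose_spec.1 w hw
    · rfl
  have hup := up_clique.2 hf
  have h1 := co_unique2 hup.card_eq (det_qj hF hup (mem_up.2 (Or.inl rfl)))
    (a := fun v => if v = j then 1 else if h : v ∈ nb G j then
        co (fun w : {w : V // w ∈ nb G j} => p w.1) f c ⟨v, h⟩ else 0) (by
      intro v hv
      have h2 : v ≠ j := fun h => hv (mem_up.2 (Or.inl h))
      simp only [if_neg h2]
      split_ifs with h3
      · exact hsupp _ fun h4 => hv (mem_up.2 (Or.inr ⟨h3, h4⟩))
      · rfl)
  rw [← h1, lc_qj]
  congr 2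
  · have h5 : (fun w : {w : V // w ∈ nb G j} => if w.1 = j then (1 : K) else
        if h : w.1 ∈ nb G j then
          co (fun w : {w : V // w ∈ nb G j} => p w.1) f c ⟨w.1, h⟩ else 0) =
        co (fun w : {w : V // w ∈ nb G j} => p w.1) f c := by
      funext w
      rw [if_neg (ne_of_nb w.2), dif_pos w.2]
    rw [h5, co_lc hF hf]
  · rw [if_pos rfl]

theorem co_qj {j : V} {p : V → Fin D → K} (hF : IsFan (LkG G j) (fun w => p w.1))
    {f : Finset {w : V // w ∈ nb G j}} (hf : (LkG G j).IsNClique D f) (c : Fin D → K)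
    (w : {w : V // w ∈ nb G j}) :
    co (qj G j p) (up G j f) (Fin.snoc (α := fun _ => K) c 1) w.1 =
      co (fun w : {w : V // w ∈ nb G j} => p w.1) f c w := by
  rw [co_qj_eq hF hf c]
  simp only [if_neg (ne_of_nb w.2), dif_pos w.2]

theorem co_qj_self {j : V} {p : V → Fin D → K} (hF : IsFan (LkG G j) (fun w => p w.1))
    {f : Finset {w : V // w ∈ nb G j}} (hf : (LkG G j).IsNClique D f) (c : Fin D → K) :
    co (qj G j p) (up G j f) (Fin.snoc (α := fun _ => K) c 1) j = 1 := by
  rw [co_qj_eq hF hf c]
  exact if_pos rfl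

end Pool.Agent.Helper82.TI2
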