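import Pool.Agent.Helper82.TI.Fan.Defs

/-!
# Project TI, second part: the link of a vertex

PROOFS. A set of neighbours of j is a clique iff together with j it is a clique. A clique with D + 1
elements containing j is up of the set of its other elements. LINK_SHELLING: inj from up_inj; for f, g
with rk (up g) < rk (up f): IsShelling.shell for up f, up g gives v ∈ up f, v ∉ up g (so v ≠ j) and h
with up f minus v ⊆ h, so j ∈ h, h = up h'. RS_UP: for w ∈ f: w ∈ Rs(LkG) f iff w ∈ Rs G (up f), same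
argument.
-/

open Finset

namespace Pool.Agent.Helper82.TI2

open Pool.Agent.Helper82.TI.Fan

variable {V : Type} [Fintype V] [DecidableEq V]

open scoped Classical in
/-- The neighbours of `j`. -/
noncomputable def nb (G : SimpleGraph V) (j : V) : Finset V := univ.filter (fun w => G.Adj j w)

/-- The graph of the link of `j`. -/
def LkG (G : SimpleGraph V) (j : V) : SimpleGraph {w : V // w ∈ nb G j} :=
  G.comap (fun w => w.1)

/-- The cone of a set of vertices of the link. -/
def up (G : SimpleGraph V) (j : V) (f : Finset {w : V // w ∈ nb G j}) : Finset V :=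
  insert j (f.map (Function.Embedding.subtype _))

theorem mem_nb {G : SimpleGraph V} {j w : V} : w ∈ nb G j ↔ G.Adj j w := by
  classical
  simp [nb]

private theorem mem_up {G : SimpleGraph V} {j x : V} {f : Finset {w : V // w ∈ nb G j}} :
    x ∈ up G j f ↔ x = j ∨ ∃ h : x ∈ nb G j, (⟨x, h⟩ : {w : V // w ∈ nb G j}) ∈ f := by
  unfold up
  rw [mem_insert, mem_map]
  constructor
  · rintro (h | ⟨w, hw, rfl⟩)
    · exact Or.inl h
    · exact Or.inr ⟨w.2, hw⟩
  · rintro (h | ⟨h, hw⟩)
    · exact Or.inl h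
    · exact Or.inr ⟨⟨x, h⟩, hw, rfl⟩

private theorem ne_of_nb {G : SimpleGraph V} {j : V} (w : {w : V // w ∈ nb G j}) : w.1 ≠ j :=
  (mem_nb.1 w.2).ne'

private theorem val_mem_up {G : SimpleGraph V} {j : V} {w : {w : V // w ∈ nb G j}}
    {f : Finset {w : V // w ∈ nb G j}} : w.1 ∈ up G j f ↔ w ∈ f := by
  rw [mem_up]
  constructor
  · rintro (h | ⟨_, h⟩)
    · exact absurd h (ne_of_nb w)
    · exact h
  · exact fun h => Or.inr ⟨w.2, h⟩

private theorem self_mem_up {G : SimpleGraph V} {j : V} {f : Finset {w : V // w ∈ nb G j}} :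
    j ∈ up G j f := mem_up.2 (Or.inl rfl)

private theorem card_up {G : SimpleGraph V} {j : V} (f : Finset {w : V // w ∈ nb G j}) :
    (up G j f).card = f.card + 1 := by
  unfold up
  rw [card_insert_of_notMem, card_map]
  intro h
  obtain ⟨w, _, hw⟩ := mem_map.1 h
  exact ne_of_nb w hw

theorem up_inj {G : SimpleGraph V} {j : V} {f g : Finset {w : V // w ∈ nb G j}}
    (h : up G j f = up G j g) : f = g := by
  ext w
  rw [← val_mem_up (f := f), ← val_mem_up (f := g), h]

theorem up_clique {G : SimpleGraph V} {j : V} {D : ℕ} {f : Finset {w : V // w ∈ nb G j}} :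
    G.IsNClique (D + 1) (up G j f) ↔ (LkG G j).IsNClique D f := by
  rw [SimpleGraph.isNClique_iff, SimpleGraph.isNClique_iff, card_up, Nat.add_right_cancel_iff]
  refine and_congr_left fun _ => ?_
  constructor
  · intro h a ha b hb hab
    have := h (mem_coe.2 (val_mem_up.2 (mem_coe.1 ha))) (mem_coe.2 (val_mem_up.2 (mem_coe.1 hb)))
      (fun e => hab (Subtype.ext e))
    exact this
  · intro h a ha b hb hab
    rcases mem_up.1 (mem_coe.1 ha) with rfl | ⟨ha1, ha2⟩
    · rcases mem_up.1 (mem_coe.1 hb) with rfl | ⟨hb1, _⟩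
      · exact absurd rfl hab
      · exact mem_nb.1 hb1
    · rcases mem_up.1 (mem_coe.1 hb) with rfl | ⟨hb1, hb2⟩
      · exact (mem_nb.1 ha1).symm
      · exact h (mem_coe.2 ha2) (mem_coe.2 hb2) (fun e => hab (congrArg Subtype.val e))

theorem exists_up {G : SimpleGraph V} {j : V} {D : ℕ} {g : Finset V}
    (hg : G.IsNClique (D + 1) g) (hj : j ∈ g) :
    ∃ f : Finset {w : V // w ∈ nb G j}, (LkG G j).IsNClique D f ∧ up G j f = g := by
  have key : up G j ((univ : Finset {w : V // w ∈ nb G j}).filter (fun w => w.1 ∈ g)) = g := by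
    ext x
    rw [mem_up]
    constructor
    · rintro (rfl | ⟨h, hx⟩)
      · exact hj
      · exact (mem_filter.1 hx).2
    · intro hx
      by_cases e : x = j
      · exact Or.inl e
      · refine Or.inr ⟨mem_nb.2 ?_, mem_filter.2 ⟨mem_univ _, hx⟩⟩
        exact hg.1 (mem_coe.2 hj) (mem_coe.2 hx) (fun h => e h.symm)
  refine ⟨_, up_clique.1 ?_, key⟩
  rw [key]
  exact hg

theorem link_shelling {G : SimpleGraph V} {D : ℕ} {rk : Finset V → ℕ}
    (hr : IsShelling G (D + 1) rk) (j : V) :
    IsShelling (LkG G j) D (fun f => rk (up G j f)) := by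
  constructor
  · intro f g hf hg h
    exact up_inj (hr.inj _ _ (up_clique.2 hf) (up_clique.2 hg) h)
  · intro f g hf hg h
    obtain ⟨v, hv, hvg, h', hh, hlt, hu⟩ := hr.shell _ _ (up_clique.2 hf) (up_clique.2 hg) h
    rcases mem_up.1 hv with rfl | ⟨hn, hvf⟩
    · exact absurd self_mem_up hvg
    · have hvj : v ≠ j := ne_of_nb ⟨v, hn⟩
      obtain ⟨f', hf', hup⟩ := exists_up hh (hu j self_mem_up hvj.symm)
      refine ⟨⟨v, hn⟩, hvf, fun hc => hvg (mem_up.2 (Or.inr ⟨hn, hc⟩)), f', hf', ?_, ?_⟩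
      · show rk (up G j f') < rk (up G j f)
        rw [hup]
        exact hlt
      · intro u huf hne
        have : u.1 ∈ up G j f' := by
          rw [hup]
          exact hu u.1 (val_mem_up.2 huf) (fun e => hne (Subtype.ext e))
        exact val_mem_up.1 this

private theorem mem_Rs {G : SimpleGraph V} {d : ℕ} {rk : Finset V → ℕ} {f : Finset V} {v : V} :
    v ∈ Rs G d rk f ↔ v ∈ f ∧ ∃ h : Finset V, G.IsNClique d h ∧ rk h < rk f ∧
      ∀ u ∈ f, u ≠ v → u ∈ h := by
  unfold Rs
  exact @mem_filter _ _ (_) _ _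

theorem Rs_up {G : SimpleGraph V} {D : ℕ} {rk : Finset V → ℕ} (j : V)
    {f : Finset {w : V // w ∈ nb G j}} (hf : (LkG G j).IsNClique D f) :
    (Rs (LkG G j) D (fun f => rk (up G j f)) f).map (Function.Embedding.subtype _) =
      (Rs G (D + 1) rk (up G j f)).erase j := by
  ext x
  rw [mem_map, mem_erase, mem_Rs]
  constructor
  · rintro ⟨w, hw, rfl⟩
    obtain ⟨hwf, h, hh, hlt, hu⟩ := mem_Rs.1 hw
    refine ⟨ne_of_nb w, val_mem_up.2 hwf, up G j h, up_clique.2 hh, hlt, ?_⟩
    intro u hu1 hu2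
    rcases mem_up.1 hu1 with rfl | ⟨hn, huf⟩
    · exact self_mem_up
    · exact mem_up.2 (Or.inr ⟨hn, hu ⟨u, hn⟩ huf (fun e => hu2 (congrArg Subtype.val e))⟩)
  · rintro ⟨hxj, hxf, h, hh, hlt, hu⟩
    rcases mem_up.1 hxf with e | ⟨hn, hxf'⟩
    · exact absurd e hxj
    · obtain ⟨f', hf', hup⟩ := exists_up hh (hu j self_mem_up (fun e => hxj e.symm))
      have h1 : rk (up G j f') < rk (up G j f) := by
        rw [hup]
        exact hlt
      have h2 : ∀ u ∈ f, u ≠ (⟨x, hn⟩ : {w : V // w ∈ nb G j}) → u ∈ f' := by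
        intro u huf hne
        have : u.1 ∈ up G j f' := by
          rw [hup]
          exact hu u.1 (val_mem_up.2 huf) (fun e => hne (Subtype.ext e))
        exact val_mem_up.1 this
      have h3 : (⟨x, hn⟩ : {w : V // w ∈ nb G j}) ∈
          Rs (LkG G j) D (fun f => rk (up G j f)) f := by
        rw [mem_Rs]
        exact ⟨hxf', f', hf', h1, h2⟩
      exact ⟨⟨x, hn⟩, h3, rfl⟩

end Pool.Agent.Helper82.TI2
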