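import Pool.Agent.Helper82.TI2.Det

/-!
# Project TI, second part: localization for vectors that need not form a fan

Adapt the proof of TI/Fan/Local.lean (project comment there): the combinatorics (every facet, every
ridge in exactly two facets) comes from the fan p0 (hF, ridge, part), the linear algebra from det ≠ 0
(co_lc2, co_unique2) and hc; δ f = ε f * det (Mx p f) satisfies δ g = - a v * δ f for
p w = lc p a (hε). In the ridge case: the two facets f = insert v σ and g = insert w σ:
c = lc p (co p g c), and with a = co p f (p w) (a v ≠ 0 by det ≠ 0 for g) co p f c v =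
co p g c w * a v, δ g * co p g c w = - a v * δ f * co p g c w = - δ f * co p f c v.
-/

open Finset

namespace Pool.Agent.Helper82.TI2

open Pool.Agent.Helper82.TI Pool.Agent.Helper82.TI.Fan

variable {K V : Type} [Field K] [LinearOrder K] [IsStrictOrderedRing K] [Fintype V]
  [DecidableEq V] {d : ℕ} {G : SimpleGraph V}

omit [LinearOrder K] [IsStrictOrderedRing K] [DecidableEq V] in
private theorem lc_map (ℓ : (Fin d → K) →ₗ[K] K) (p : V → Fin d → K) (a : V → K) :
    ℓ (lc p a) = ∑ w, a w * ℓ (p w) := by
  have h : lc p a = ∑ w, a w • p w := by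
    funext j
    simp [lc, Finset.sum_apply]
  rw [h, map_sum]
  simp

private theorem co_add {p : V → Fin d → K} {f : Finset V} (hf : f.card = d)
    (h : (Mx p f).det ≠ 0) (x y : Fin d → K) : co p f (x + y) = co p f x + co p f y := by
  have h1 : lc p (co p f x + co p f y) = x + y := by
    rw [lc_add, co_lc2 hf h, co_lc2 hf h]
  rw [← h1]
  refine co_unique2 hf h (fun v hv => ?_)
  rw [Pi.add_apply, co_supp p f x hv, co_supp p f y hv, add_zero]

private theorem co_smul {p : V → Fin d → K} {f : Finset V} (hf : f.card = d)
    (h : (Mx p f).det ≠ 0) (t : K) (x : Fin d → K) : co p f (t • x) = t • co p f x := by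
  have h1 : lc p (t • co p f x) = t • x := by
    rw [lc_smul, co_lc2 hf h]
  rw [← h1]
  refine co_unique2 hf h (fun v hv => ?_)
  rw [Pi.smul_apply, co_supp p f x hv, smul_zero]

/-- The coordinate at `v` as a linear functional. -/
private noncomputable def coL {p : V → Fin d → K} {f : Finset V} (hf : f.card = d)
    (h : (Mx p f).det ≠ 0) (v : V) : (Fin d → K) →ₗ[K] K where
  toFun x := co p f x v
  map_add' x y := by rw [co_add hf h]; rfl
  map_smul' t x := by rw [co_smul hf h]; rfl

private theorem coL_apply {p : V → Fin d → K} {f : Finset V} (hf : f.card = d)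
    (h : (Mx p f).det ≠ 0) (v : V) (x : Fin d → K) : coL hf h v x = co p f x v := rfl

private theorem co_self {p : V → Fin d → K} {f : Finset V} (hf : f.card = d)
    (h : (Mx p f).det ≠ 0) {u : V} (hu : u ∈ f) (v : V) :
    co p f (p u) v = if v = u then 1 else 0 := by
  have h1 : lc p (fun w => if w = u then 1 else 0) = p u := by
    funext j
    simp [lc]
  have h2 : co p f (p u) = fun w => if w = u then 1 else 0 := by
    rw [← h1]
    refine co_unique2 hf h (fun w hw => ?_)
    rw [if_neg (fun h : w = u => hw (by rw [h]; exact hu))]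
  rw [h2]

/-- The sum over the facets. -/
private noncomputable def SI (G : SimpleGraph V) (p : V → Fin d → K) (c : Fin d → K)
    (W : {f : Finset V // G.IsNClique d f} → K) (μ : Multiset V) : K :=
  ∑ f : {f : Finset V // G.IsNClique d f}, W f * (μ.map (fun v => co p f.1 c v)).prod

private theorem SI_step {p : V → Fin d → K} (hp : ∀ f, G.IsNClique d f → (Mx p f).det ≠ 0)
    (c : Fin d → K) (W : {f : Finset V // G.IsNClique d f} → K) (ℓ : (Fin d → K) →ₗ[K] K)
    (ν : Multiset V) : ℓ c * SI G p c W ν = ∑ w, ℓ (p w) * SI G p c W (w ::ₘ ν) := by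
  unfold SI
  rw [Finset.mul_sum]
  simp_rw [Finset.mul_sum]
  rw [Finset.sum_comm]
  refine Finset.sum_congr rfl (fun f _ => ?_)
  have h1 : ℓ c = ∑ w, co p f.1 c w * ℓ (p w) := by
    rw [← lc_map, co_lc2 f.2.card_eq (hp f.1 f.2)]
  rw [h1, Finset.sum_mul]
  refine Finset.sum_congr rfl (fun w _ => ?_)
  rw [Multiset.map_cons, Multiset.prod_cons]
  ring

private theorem SI_zero {p : V → Fin d → K} (c : Fin d → K)
    (W : {f : Finset V // G.IsNClique d f} → K) {μ : Multiset V}
    (h : ∀ f, G.IsNClique d f → ¬ μ.toFinset ⊆ f) : SI G p c W μ = 0 := by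
  unfold SI
  refine Finset.sum_eq_zero (fun f _ => ?_)
  obtain ⟨v, hv, hvf⟩ := Finset.not_subset.1 (h f.1 f.2)
  rw [Multiset.prod_eq_zero, mul_zero]
  rw [Multiset.mem_map]
  exact ⟨v, Multiset.mem_toFinset.1 hv, co_supp p f.1 c hvf⟩

theorem localization2 {p0 : V → Fin d → K} (hF : IsFan G p0) {p : V → Fin d → K}
    (hp : ∀ f, G.IsNClique d f → (Mx p f).det ≠ 0) {c : Fin d → K}
    (hc : ∀ f, G.IsNClique d f → ∀ v ∈ f, co p f c v ≠ 0) {ε : Finset V → K}
    (h0 : ∀ f, G.IsNClique d f → ε f ≠ 0)
    (h1 : ∀ (f : Finset V) (v w : V), G.IsNClique d f → v ∈ f → w ∉ f →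
        G.IsNClique d (insert w (f.erase v)) → ∀ a : V → K, (∀ u, u ∉ f → a u = 0) →
        lc p a = p w →
        ε (insert w (f.erase v)) * (Mx p (insert w (f.erase v))).det =
          - a v * (ε f * (Mx p f).det))
    {μ : Multiset V} (hμ : Multiset.card μ < d) :
    ∑ f : {f : Finset V // G.IsNClique d f},
      (ε f.1 * (Mx p f.1).det * ∏ v ∈ f.1, co p f.1 c v)⁻¹ *
        (μ.map (fun v => co p f.1 c v)).prod = 0 := by
  classical
  set W : {f : Finset V // G.IsNClique d f} → K := fun f =>
    (ε f.1 * (Mx p f.1).det * ∏ v ∈ f.1, co p f.1 c v)⁻¹ with hW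
  change SI G p c W μ = 0
  -- the case of `d - 1` elements
  have main : ∀ n : ℕ, ∀ μ : Multiset V, Multiset.card μ + 1 = d →
      d - μ.toFinset.card = n → SI G p c W μ = 0 := by
    intro n
    induction n using Nat.strong_induction_on with
    | _ n ih =>
      intro μ hcard hn
      by_cases hex : ∀ f, G.IsNClique d f → ¬ μ.toFinset ⊆ f
      · exact SI_zero c W hex
      push Not at hex
      obtain ⟨f, hf, hμf⟩ := hex
      by_cases hnd : μ.Nodup
      · -- no multiple element
        have hσv : μ.toFinset.val = μ := by
          rw [Multiset.toFinset_val]; exact hnd.dedup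
        have hσc : μ.toFinset.card = Multiset.card μ := by
          rw [Finset.card_def, hσv]
        generalize μ.toFinset = σ at hσv hσc hμf
        have hlt : σ.card < f.card := by rw [hσc, hf.card_eq]; omega
        obtain ⟨v, hvf, hvσ⟩ := Finset.exists_mem_notMem_of_card_lt_card hlt
        have hσe : f.erase v = σ := by
          symm
          refine Finset.eq_of_subset_of_card_le (Finset.subset_erase.2 ⟨hμf, hvσ⟩) ?_
          rw [Finset.card_erase_of_mem hvf, hf.card_eq, hσc]
          omega
        obtain ⟨w, hwf, hg, -, hall⟩ := ridge hF hf hvf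
        rw [hσe] at hg hall
        have hwσ : w ∉ σ := fun h => hwf (hμf h)
        have hne : (⟨f, hf⟩ : {f : Finset V // G.IsNClique d f}) ≠ ⟨insert w σ, hg⟩ := by
          intro h
          have h2 : f = insert w σ := congrArg Subtype.val h
          exact hwf (h2 ▸ Finset.mem_insert_self w σ)
        have hdet : (Mx p f).det ≠ 0 := hp f hf
        have hdetg : (Mx p (insert w σ)).det ≠ 0 := hp _ hg
        have ha := h1 f v w hf hvf hwf (by rw [hσe]; exact hg) (co p f (p w))
          (fun u hu => co_supp p f _ hu) (co_lc2 hf.card_eq hdet _)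
        rw [hσe] at ha
        -- comparison of the coordinates
        have hcv : co p f c v = co p (insert w σ) c w * co p f (p w) v := by
          have h2 : coL hf.card_eq hdet v c =
              ∑ u, co p (insert w σ) c u * coL hf.card_eq hdet v (p u) := by
            rw [← lc_map, co_lc2 hg.card_eq hdetg]
          rw [coL_apply] at h2
          rw [h2, Finset.sum_eq_single w]
          · rw [coL_apply]
          · intro u _ huw
            by_cases hu : u ∈ insert w σ
            · have huσ : u ∈ σ := (Finset.mem_insert.1 hu).resolve_left huw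
              rw [coL_apply, co_self hf.card_eq hdet (hμf huσ), if_neg, mul_zero]
              intro hvu
              exact hvσ (hvu ▸ huσ)
            · rw [co_supp p _ c hu, zero_mul]
          · intro h; exact absurd (Finset.mem_univ w) h
        have hfc : ∀ u ∈ f, co p f c u ≠ 0 := hc f hf
        have hgc : ∀ u ∈ insert w σ, co p (insert w σ) c u ≠ 0 := hc _ hg
        unfold SI
        rw [Finset.sum_eq_add_of_mem (⟨f, hf⟩ : {f : Finset V // G.IsNClique d f})
          ⟨insert w σ, hg⟩ (Finset.mem_univ _) (Finset.mem_univ _) hne]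
        · rw [← hσv]
          have e1 : ∏ u ∈ f, co p f c u = co p f c v * ∏ u ∈ σ, co p f c u := by
            rw [← hσe, Finset.mul_prod_erase f (fun u => co p f c u) hvf]
          have e2 : ∏ u ∈ insert w σ, co p (insert w σ) c u =
              co p (insert w σ) c w * ∏ u ∈ σ, co p (insert w σ) c u :=
            Finset.prod_insert hwσ
          have e3 : (σ.val.map (fun u => co p f c u)).prod = ∏ u ∈ σ, co p f c u := rfl
          have e4 : (σ.val.map (fun u => co p (insert w σ) c u)).prod =
              ∏ u ∈ σ, co p (insert w σ) c u := rfl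
          have n1 : ∏ u ∈ σ, co p f c u ≠ 0 :=
            Finset.prod_ne_zero_iff.2 (fun u hu => hfc u (hμf hu))
          have n2 : ∏ u ∈ σ, co p (insert w σ) c u ≠ 0 :=
            Finset.prod_ne_zero_iff.2 (fun u hu => hgc u (Finset.mem_insert_of_mem hu))
          have n3 : co p f c v ≠ 0 := hfc v hvf
          have n4 : co p (insert w σ) c w ≠ 0 := hgc w (Finset.mem_insert_self _ _)
          have n5 : co p f (p w) v ≠ 0 := by
            intro h; rw [h, mul_zero] at hcv; exact n3 hcv
          have n6 : ε f ≠ 0 := h0 f hf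
          simp only [hW]
          rw [e1, e2, e3, e4, ha, hcv]
          field_simp
          ring
        · intro g _ hgne
          by_cases hsub : σ ⊆ g.1
          · rcases hall g.1 g.2 hsub with h | h
            · exact absurd (Subtype.ext h) hgne.1
            · exact absurd (Subtype.ext h) hgne.2
          · obtain ⟨u, hu, hug⟩ := Finset.not_subset.1 hsub
            rw [Multiset.prod_eq_zero, mul_zero]
            rw [Multiset.mem_map]
            refine ⟨u, ?_, co_supp p g.1 c hug⟩
            rw [← hσv]; exact hu
      · -- a multiple element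
        rw [Multiset.nodup_iff_ne_cons_cons] at hnd
        push Not at hnd
        obtain ⟨v, t, rfl⟩ := hnd
        have hvs : v ∈ (v ::ₘ v ::ₘ t).toFinset := by simp
        have hcl : (v ::ₘ v ::ₘ t).toFinset.card + 1 ≤ Multiset.card (v ::ₘ v ::ₘ t) := by
          have h2 : (v ::ₘ v ::ₘ t).toFinset = (v ::ₘ t).toFinset := by
            ext x; simp
          rw [h2, Multiset.card_cons v (v ::ₘ t)]
          exact Nat.succ_le_succ (Multiset.toFinset_card_le _)
        have hlt : (v ::ₘ v ::ₘ t).toFinset.card < f.card := by
          rw [hf.card_eq]; omega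
        obtain ⟨v', hv'f, hv's⟩ := Finset.exists_mem_notMem_of_card_lt_card hlt
        have hvf : v ∈ f := hμf hvs
        have hv'v : v' ≠ v := fun h => hv's (h ▸ hvs)
        have hdet : (Mx p f).det ≠ 0 := hp f hf
        have hfc := hc f hf v' hv'f
        let ℓ : (Fin d → K) →ₗ[K] K :=
          coL hf.card_eq hdet v - (co p f c v / co p f c v') • coL hf.card_eq hdet v'
        have hℓ : ∀ y, ℓ y = co p f y v - (co p f c v / co p f c v') * co p f y v' := by
          intro y; rfl
        have hℓc : ℓ c = 0 := by
          rw [hℓ, div_mul_cancel₀ _ hfc, sub_self]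
        have hℓv : ℓ (p v) = 1 := by
          rw [hℓ, co_self hf.card_eq hdet hvf, co_self hf.card_eq hdet hvf, if_pos rfl,
            if_neg hv'v, mul_zero, sub_zero]
        have hs := SI_step hp c W ℓ (v ::ₘ t)
        rw [hℓc, zero_mul, Finset.sum_eq_single v, hℓv, one_mul] at hs
        · exact hs.symm
        · intro w _ hwv
          by_cases hw : w ∈ (v ::ₘ v ::ₘ t).toFinset
          · have hwf : w ∈ f := hμf hw
            rw [hℓ, co_self hf.card_eq hdet hwf, co_self hf.card_eq hdet hwf,
              if_neg (Ne.symm hwv), if_neg (fun h : v' = w => hv's (h ▸ hw)), mul_zero,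
              sub_zero, zero_mul]
          · have h3 : (w ::ₘ v ::ₘ t).toFinset = insert w (v ::ₘ v ::ₘ t).toFinset := by
              ext x; simp
            have h4 : (w ::ₘ v ::ₘ t).toFinset.card =
                (v ::ₘ v ::ₘ t).toFinset.card + 1 := by
              rw [h3, Finset.card_insert_of_notMem hw]
            have h5 : Multiset.card (w ::ₘ v ::ₘ t) = Multiset.card (v ::ₘ v ::ₘ t) := by
              simp
            rw [ih (d - (w ::ₘ v ::ₘ t).toFinset.card) (by omega) _ (by rw [h5]; exact hcard)
              rfl, mul_zero]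
        · intro h; exact absurd (Finset.mem_univ v) h
  -- the general case
  have hfac : ∃ f, G.IsNClique d f := by
    obtain ⟨c0, hc0⟩ := exists_gen hF
    obtain ⟨f, hf, -⟩ := part hF hc0 (σ := ∅) (by simp)
    exact ⟨f, hf.1⟩
  have down : ∀ m : ℕ, ∀ μ : Multiset V, Multiset.card μ + 1 + m = d → SI G p c W μ = 0 := by
    intro m
    induction m with
    | zero =>
      intro μ h
      exact main _ μ h rfl
    | succ m ih =>
      intro μ h
      obtain ⟨f, hf⟩ := hfac
      have hne : f.Nonempty := by
        rw [← Finset.card_pos, hf.card_eq]; omega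
      obtain ⟨v, hv⟩ := hne
      have hs := SI_step hp c W (coL hf.card_eq (hp f hf) v) μ
      rw [Finset.sum_eq_zero, coL_apply] at hs
      · exact (mul_eq_zero.1 hs).resolve_left (hc f hf v hv)
      · intro w _
        rw [ih (w ::ₘ μ) (by rw [Multiset.card_cons]; omega), mul_zero]
  exact down (d - 1 - Multiset.card μ) μ (by omega)

end Pool.Agent.Helper82.TI2
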