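import Pool.Agent.Helper82.TI2.Fin2
import Pool.Agent.Helper82.TI2.Fam2
import Pool.Agent.Helper82.TI2.Local2

/-!
# Project TI, second part: the Charney-Davis inequality from metric conditions on the vertex links
-/

open Finset

namespace Pool.Agent.Helper82.TI2

open Pool.Agent.Helper82.TI Pool.Agent.Helper82.TI.Fan Pool.Agent.Helper51.CD.Cube

variable {K V : Type} [Field K] [LinearOrder K] [IsStrictOrderedRing K] [Fintype V]
  [DecidableEq V] {D : ℕ} {G : SimpleGraph V}

/-- The dimensions in the star of `j` for the special parameter. -/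
theorem special {rk : Finset V → ℕ} (hr : IsShelling G (D + 1) rk) {p : V → V → Fin D → K}
    (hF : ∀ j, IsFan (LkG G j) (fun w => p j w.1)) {c : V → Fin D → K}
    (hc : ∀ j, Gen (LkG G j) (fun w => p j w.1) (c j)) {n' : V → Type} [∀ j, Fintype (n' j)]
    [∀ j, DecidableEq (n' j)]
    (x' : ∀ j, {w : V // w ∈ nb G j} → n' j → K)
    (hx : ∀ j, ∀ u v, (u = v ∨ (LkG G j).Adj u v) →
      ∑ b, x' j u b * x' j v b = ∑ b, p j u.1 b * p j v.1 b)
    (hd : ∀ j, ∀ v, ∃ u : n' j → K, ∀ v', ∑ b, u b * x' j v' b = if v' = v then 1 else 0)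
    {A : Type} [Fintype A] [DecidableEq A] [Nonempty A]
    {γ : ((Σ j, Option (n' j)) ⊕ Fin (D + 1)) → Matrix A A K}
    {β : V × Fin (D + 1) → Matrix A A K} (hγ : Cl2 γ β) (j : V)
    {τ : Finset V} (hτ : j ∈ τ) {i : ℕ} (hi : 2 * i + τ.card = D) :
    2 * (Fintype.card A * (mk2 G D (XJ (fun j => qj G j (p j)) c j (Pi.single j 1))
        (fun _ => 0) rk 0).Hn (i + 1) τ) ≤
      Module.finrank K (Bg (mk2 G D (XJ (fun j => qj G j (p j)) c j (Pi.single j 1))
        (fun _ => 0) rk 0) (GS (fun j => qj G j (p j)) (fun j v => xj G j (x' j) v) γ β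
          (Pi.single j 1)) τ (i + 1)) +
      Module.finrank K (Bg (mk2 G D (XJ (fun j => qj G j (p j)) c j (Pi.single j 1))
        (fun _ => 0) rk 0) (GS (fun j => qj G j (p j)) (fun j v => xj G j (x' j) v) γ β
          (Pi.single j 1)) τ i) := by
  set q : V → V → Fin (D + 1) → K := fun j => qj G j (p j) with hq
  set E : Dat K V (Fc G D) Empty := mk2 G D (XE q c j (Pi.single j 1)) (fun _ => 0) rk 0 with hE
  have hdet : ∀ g : Fc G D, j ∈ g.1 → (Mx (pS q (Pi.single j 1)) g.1).det ≠ 0 := by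
    intro g hg
    rw [pS_single]
    exact det_qj (hF j) g.2 hg
  have hXS : ∀ (v : V) (f : Fc G D), XS q c (Pi.single j 1) v f = co (q j) f.1 (ct (c j)) v := by
    intro v f
    rw [XS, pS_single, cS_single]
  -- the scaled data have the same spaces
  have hlam : (∏ g ∈ univ.filter (fun g : Fc G D => j ∈ g.1),
      (Mx (pS q (Pi.single j 1)) g.1).det) ≠ 0 := by
    rw [prod_ne_zero_iff]
    intro g hg
    exact hdet g (mem_filter.1 hg).2
  have hB : ∀ i', Bg (mk2 G D (XJ q c j (Pi.single j 1)) (fun _ => 0) rk 0)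
      (GS q (fun j v => xj G j (x' j) v) γ β (Pi.single j 1)) τ i' =
      Bg E (GS q (fun j v => xj G j (x' j) v) γ β (Pi.single j 1)) τ i' := by
    intro i'
    refine Bg_scale (D := E) (D' := mk2 G D (XJ q c j (Pi.single j 1)) (fun _ => 0) rk 0)
      (fun f => rfl) _ hlam (fun v f hf => ?_) i'
    have hjf : j ∈ f.1 := hf hτ
    have e1 : E.X v f = XS q c (Pi.single j 1) v f := if_pos hjf
    rw [e1]
    exact XJ_eq q c j (Pi.single j 1) hdet v f hjf
  have hHn : (mk2 G D (XJ q c j (Pi.single j 1)) (fun _ => 0) rk 0).Hn (i + 1) τ =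
      E.Hn (i + 1) τ := rfl
  rw [hB, hB, hHn]
  have he : Function.Injective (fun b : n' j =>
      (Sum.inl ⟨j, some b⟩ : (Σ j, Option (n' j)) ⊕ Fin (D + 1))) := by
    intro a b hab
    simpa using hab
  refine star_rank hr j (hF j) (hc j) (x' j) (hx j) (hd j)
    (hγ.cl two_ne_zero he)
    (γ (Sum.inl ⟨j, none⟩) + ∑ b, ct (c j) b • (γ (Sum.inr b) + β (j, b)))
    (GS q (fun j v => xj G j (x' j) v) γ β (Pi.single j 1)) E rfl (fun f => rfl) (fun f => rfl)
    ?_ ?_ ?_ ?_ hτ hi
  · intro v f hv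
    by_cases hjf : j ∈ f.1
    · have e1 : E.X v f = XS q c (Pi.single j 1) v f := if_pos hjf
      rw [e1, XS, co_supp _ _ _ hv]
    · exact if_neg hjf
  · intro f hjf
    obtain ⟨f', hf', hup⟩ := exists_up f.2 hjf
    have e1 : E.X j f = XS q c (Pi.single j 1) j f := if_pos hjf
    rw [e1, hXS, ← hup]
    exact co_qj_self (hF j) hf' (c j)
  · intro f hf w
    have hjf : j ∈ up G j f := mem_insert_self _ _
    have e1 : E.X w.1 ⟨up G j f, up_clique.2 hf⟩ =
        XS q c (Pi.single j 1) w.1 ⟨up G j f, up_clique.2 hf⟩ := if_pos hjf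
    rw [e1, hXS]
    exact co_qj (hF j) hf (c j) w
  · intro f hf
    have hjf : j ∈ up G j f := mem_insert_self _ _
    have e1 : ∀ v, E.X v ⟨up G j f, up_clique.2 hf⟩ =
        co (q j) (up G j f) (ct (c j)) v := by
      intro v
      have e2 : E.X v ⟨up G j f, up_clique.2 hf⟩ =
        XS q c (Pi.single j 1) v ⟨up G j f, up_clique.2 hf⟩ := if_pos hjf
      rw [e2, hXS]
    have hcard : (up G j f).card = D + 1 := (up_clique.2 hf).card_eq
    have h1 : E.X j ⟨up G j f, up_clique.2 hf⟩ = 1 := by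
      rw [e1]
      exact co_qj_self (hF j) hf (c j)
    have h2 : ∀ b, ∑ v, E.X v ⟨up G j f, up_clique.2 hf⟩ * q j v b = ct (c j) b := by
      intro b
      have h3 := congrFun (co_lc2 hcard (det_qj (hF j) (up_clique.2 hf) hjf) (ct (c j))) b
      rw [← h3, lc]
      exact Finset.sum_congr rfl (fun v _ => by rw [e1])
    rw [GS_star x' q γ β j (fun v => E.X v ⟨up G j f, up_clique.2 hf⟩) h1 (ct (c j)) h2]
    congr 1
    refine Finset.sum_congr rfl (fun b _ => ?_)
    congr 1
    refine Finset.sum_congr rfl (fun w _ => ?_)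
    congr 1
    rw [e1]
    exact co_qj (hF j) hf (c j) w

/-- The inequality for the facets. -/
theorem core2 {k : ℕ} (hk : D + 1 = 2 * k) {p0 : V → Fin (D + 1) → K} (hF0 : IsFan G p0)
    {rk : Finset V → ℕ} (hr : IsShelling G (D + 1) rk) {p : V → V → Fin D → K}
    (hF : ∀ j, IsFan (LkG G j) (fun w => p j w.1)) {n' : V → Type} [∀ j, Fintype (n' j)]
    (x' : ∀ j, {w : V // w ∈ nb G j} → n' j → K)
    (hx : ∀ j, ∀ u v, (u = v ∨ (LkG G j).Adj u v) →
      ∑ b, x' j u b * x' j v b = ∑ b, p j u.1 b * p j v.1 b)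
    (hd : ∀ j, ∀ v, ∃ u : n' j → K, ∀ v', ∑ b, u b * x' j v' b = if v' = v then 1 else 0) :
    0 ≤ (-1 : ℤ) ^ k * ∑ f : Fc G D, (-1 : ℤ) ^ (Rs G (D + 1) rk f.1).card := by
  classical
  choose c hc using fun j => exists_gen (hF j)
  obtain ⟨A, _, _, _, γ, β, hγ⟩ := exists_cl2 K ((Σ j, Option (n' j)) ⊕ Fin (D + 1))
    (V × Fin (D + 1))
  set q : V → V → Fin (D + 1) → K := fun j => qj G j (p j) with hq
  set x : ∀ j, V → Option (n' j) → K := fun j v => xj G j (x' j) v with hxx
  obtain ⟨ε, hε0, hε1⟩ := exists_or hF0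
  -- the polynomials of the ranks
  have hg := fun (j : V) (τ : Finset V) (i : ℕ) =>
    rank_open (G := G) q c x γ β rk j τ i
  have hg' := fun (j : V) (τ : Finset V) (i : ℕ) =>
    rank_open (G := G) q c x γ (fun b => - β b) rk j τ i
  choose g hg1 hg2 hg3 using hg
  choose g' hg1' hg2' hg3' using hg'
  have hdet : ∀ (j : V) (f : Fc G D), j ∈ f.1 → (Mx (pS q (Pi.single j 1)) f.1).det ≠ 0 := by
    intro j f hg
    rw [pS_single]
    exact det_qj (hF j) f.2 hg
  have hne : ∀ f : Fc G D, ∃ j, j ∈ f.1 := by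
    intro f
    have h1 : f.1.Nonempty := by
      rw [← card_pos, f.2.card_eq]
      exact Nat.succ_pos D
    exact h1
  -- a parameter for which everything is generic
  have hex : ∃ s : V → K, (∀ f : Fc G D, (Mx (pS q s) f.1).det ≠ 0) ∧
      (∀ (f : Fc G D) (v : V), v ∈ f.1 →
        (Mx (fun u => if u = v then cS c s else pS q s u) f.1).det ≠ 0) ∧
      (∀ (j : V) (τ : Finset V) (i : Fin (D + 3)), g j τ i s ≠ 0) ∧
      (∀ (j : V) (τ : Finset V) (i : Fin (D + 3)), g' j τ i s ≠ 0) := by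
    obtain ⟨s, hs⟩ := exists_nonzero (K := K) (σ := V)
      (α := (Fc G D ⊕ Fc G D × V) ⊕ (V × Finset V × Fin (D + 3) ⊕ V × Finset V × Fin (D + 3)))
      (fun a s => match a with
        | Sum.inl (Sum.inl f) => (Mx (pS q s) f.1).det
        | Sum.inl (Sum.inr (f, v)) => if v ∈ f.1 then
            (Mx (fun u => if u = v then cS c s else pS q s u) f.1).det else 1
        | Sum.inr (Sum.inl (j, τ, i)) => g j τ i s
        | Sum.inr (Sum.inr (j, τ, i)) => g' j τ i s)
      (by
        rintro ((f | ⟨f, v⟩) | (⟨j, τ, i⟩ | ⟨j, τ, i⟩))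
        · exact det_isP q f.1
        · by_cases hv : v ∈ f.1
          · simp only [if_pos hv]
            exact detN_isP q c v f.1
          · simp only [if_neg hv]
            exact IsP.const 1
        · exact hg1 j τ i
        · exact hg1' j τ i)
      (by
        rintro ((f | ⟨f, v⟩) | (⟨j, τ, i⟩ | ⟨j, τ, i⟩))
        · obtain ⟨j, hj⟩ := hne f
          exact ⟨Pi.single j 1, hdet j f hj⟩
        · obtain ⟨j, hj⟩ := hne f
          refine ⟨Pi.single j 1, ?_⟩
          by_cases hv : v ∈ f.1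
          · simp only [if_pos hv]
            rw [← cramer f.2.card_eq (hdet j f hj) (cS c (Pi.single j 1)) hv]
            refine mul_ne_zero ?_ (hdet j f hj)
            rw [pS_single, cS_single]
            obtain ⟨f', hf', hup⟩ := exists_up f.2 hj
            rw [← hup] at hv ⊢
            rcases mem_insert.1 hv with h1 | h1
            · rw [h1]
              have h2 := co_qj_self (hF j) hf' (c j)
              rw [ct, hq]
              dsimp only
              rw [h2]
              exact one_ne_zero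
            · obtain ⟨w, hw, rfl⟩ := mem_map.1 h1
              have h2 := co_qj (hF j) hf' (c j) w
              rw [ct, hq]
              dsimp only
              change co (qj G j (p j)) (up G j f') (Fin.snoc (α := fun _ => K) (c j) 1) w.1 ≠ 0
              rw [h2]
              exact co_ne (hF j) hf' (hc j) hw
          · simp only [if_neg hv]
            exact one_ne_zero
        · exact ⟨Pi.single j 1, hg2 j τ i⟩
        · exact ⟨Pi.single j 1, hg2' j τ i⟩)
    refine ⟨s, fun f => hs (Sum.inl (Sum.inl f)), fun f v hv => ?_,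
      fun j τ i => hs (Sum.inr (Sum.inl (j, τ, i))), fun j τ i => hs (Sum.inr (Sum.inr (j, τ, i)))⟩
    have h1 := hs (Sum.inl (Sum.inr (f, v)))
    simp only [if_pos hv] at h1
    exact h1
  obtain ⟨s, hs1, hs2, hs3, hs4⟩ := hex
  -- the data at the parameter
  set w : Fc G D → K := fun f => (ε f.1 * (Mx (pS q s) f.1).det * ∏ v ∈ f.1, XS q c s v f)⁻¹
    with hw
  set E : Dat K V (Fc G D) Empty := mk2 G D (XS q c s) w rk (∑ b, cS c s b * cS c s b) with hE
  have hXne : ∀ (v : V) (f : Fc G D), v ∈ f.1 → XS q c s v f ≠ 0 := by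
    intro v f hv h0
    refine hs2 f v hv ?_
    rw [← cramer f.2.card_eq (hs1 f) (cS c s) hv]
    have h1 : co (pS q s) f.1 (cS c s) v = 0 := h0
    rw [h1, zero_mul]
  have hOk : OkA E :=
    { card := fun f => f.2.card_eq
      X_ne := by
        intro v f
        constructor
        · intro h
          by_contra h2
          exact h (co_supp (pS q s) f.1 (cS c s) h2)
        · intro h
          exact hXne v f h
      w_ne := by
        intro f
        refine inv_ne_zero (mul_ne_zero (mul_ne_zero (hε0 f.1 f.2) (hs1 f)) ?_)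
        exact prod_ne_zero_iff.2 (fun v hv => hXne v f hv)
      loc := by
        intro μ hμ
        exact localization2 hF0 (p := pS q s) (fun f hf => hs1 ⟨f, hf⟩) (c := cS c s)
          (fun f hf v hv => hXne v ⟨f, hf⟩ hv) hε0
          (fun f v w hf hv hw' hg a ha hlc => hε1 (pS q s) f v w hf hv hw' hg a ha hlc) hμ
      rk_inj := fun f g h => Subtype.ext (hr.inj _ _ f.2 g.2 h)
      R_sub := fun f => Rs_sub rk f.1
      R_le := fun f g h => Rs_le hr f.2 g.2 h
      C_le := fun f g h => Cs_le hF0 hr f.2 g.2 h }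
  have hxs : ∀ u v, (u = v ∨ G.Adj u v) →
      ∀ j, ∑ a, x j u a * x j v a = ∑ b, q j u b * q j v b := by
    intro u v huv j
    exact xj_inner (hx j) huv
  have hX0 : ∀ (v : V) (f : Fc G D), v ∉ E.fac f → E.X v f = 0 :=
    fun v f hv => co_supp (pS q s) f.1 (cS c s) hv
  have hXc : ∀ (f : Fc G D) (b : Fin (D + 1)), ∑ v, E.X v f * pS q s v b = cS c s b := by
    intro f b
    exact congrFun (co_lc2 f.2.card_eq (hs1 f) (cS c s)) b
  have hO : ∀ z : A → Fc G D → K, Og E (GS q x γ β s) (Og E (GS q x γ β s) z) = E.c2 • z :=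
    fun z => Og_Og_GS hγ G hxs s E hX0 (fun f => f.2.isClique) (cS c s) hXc rfl z
  have hO' : ∀ z : A → Fc G D → K, Og E (GS q x γ (fun b => - β b) s)
      (Og E (GS q x γ (fun b => - β b) s) z) = E.c2 • z :=
    fun z => Og_Og_GS hγ.neg G hxs s E hX0 (fun f => f.2.isClique) (cS c s) hXc rfl z
  have hT : (fun v => (GS q x γ β s v).transpose) = GS q x γ (fun b => - β b) s := by
    funext v
    exact GS_transpose hγ s v
  -- scaling
  have hlam : ∀ j, (∏ g ∈ univ.filter (fun g : Fc G D => j ∈ g.1),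
      (Mx (pS q s) g.1).det) ≠ 0 := by
    intro j
    rw [prod_ne_zero_iff]
    intro g _
    exact hs1 g
  have hB : ∀ (G' : V → Matrix A A K) (j : V) (τ : Finset V), j ∈ τ → ∀ i',
      Bg (mk2 G D (XJ q c j s) (fun _ => 0) rk 0) G' τ i' = Bg E G' τ i' := by
    intro G' j τ hτ i'
    refine Bg_scale (D := E) (D' := mk2 G D (XJ q c j s) (fun _ => 0) rk 0)
      (fun f => rfl) _ (hlam j) (fun v f hf => ?_) i'
    exact XJ_eq q c j s (fun g _ => hs1 g) v f (hf hτ)
  -- critical exactness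
  have hcrit : ∀ (τ : Finset V) (i : ℕ), 2 * i + τ.card + 1 = E.d →
      VG E (GS q x γ β s) τ i := by
    intro τ i hi
    have hi' : 2 * i + τ.card = D := by
      have : E.d = D + 1 := rfl
      omega
    have hτ : τ.Nonempty := by
      rw [← card_pos]
      omega
    obtain ⟨j, hj⟩ := hτ
    refine VG_of_finrank hOk hO (by omega) ?_
    have h1 := special hr hF hc x' hx hd hγ j hj hi'
    have h2 := hg3 j τ (i + 1) s (hs3 j τ ⟨i + 1, by omega⟩)
    have h3 := hg3 j τ i s (hs3 j τ ⟨i, by omega⟩)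
    rw [hB _ j τ hj] at h2 h3
    have h4 : E.Hn (i + 1) τ = (mk2 G D (XJ q c j (Pi.single j 1)) (fun _ => 0) rk 0).Hn (i + 1) τ :=
      rfl
    rw [h4]
    exact h1.trans (Nat.add_le_add h2 h3)
  have hcrit' : ∀ (τ : Finset V) (i : ℕ), 2 * i + τ.card + 1 = E.d →
      VG E (GS q x γ (fun b => - β b) s) τ i := by
    intro τ i hi
    have hi' : 2 * i + τ.card = D := by
      have : E.d = D + 1 := rfl
      omega
    have hτ : τ.Nonempty := by
      rw [← card_pos]
      omega
    obtain ⟨j, hj⟩ := hτ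
    refine VG_of_finrank hOk hO' (by omega) ?_
    have h1 := special hr hF hc x' hx hd hγ.neg j hj hi'
    have h2 := hg3' j τ (i + 1) s (hs4 j τ ⟨i + 1, by omega⟩)
    have h3 := hg3' j τ i s (hs4 j τ ⟨i, by omega⟩)
    rw [hB _ j τ hj] at h2 h3
    have h4 : E.Hn (i + 1) τ = (mk2 G D (XJ q c j (Pi.single j 1)) (fun _ => 0) rk 0).Hn (i + 1) τ :=
      rfl
    rw [h4]
    exact h1.trans (Nat.add_le_add h2 h3)
  have hV := VG_all hOk hO hcrit E.d ∅ (by simp)
  have hV' := VG_all hOk hO' hcrit' E.d ∅ (by simp)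
  have hEd : E.d = D + 1 := rfl
  refine fin2 (D := E) hOk (G := GS q x γ β s) (k := k) (by rw [hEd, hk]) hO ?_ ?_ ?_
  · rw [hT]
    exact hO'
  · intro j hj
    refine hV j ?_
    rw [card_empty]
    omega
  · rw [hT]
    intro j hj
    refine hV' j ?_
    rw [card_empty]
    omega

end Pool.Agent.Helper82.TI2
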