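import Pool.Agent.Helper82.TI2.Main2

/-!
# Project TI, second part: the real case
-/

open Finset

namespace Pool.Agent.Helper82.TI2

open Pool.Agent.Helper82.TI Pool.Agent.Helper82.TI.Fan Pool.Agent.Helper51.CD.Cube

/-- A shortening `y` of the vectors `p` gives independent vectors with the inner products of the
`p v` for equal and adjacent vertices. -/
theorem exists_indep {V : Type} [Fintype V] [DecidableEq V] {G : SimpleGraph V} {D N : ℕ}
    {p : V → Fin D → ℝ} (y : V → Fin N → ℝ)
    (h1 : ∀ v, ∑ j, y v j * y v j < ∑ j, p v j * p v j)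
    (h2 : ∀ u v, G.Adj u v → ∑ j, y u j * y v j = ∑ j, p u j * p v j) :
    ∃ x : V → Fin N ⊕ V → ℝ,
      (∀ u v, (u = v ∨ G.Adj u v) → ∑ j, x u j * x v j = ∑ j, p u j * p v j) ∧
      ∀ v, ∃ u : Fin N ⊕ V → ℝ, ∀ v', ∑ j, u j * x v' j = if v' = v then 1 else 0 := by
  set e : V → ℝ := fun v => Real.sqrt (∑ j, p v j * p v j - ∑ j, y v j * y v j) with he
  have he0 : ∀ v, 0 < ∑ j, p v j * p v j - ∑ j, y v j * y v j := fun v => sub_pos.2 (h1 v)
  have he1 : ∀ v, 0 < e v := fun v => Real.sqrt_pos.2 (he0 v)
  have he2 : ∀ v, e v * e v = ∑ j, p v j * p v j - ∑ j, y v j * y v j :=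
    fun v => Real.mul_self_sqrt (he0 v).le
  refine ⟨fun v j => Sum.elim (y v) (fun u => if u = v then e v else 0) j, ?_, ?_⟩
  · intro u v huv
    rw [Fintype.sum_sum_type]
    simp only [Sum.elim_inl, Sum.elim_inr]
    by_cases h : u = v
    · subst h
      have h3 : ∑ x : V, (if x = u then e u else 0) * (if x = u then e u else 0) = e u * e u := by
        rw [Finset.sum_eq_single u]
        · simp
        · intro b _ hb; simp [hb]
        · intro hb; exact absurd (mem_univ u) hb
      rw [h3, he2]; ring
    · have h3 : ∑ x : V, (if x = u then e u else 0) * (if x = v then e v else 0) = 0 := by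
        apply Finset.sum_eq_zero
        intro b _
        by_cases hb : b = u
        · subst hb; simp [h]
        · simp [hb]
      rw [h3, add_zero]
      rcases huv with huv | huv
      · exact absurd huv h
      · exact h2 u v huv
  · intro v
    refine ⟨fun j => Sum.elim (fun _ => 0) (fun u => if u = v then (e v)⁻¹ else 0) j, ?_⟩
    intro v'
    rw [Fintype.sum_sum_type]
    simp only [Sum.elim_inl, Sum.elim_inr, zero_mul, Finset.sum_const_zero, zero_add]
    rw [Finset.sum_eq_single v]
    · by_cases h : v' = v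
      · subst h; simp [inv_mul_cancel₀ (he1 v').ne']
      · simp [h, Ne.symm h]
    · intro b _ hb; simp [hb]
    · intro hb; exact absurd (mem_univ v) hb

variable {V : Type} [Fintype V] [DecidableEq V] {G : SimpleGraph V}

theorem kappa_edge {d k : ℕ} (hk : d = 2 * k) {p0 : V → Fin d → ℝ} (hF0 : IsFan G p0)
    {rk : Finset V → ℕ} (hr : IsShelling G d rk)
    (h : ∀ v : V, ∃ (N : ℕ) (q : {w : V // w ∈ nb G v} → Fin (d - 1) → ℝ)
      (y : {w : V // w ∈ nb G v} → Fin N → ℝ), IsFan (LkG G v) q ∧
      (∀ w, ∑ j, y w j * y w j < ∑ j, q w j * q w j) ∧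
      (∀ u w, (LkG G v).Adj u w → ∑ j, y u j * y w j = ∑ j, q u j * q w j)) :
    0 ≤ (-1 : ℚ) ^ k * kappa G univ := by
  classical
  choose N q y hF h1 h2 using h
  rcases d with _ | D
  · have hk0 : k = 0 := by omega
    subst hk0
    have hV : IsEmpty V := by
      refine ⟨fun v => ?_⟩
      have e := ExistsUnique.unique (hF0 0) (y₁ := (0 : V → ℝ)) (y₂ := Pi.single v 1) ⟨fun _ => le_rfl, by
        intro a ha; exact absurd rfl ha, Subsingleton.elim _ _⟩ ⟨fun u => by
        by_cases hu : u = v
        · subst hu; simp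
        · simp [hu], by
        intro a ha b hb hab
        have ha' : a = v := by
          by_contra h3
          exact ha (Pi.single_eq_of_ne h3 1)
        have hb' : b = v := by
          by_contra h3
          exact hb (Pi.single_eq_of_ne h3 1)
        exact absurd (ha'.trans hb'.symm) hab, Subsingleton.elim _ _⟩
      have := congrFun e v
      simp at this
    exact kappa_nonneg_real (k := 0) (N := 0) hF0 hr (fun _ _ => 0) (fun v => hV.elim v)
      (fun u => hV.elim u)
  · choose x hx hd using fun v => exists_indep (G := LkG G v) (y v) (h1 v) (h2 v)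
    have h3 := core2 (k := k) hk hF0 hr
      (p := fun j v => if h : v ∈ nb G j then q j ⟨v, h⟩ else 0) (n' := fun j => Fin (N j) ⊕ _)
      (by
        intro j
        have e : (fun w : {w : V // w ∈ nb G j} =>
            (if h : w.1 ∈ nb G j then q j ⟨w.1, h⟩ else 0 : Fin D → ℝ)) = q j := by
          funext w
          rw [dif_pos w.2]
        rw [e]
        exact hF j) x (by
        intro j u v huv
        rw [hx j u v huv]
        refine Finset.sum_congr rfl (fun b _ => ?_)
        rw [dif_pos u.2, dif_pos v.2]) hd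
    rw [kappa_fan hF0 hr]
    have h4 : (0 : ℚ) ≤ (((-1 : ℤ) ^ k * ∑ f : Fc G D,
        (-1 : ℤ) ^ (Rs G (D + 1) rk f.1).card : ℤ) : ℚ) := by exact_mod_cast h3
    push_cast at h4 ⊢
    have h5 : (0 : ℚ) ≤ (1 / 2) ^ (D + 1) := by positivity
    calc (0 : ℚ) ≤ (1 / 2) ^ (D + 1) * ((-1) ^ k * ∑ f : Fc G D,
        (-1 : ℚ) ^ (Rs G (D + 1) rk f.1).card) := mul_nonneg h5 h4
      _ = _ := by ring

end Pool.Agent.Helper82.TI2
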