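import Pool.Agent.Helper82.TI2.Basic2

/-!
# Project TI, second part: exactness of the rows (the proof of TI/Rex.lean)
-/

open Finset

namespace Pool.Agent.Helper82.TI2

open Pool.Agent.Helper82.TI

variable {K V ι n A : Type} [Field K] [LinearOrder K] [IsStrictOrderedRing K] [DecidableEq V]
  [Fintype V] [Fintype ι] [Fintype n] [Fintype A] [DecidableEq A]

/-- A function in the space `Fs i ρ` whose first facet in the shelling is `f` has a small
restriction set there. -/
private theorem lead {D : Dat K V ι n} (hD : OkA D) {ρ : Finset V} {i : ℕ}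
    (h : i + ρ.card ≤ D.d + 1) {g : ι → K} (hg : g ∈ D.Fs i ρ) {f : ι}
    (hs : ∀ f', g f' ≠ 0 → D.rk f ≤ D.rk f') (hf : g f ≠ 0) :
    ρ ⊆ D.fac f ∧ (D.R f \ ρ).card < i := by
  have hρ : ρ ⊆ D.fac f := by
    by_contra hc
    exact hf (Fs_supp D hg hc)
  refine ⟨hρ, ?_⟩
  by_contra hi
  have hi : i ≤ (D.R f \ ρ).card := not_lt.mp hi
  have hcard : (D.R f \ ρ).card + ((D.fac f \ D.R f) \ ρ).card = D.d - ρ.card := by
    rw [← hD.card f, ← card_sdiff_of_subset hρ, ← card_union_of_disjoint]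
    · congr 1
      ext v
      simp only [mem_union, mem_sdiff]
      constructor
      · rintro (⟨h1, h2⟩ | ⟨⟨h1, _⟩, h2⟩)
        · exact ⟨hD.R_sub f h1, h2⟩
        · exact ⟨h1, h2⟩
      · rintro ⟨h1, h2⟩
        by_cases h3 : v ∈ D.R f
        · exact Or.inl ⟨h3, h2⟩
        · exact Or.inr ⟨⟨h1, h3⟩, h2⟩
    · rw [disjoint_left]
      intro v h1 h2
      exact (mem_sdiff.mp (mem_sdiff.mp h2).1).2 (mem_sdiff.mp h1).1
  have hρd : ρ.card ≤ D.d := by
    rw [← hD.card f]
    exact card_le_card hρ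
  set C : Finset V := (D.fac f \ D.R f) \ ρ with hC
  have hmem := mono_mem D (i := D.d + 1 - ρ.card - i) ρ (μ := C.val) (by
    have : Multiset.card C.val = C.card := rfl
    omega)
  have hp := Fs_pairA hD (by omega) hg hmem
  have hne : ∀ {T : Finset V} {f' : ι}, T ⊆ D.fac f' → D.mono T.val f' ≠ 0 := by
    intro T f' hT
    have e : D.mono T.val f' = ∏ v ∈ T, D.X v f' := rfl
    rw [e]
    exact prod_ne_zero_iff.mpr (fun v hv => (hD.X_ne v f').mpr (hT hv))
  have hne' : ∀ {T : Finset V} {f' : ι}, D.mono T.val f' ≠ 0 → T ⊆ D.fac f' := by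
    intro T f' hT v hv
    have e : D.mono T.val f' = ∏ v ∈ T, D.X v f' := rfl
    rw [e] at hT
    exact (hD.X_ne v f').mp (prod_ne_zero_iff.mp hT v hv)
  rw [sum_eq_single f] at hp
  · rw [if_pos hρ] at hp
    have h1 : D.Xp ρ f ≠ 0 := hne hρ
    have h2 : D.mono C.val f ≠ 0 := hne (fun v hv => (mem_sdiff.mp (mem_sdiff.mp hv).1).1)
    exact (mul_ne_zero (mul_ne_zero (hD.w_ne f) h1) (mul_ne_zero hf h2)) hp
  · intro f' _ hff
    by_cases h1 : g f' = 0
    · rw [h1, zero_mul, mul_zero]
    · by_cases h2 : ρ ⊆ D.fac f'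
      · rw [if_pos h2]
        by_cases h3 : D.mono C.val f' = 0
        · rw [h3, mul_zero, mul_zero]
        · exfalso
          have h4 : D.fac f \ D.R f ⊆ D.fac f' := by
            intro v hv
            by_cases h5 : v ∈ ρ
            · exact h2 h5
            · exact hne' h3 (mem_sdiff.mpr ⟨hv, h5⟩)
          exact hff (hD.rk_inj (le_antisymm (hD.C_le f f' h4) (hs f' h1)))
      · rw [if_neg h2, mul_zero, mul_zero]
  · intro h1
    exact absurd (mem_univ f) h1

omit [Fintype V] in
private theorem im_cons (τ : Finset V) {r : ℕ} (u : Y τ) (s : Fin r → Y τ) :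
    im τ (Fin.cons u s : Fin (r + 1) → Y τ) = insert u.1 (im τ s) := by
  ext v
  simp only [im, mem_union, mem_image, mem_univ, true_and, mem_insert]
  constructor
  · rintro (h | ⟨j, hj⟩)
    · exact Or.inr (Or.inl h)
    · refine Fin.cases (motive := fun j => ((Fin.cons u s : Fin (r + 1) → Y τ) j).1 = v →
        (v = u.1 ∨ v ∈ τ ∨ ∃ j, (s j).1 = v)) ?_ ?_ j hj
      · intro h
        rw [Fin.cons_zero] at h
        exact Or.inl h.symm
      · intro k h
        rw [Fin.cons_succ] at h
        exact Or.inr (Or.inr ⟨k, h⟩)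
  · rintro (h | h | ⟨j, hj⟩)
    · refine Or.inr ⟨0, ?_⟩
      rw [Fin.cons_zero]
      exact h.symm
    · exact Or.inl h
    · refine Or.inr ⟨j.succ, ?_⟩
      rw [Fin.cons_succ]
      exact hj

private theorem dl_val (D : Dat K V ι n) (τ : Finset V) {r : ℕ}
    (φ : (Fin r → Y τ) → A → ι → K) (s : Fin (r + 1) → Y τ) (a : A) (f : ι) :
    D.dl τ φ s a f = if im τ s ⊆ D.fac f then
      ∑ j : Fin (r + 1), (-1 : K) ^ (j : ℕ) * φ (fun i => s (j.succAbove i)) a f else 0 := by
  unfold Dat.dl
  rw [Finset.sum_apply, Finset.sum_apply]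
  by_cases h : im τ s ⊆ D.fac f
  · rw [if_pos h]
    refine sum_congr rfl (fun j _ => ?_)
    rw [Pi.smul_apply, Pi.smul_apply, smul_eq_mul]
    congr 1
    change (if im τ s ⊆ D.fac f then _ else _) = _
    rw [if_pos h]
  · rw [if_neg h]
    refine sum_eq_zero (fun j _ => ?_)
    rw [Pi.smul_apply, Pi.smul_apply, smul_eq_mul]
    have e : D.rs (im τ s) (φ (fun i => s (j.succAbove i))) a f = 0 := by
      change (if im τ s ⊆ D.fac f then _ else _) = _
      rw [if_neg h]
    rw [e, mul_zero]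

/-- One facet is cleared. -/
private theorem clear {D : Dat K V ι n} (hD : OkA D) {τ : Finset V} {r i : ℕ}
    (h : r + 1 + i + τ.card ≤ D.d) {φ : (Fin (r + 1) → Y τ) → A → ι → K}
    (hφ : ∀ s, φ s ∈ D.FS A i (im τ s)) (h0 : D.dl τ φ = 0) (f0 : ι)
    (hs : ∀ s a f, φ s a f ≠ 0 → D.rk f0 ≤ D.rk f) :
    ∃ ψ : (Fin r → Y τ) → A → ι → K, (∀ s, ψ s ∈ D.FS A i (im τ s)) ∧
      (∀ s a f, D.dl τ ψ s a f ≠ 0 → D.rk f0 ≤ D.rk f) ∧
      ∀ s a, D.dl τ ψ s a f0 = φ s a f0 := by
  have hlead : ∀ (s : Fin (r + 1) → Y τ) (a : A), φ s a f0 ≠ 0 →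
      im τ s ⊆ D.fac f0 ∧ (D.R f0 \ im τ s).card < i := by
    intro s a hne
    have hm := hφ s
    rw [Dat.FS, Submodule.mem_pi] at hm
    refine lead hD ?_ (hm a (Set.mem_univ a)) (fun f' hf' => hs s a f' hf') hne
    have := card_im τ s
    omega
  by_cases hu : ∃ u ∈ D.fac f0 \ D.R f0, u ∉ τ
  · obtain ⟨u, hu1, hu2⟩ := hu
    obtain ⟨huf, huR⟩ := mem_sdiff.mp hu1
    have hne : ∀ {T : Finset V} {f' : ι}, T ⊆ D.fac f' → D.mono T.val f' ≠ 0 := by
      intro T f' hT
      have e : D.mono T.val f' = ∏ v ∈ T, D.X v f' := rfl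
      rw [e]
      exact prod_ne_zero_iff.mpr (fun v hv => (hD.X_ne v f').mpr (hT hv))
    have hne' : ∀ {T : Finset V} {f' : ι}, D.mono T.val f' ≠ 0 → T ⊆ D.fac f' := by
      intro T f' hT v hv
      have e : D.mono T.val f' = ∏ v ∈ T, D.X v f' := rfl
      rw [e] at hT
      exact (hD.X_ne v f').mp (prod_ne_zero_iff.mp hT v hv)
    set ψ : (Fin r → Y τ) → A → ι → K := fun s a f =>
      (φ (Fin.cons ⟨u, hu2⟩ s) a f0 / D.mono (D.R f0 \ im τ s).val f0) *
        (if im τ s ⊆ D.fac f then D.mono (D.R f0 \ im τ s).val f else 0) with hψ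
    have hval : ∀ (s : Fin r → Y τ) (a : A), im τ s ⊆ D.fac f0 →
        ψ s a f0 = φ (Fin.cons ⟨u, hu2⟩ s) a f0 := by
      intro s a hsf
      simp only [hψ]
      rw [if_pos hsf]
      exact div_mul_cancel₀ _ (hne (fun v hv => hD.R_sub f0 (mem_sdiff.mp hv).1))
    have hsupp : ∀ (s : Fin r → Y τ) (a : A) (f : ι), ψ s a f ≠ 0 → D.rk f0 ≤ D.rk f := by
      intro s a f hf
      refine hD.R_le f0 f ?_
      simp only [hψ] at hf
      have h1 := right_ne_zero_of_mul hf
      by_cases h2 : im τ s ⊆ D.fac f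
      · rw [if_pos h2] at h1
        intro v hv
        by_cases h3 : v ∈ im τ s
        · exact h2 h3
        · exact hne' h1 (mem_sdiff.mpr ⟨hv, h3⟩)
      · rw [if_neg h2] at h1
        exact absurd rfl h1
    refine ⟨ψ, ?_, ?_, ?_⟩
    · intro s
      rw [Dat.FS, Submodule.mem_pi]
      intro a _
      by_cases h1 : φ (Fin.cons ⟨u, hu2⟩ s) a f0 = 0
      · have e : ψ s a = 0 := by
          funext f
          simp only [hψ]
          rw [h1, zero_div, zero_mul, Pi.zero_apply]
        rw [e]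
        exact Submodule.zero_mem _
      · obtain ⟨h2, h3⟩ := hlead _ a h1
        rw [im_cons] at h2 h3
        have h4 : D.R f0 \ insert u (im τ s) = D.R f0 \ im τ s := by
          ext v
          simp only [mem_sdiff, mem_insert, not_or]
          constructor
          · rintro ⟨h5, _, h6⟩
            exact ⟨h5, h6⟩
          · rintro ⟨h5, h6⟩
            refine ⟨h5, ?_, h6⟩
            rintro rfl
            exact huR h5
        rw [h4] at h3
        have e : ψ s a = (φ (Fin.cons ⟨u, hu2⟩ s) a f0 / D.mono (D.R f0 \ im τ s).val f0) •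
            (fun f => if im τ s ⊆ D.fac f then D.mono (D.R f0 \ im τ s).val f else 0) := by
          funext f
          rw [Pi.smul_apply, smul_eq_mul]
        rw [e]
        exact Submodule.smul_mem _ _ (mono_mem D _ h3)
    · intro s a f hf
      rw [dl_val] at hf
      by_cases h1 : im τ s ⊆ D.fac f
      · rw [if_pos h1] at hf
        obtain ⟨j, _, hj⟩ := exists_ne_zero_of_sum_ne_zero hf
        exact hsupp _ a f (right_ne_zero_of_mul hj)
      · rw [if_neg h1] at hf
        exact absurd rfl hf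
    · intro s a
      rw [dl_val]
      by_cases h1 : im τ s ⊆ D.fac f0
      · rw [if_pos h1]
        have h2 : im τ (Fin.cons ⟨u, hu2⟩ s : Fin (r + 1 + 1) → Y τ) ⊆ D.fac f0 := by
          rw [im_cons]
          exact insert_subset huf h1
        have h3 : D.dl τ φ (Fin.cons ⟨u, hu2⟩ s) a f0 = 0 := by
          rw [h0]
          rfl
        rw [dl_val, if_pos h2, Fin.sum_univ_succ] at h3
        have h4 : (fun i => (Fin.cons ⟨u, hu2⟩ s : Fin (r + 1 + 1) → Y τ)
            ((0 : Fin (r + 1 + 1)).succAbove i)) = s := by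
          funext k
          rw [Fin.succAbove_zero, Fin.cons_succ]
        have h5 : ∀ j : Fin (r + 1), (fun i => (Fin.cons ⟨u, hu2⟩ s : Fin (r + 1 + 1) → Y τ)
            (j.succ.succAbove i)) =
            (Fin.cons ⟨u, hu2⟩ (fun i => s (j.succAbove i)) : Fin (r + 1) → Y τ) := by
          intro j
          funext k
          refine Fin.cases ?_ (fun k => ?_) k
          · rw [Fin.succ_succAbove_zero, Fin.cons_zero, Fin.cons_zero]
          · rw [Fin.succ_succAbove_succ, Fin.cons_succ, Fin.cons_succ]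
        rw [h4] at h3
        simp only [h5] at h3
        have h6 : ∑ j : Fin (r + 1), (-1 : K) ^ (j : ℕ) * ψ (fun i => s (j.succAbove i)) a f0 =
            - ∑ j : Fin (r + 1), (-1 : K) ^ ((j.succ : Fin (r + 1 + 1)) : ℕ) *
              φ (Fin.cons ⟨u, hu2⟩ (fun i => s (j.succAbove i))) a f0 := by
          rw [← sum_neg_distrib]
          refine sum_congr rfl (fun j _ => ?_)
          rw [hval _ a ((im_sub τ s j).trans h1), Fin.val_succ, pow_succ]
          ring
        rw [h6]
        have h7 : (-1 : K) ^ ((0 : Fin (r + 1 + 1)) : ℕ) * φ s a f0 = φ s a f0 := by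
          rw [Fin.val_zero, pow_zero, one_mul]
        rw [h7] at h3
        exact (eq_neg_of_add_eq_zero_left h3).symm
      · rw [if_neg h1]
        exact (FS_supp D (hφ s) h1 a).symm
  · have hz : ∀ s a, φ s a f0 = 0 := by
      intro s a
      by_contra hne
      obtain ⟨h1, h2⟩ := hlead s a hne
      have h3 : D.fac f0 \ im τ s ⊆ D.R f0 \ im τ s := by
        intro v hv
        obtain ⟨h4, h5⟩ := mem_sdiff.mp hv
        refine mem_sdiff.mpr ⟨?_, h5⟩
        by_contra h6
        refine hu ⟨v, mem_sdiff.mpr ⟨h4, h6⟩, fun h7 => h5 ?_⟩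
        exact mem_union_left _ h7
      have h4 := card_le_card h3
      rw [card_sdiff_of_subset h1, hD.card f0] at h4
      have h5 := card_im τ s
      omega
    refine ⟨0, fun s => Submodule.zero_mem _, ?_, ?_⟩
    · intro s a f hf
      rw [dl_val] at hf
      exfalso
      apply hf
      by_cases h1 : im τ s ⊆ D.fac f
      · rw [if_pos h1]
        exact sum_eq_zero (fun j _ => mul_zero _)
      · rw [if_neg h1]
    · intro s a
      rw [dl_val, hz s a]
      by_cases h1 : im τ s ⊆ D.fac f0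
      · rw [if_pos h1]
        exact sum_eq_zero (fun j _ => mul_zero _)
      · rw [if_neg h1]

theorem R_exactA {D : Dat K V ι n} (hD : OkA D) {τ : Finset V} {r i : ℕ}
    (h : r + 1 + i + τ.card ≤ D.d) {φ : (Fin (r + 1) → Y τ) → A → ι → K}
    (hφ : ∀ s, φ s ∈ D.FS A i (im τ s)) (h0 : D.dl τ φ = 0) :
    ∃ ψ : (Fin r → Y τ) → A → ι → K, (∀ s, ψ s ∈ D.FS A i (im τ s)) ∧ D.dl τ ψ = φ := by
  have key : ∀ (B : ℕ) (φ : (Fin (r + 1) → Y τ) → A → ι → K),
      (∀ s, φ s ∈ D.FS A i (im τ s)) → D.dl τ φ = 0 →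
      (∀ s a f, φ s a f ≠ 0 → univ.sup D.rk + 1 ≤ D.rk f + B) →
      ∃ ψ : (Fin r → Y τ) → A → ι → K, (∀ s, ψ s ∈ D.FS A i (im τ s)) ∧ D.dl τ ψ = φ := by
    intro B
    induction B with
    | zero =>
      intro φ hφ h0 hs
      refine ⟨0, fun s => Submodule.zero_mem _, ?_⟩
      funext s a f
      have h1 : φ s a f = 0 := by
        by_contra hne
        have h2 := hs s a f hne
        have h3 : D.rk f ≤ univ.sup D.rk := le_sup (mem_univ f)
        omega
      rw [h1, dl_val]
      by_cases h1 : im τ s ⊆ D.fac f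
      · rw [if_pos h1]
        exact sum_eq_zero (fun j _ => mul_zero _)
      · rw [if_neg h1]
    | succ B ih =>
      intro φ hφ h0 hs
      by_cases hf : ∃ f0, D.rk f0 + (B + 1) = univ.sup D.rk + 1
      · obtain ⟨f0, hf0⟩ := hf
        obtain ⟨ψ, hψ1, hψ2, hψ3⟩ := clear hD h hφ h0 f0 (by
          intro s a f hne
          have := hs s a f hne
          omega)
        obtain ⟨ψ', hψ'1, hψ'2⟩ := ih (φ + -(D.dl τ ψ)) (by
          intro s
          rw [Pi.add_apply, Pi.neg_apply]
          exact Submodule.add_mem _ (hφ s) (Submodule.neg_mem _ (dl_mem D hψ1 s)))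
          (by rw [dl_add, dl_neg, dl_dl, h0, neg_zero, add_zero]) (by
          intro s a f hne
          have e : (φ + -(D.dl τ ψ)) s a f = φ s a f - D.dl τ ψ s a f := by
            simp only [Pi.add_apply, Pi.neg_apply]
            ring
          rw [e] at hne
          have h1 : D.rk f0 ≤ D.rk f := by
            by_cases h2 : φ s a f = 0
            · refine hψ2 s a f (fun h3 => hne ?_)
              rw [h2, h3, sub_zero]
            · have := hs s a f h2
              omega
          have h2 : D.rk f0 ≠ D.rk f := by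
            intro h3
            have h4 := hD.rk_inj h3
            subst h4
            exact hne (by rw [hψ3 s a, sub_self])
          omega)
        refine ⟨ψ' + ψ, fun s => ?_, ?_⟩
        · rw [Pi.add_apply]
          exact Submodule.add_mem _ (hψ'1 s) (hψ1 s)
        · rw [dl_add, hψ'2, add_assoc, neg_add_cancel, add_zero]
      · refine ih φ hφ h0 (fun s a f hne => ?_)
        have h1 := hs s a f hne
        have h2 : D.rk f + (B + 1) ≠ univ.sup D.rk + 1 := fun h3 => hf ⟨f, h3⟩
        omega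
  exact key (univ.sup D.rk + 1) φ hφ h0 (fun s a f _ => Nat.le_add_left _ _)

end Pool.Agent.Helper82.TI2
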