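import Pool.Agent.Helper82.TI2.Glue2

/-!
# Project TI, second part: generators of the spaces Bg, rescaling
-/

open Finset

namespace Pool.Agent.Helper82.TI2

open Pool.Agent.Helper82.TI

variable {K V ι n A : Type} [Field K] [LinearOrder K] [IsStrictOrderedRing K] [DecidableEq V]
  [Fintype V] [Fintype ι] [Fintype n] [Fintype A] [DecidableEq A]

/-- The monomial `μ` at the coordinate `a`. -/
def gen (D : Dat K V ι n) (τ : Finset V) (μ : Multiset V) (a : A) : A → ι → K :=
  fun a' f => if a' = a ∧ τ ⊆ D.fac f then D.mono μ f else 0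

/-- The generators of `Bg`. -/
def uG (D : Dat K V ι n) (G : V → Matrix A A K) (τ : Finset V) (i : ℕ)
    (θ : Multiset V × A × Bool) : A → ι → K :=
  if Multiset.card θ.1 < i then
    (if θ.2.2 = true then Og D G (gen D τ θ.1 θ.2.1) else gen D τ θ.1 θ.2.1)
  else 0

private theorem gen_eq (D : Dat K V ι n) (τ : Finset V) (μ : Multiset V) (a : A) :
    gen D τ μ a = Pi.single a (fun f => if τ ⊆ D.fac f then D.mono μ f else 0) := by
  funext a' f
  unfold gen
  by_cases h : a' = a
  · subst h
    rw [Pi.single_eq_same]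
    by_cases h2 : τ ⊆ D.fac f
    · rw [if_pos ⟨rfl, h2⟩, if_pos h2]
    · rw [if_neg (fun h3 => h2 h3.2), if_neg h2]
  · rw [Pi.single_eq_of_ne h, if_neg (fun h3 => h h3.1)]
    rfl

private theorem gen_mem (D : Dat K V ι n) {τ : Finset V} {i : ℕ} {μ : Multiset V}
    (h : Multiset.card μ < i) (a : A) : gen D τ μ a ∈ D.FS A i τ := by
  rw [gen_eq, Dat.FS, Submodule.mem_pi]
  intro a' _
  by_cases h1 : a' = a
  · subst h1
    rw [Pi.single_eq_same]
    exact mono_mem D τ h
  · rw [Pi.single_eq_of_ne h1]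
    exact Submodule.zero_mem _

private theorem FS_le (D : Dat K V ι n) (τ : Finset V) (i : ℕ) :
    D.FS A i τ ≤ Submodule.span K {z | ∃ (μ : Multiset V) (a : A), Multiset.card μ < i ∧
      z = gen D τ μ a} := by
  intro z hz
  rw [Dat.FS, Submodule.mem_pi] at hz
  have hs : z = ∑ a : A, Pi.single a (z a) := by
    funext a'
    rw [Finset.sum_apply, Finset.sum_eq_single a']
    · rw [Pi.single_eq_same]
    · intro a _ ha
      rw [Pi.single_eq_of_ne ha.symm]
    · intro h
      exact absurd (mem_univ a') h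
  rw [hs]
  refine Submodule.sum_mem _ (fun a _ => ?_)
  have h1 : ∀ g ∈ D.Fs i τ, (Pi.single a g : A → ι → K) ∈
      Submodule.span K {z | ∃ (μ : Multiset V) (a : A), Multiset.card μ < i ∧
      z = gen D τ μ a} := by
    intro g hg
    refine Submodule.span_induction (p := fun g _ => (Pi.single a g : A → ι → K) ∈
      Submodule.span K {z | ∃ (μ : Multiset V) (a : A), Multiset.card μ < i ∧
      z = gen D τ μ a}) ?_ ?_ ?_ ?_ hg
    · rintro g ⟨μ, hμ, rfl⟩
      exact Submodule.subset_span ⟨μ, a, hμ, (gen_eq D τ μ a).symm⟩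
    · rw [Pi.single_zero]
      exact Submodule.zero_mem _
    · intro g g' _ _ h h'
      rw [Pi.single_add]
      exact Submodule.add_mem _ h h'
    · intro r g _ h
      rw [Pi.single_smul]
      exact Submodule.smul_mem _ r h
  exact h1 _ (hz a (Set.mem_univ a))

theorem Bg_span (D : Dat K V ι n) (G : V → Matrix A A K) (τ : Finset V) (i : ℕ) :
    Bg D G τ i = Submodule.span K (Set.range (uG D G τ i)) := by
  refine le_antisymm ?_ ?_
  · refine sup_le ?_ ?_
    · refine (FS_le D τ i).trans (Submodule.span_le.2 ?_)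
      rintro z ⟨μ, a, hμ, rfl⟩
      refine Submodule.subset_span ⟨(μ, a, false), ?_⟩
      unfold uG
      rw [if_pos hμ, if_neg (by simp)]
    · refine (Submodule.map_mono (FS_le D τ i)).trans ?_
      rw [Submodule.map_span]
      refine Submodule.span_le.2 ?_
      rintro z ⟨y, ⟨μ, a, hμ, rfl⟩, rfl⟩
      refine Submodule.subset_span ⟨(μ, a, true), ?_⟩
      unfold uG
      rw [if_pos hμ, if_pos rfl]
  · refine Submodule.span_le.2 ?_
    rintro z ⟨θ, rfl⟩
    unfold uG
    by_cases h1 : Multiset.card θ.1 < i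
    · rw [if_pos h1]
      by_cases h2 : θ.2.2 = true
      · rw [if_pos h2]
        exact Submodule.mem_sup_right (Submodule.mem_map_of_mem (gen_mem D h1 _))
      · rw [if_neg h2]
        exact Submodule.mem_sup_left (gen_mem D h1 _)
    · rw [if_neg h1]
      exact Submodule.zero_mem _

private theorem Fs_scale {D D' : Dat K V ι n} (hfac : ∀ f, D'.fac f = D.fac f)
    {τ : Finset V} {lam : K} (hX : ∀ v f, τ ⊆ D.fac f → D'.X v f = lam * D.X v f) (i : ℕ) :
    D'.Fs i τ ≤ D.Fs i τ := by
  refine Submodule.span_le.2 ?_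
  rintro g ⟨μ, hμ, rfl⟩
  have e : (fun f => if τ ⊆ D'.fac f then D'.mono μ f else 0) =
      lam ^ (Multiset.card μ) • (fun f => if τ ⊆ D.fac f then D.mono μ f else 0) := by
    funext f
    rw [Pi.smul_apply, smul_eq_mul, hfac f]
    by_cases h : τ ⊆ D.fac f
    · rw [if_pos h, if_pos h]
      have h1 : ∀ μ : Multiset V, D'.mono μ f = lam ^ (Multiset.card μ) * D.mono μ f := by
        intro μ
        induction μ using Multiset.induction_on with
        | empty => simp [Dat.mono]
        | cons v μ ih =>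
          have e1 : D'.mono (v ::ₘ μ) f = D'.X v f * D'.mono μ f := by
            simp only [Dat.mono, Multiset.map_cons, Multiset.prod_cons]
          have e2 : D.mono (v ::ₘ μ) f = D.X v f * D.mono μ f := by
            simp only [Dat.mono, Multiset.map_cons, Multiset.prod_cons]
          rw [e1, e2, ih, hX v f h, Multiset.card_cons, pow_succ]
          ring
      exact h1 μ
    · rw [if_neg h, if_neg h, mul_zero]
  rw [e]
  exact Submodule.smul_mem _ _ (mono_mem D τ hμ)

private theorem FS_scale {D D' : Dat K V ι n} (hfac : ∀ f, D'.fac f = D.fac f)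
    {τ : Finset V} {lam : K} (hl : lam ≠ 0)
    (hX : ∀ v f, τ ⊆ D.fac f → D'.X v f = lam * D.X v f) (i : ℕ) :
    D'.FS A i τ = D.FS A i τ := by
  have h : D'.Fs i τ = D.Fs i τ := by
    refine le_antisymm (Fs_scale hfac hX i) (Fs_scale (D := D') (D' := D) (lam := lam⁻¹)
      (fun f => (hfac f).symm) (fun v f hf => ?_) i)
    rw [hX v f (by rw [← hfac f]; exact hf), ← mul_assoc, inv_mul_cancel₀ hl, one_mul]
  unfold Dat.FS
  rw [h]

theorem Bg_scale {D D' : Dat K V ι n} (hfac : ∀ f, D'.fac f = D.fac f) (G : V → Matrix A A K)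
    {τ : Finset V} {lam : K} (hl : lam ≠ 0)
    (hX : ∀ v f, τ ⊆ D.fac f → D'.X v f = lam * D.X v f) (i : ℕ) :
    Bg D' G τ i = Bg D G τ i := by
  have hF := FS_scale (A := A) hfac hl hX i
  have hO : ∀ z ∈ D.FS A i τ, Og D' G z = lam • Og D G z := by
    intro z hz
    funext a f
    change ∑ v, D'.X v f * ∑ b, G v a b * z b f = lam * ∑ v, D.X v f * ∑ b, G v a b * z b f
    by_cases h : τ ⊆ D.fac f
    · rw [Finset.mul_sum]
      refine Finset.sum_congr rfl (fun v _ => ?_)
      rw [hX v f h, mul_assoc]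
    · have h0 : ∀ b, z b f = 0 := fun b => FS_supp D hz h b
      simp only [h0, mul_zero, Finset.sum_const_zero]
  unfold Bg
  rw [hF]
  congr 1
  refine le_antisymm ?_ ?_
  · rintro z ⟨y, hy, rfl⟩
    rw [hO y hy]
    exact Submodule.smul_mem _ _ (Submodule.mem_map_of_mem hy)
  · rintro z ⟨y, hy, rfl⟩
    have h1 : Og D G y = lam⁻¹ • Og D' G y := by
      rw [hO y hy, smul_smul, inv_mul_cancel₀ hl, one_smul]
    rw [h1]
    exact Submodule.smul_mem _ _ (Submodule.mem_map_of_mem hy)

end Pool.Agent.Helper82.TI2
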